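import Pool.Agent.Work.MP_95f31c_co.BridgeA

/-! Chambers and topes. -/

namespace Pool.Agent.Work.MP_95f31c_co

theorem exists_functional {d : ℕ} (H : Submodule ℝ (EuclideanSpace ℝ (Fin d)))
    (hH : Module.finrank ℝ H + 1 = d) :
    ∃ f : EuclideanSpace ℝ (Fin d) →ₗ[ℝ] ℝ, LinearMap.ker f = H := by
  have hfr : Module.finrank ℝ (EuclideanSpace ℝ (Fin d)) = d := by simp
  have hlt : H < ⊤ := by
    rw [lt_top_iff_ne_top]
    rintro rfl
    rw [finrank_top, hfr] at hH
    omega
  obtain ⟨f, hf0, hle⟩ := Submodule.exists_le_ker_of_lt_top H hlt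
  refine ⟨f, ?_⟩
  have h1 := LinearMap.finrank_range_add_finrank_ker f
  have h2 : LinearMap.range f = ⊤ := LinearMap.range_eq_top.2 (LinearMap.surjective hf0)
  rw [h2, finrank_top, Module.finrank_self, hfr] at h1
  exact (Submodule.eq_of_le_of_finrank_eq hle (by omega)).symm

theorem seg_ne {u v : ℝ} (hu : u ≠ 0) (hs : SignType.sign u = SignType.sign v) {a b : ℝ}
    (ha : 0 ≤ a) (hb : 0 ≤ b) (hab : a + b = 1) : a * u + b * v ≠ 0 := by
  rcases lt_or_gt_of_ne hu with h | h
  · rw [sign_neg h] at hs
    have hv : v < 0 := sign_eq_neg_one_iff.1 hs.symm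
    have h1 : a * u ≤ 0 := mul_nonpos_of_nonneg_of_nonpos ha h.le
    have h2 : b * v ≤ 0 := mul_nonpos_of_nonneg_of_nonpos hb hv.le
    rcases ha.eq_or_lt with h3 | h3
    · have : b = 1 := by linarith
      rw [this, ← h3]
      linarith
    · have : a * u < 0 := mul_neg_of_pos_of_neg h3 h
      linarith
  · rw [sign_pos h] at hs
    have hv : 0 < v := sign_eq_one_iff.1 hs.symm
    have h1 : 0 ≤ a * u := mul_nonneg ha h.le
    have h2 : 0 ≤ b * v := mul_nonneg hb hv.le
    rcases ha.eq_or_lt with h3 | h3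
    · have : b = 1 := by linarith
      rw [this, ← h3]
      linarith
    · have : 0 < a * u := mul_pos h3 h
      linarith

theorem seg_zero {u v : ℝ} (hu : u ≠ 0) (hv : v ≠ 0) (hs : SignType.sign u ≠ SignType.sign v) :
    ∃ a b : ℝ, 0 ≤ a ∧ 0 ≤ b ∧ a + b = 1 ∧ a * u + b * v = 0 := by
  have hpos : 0 < |u| + |v| := by positivity
  refine ⟨|v| / (|u| + |v|), |u| / (|u| + |v|), by positivity, by positivity, ?_, ?_⟩
  · rw [← add_div, add_comm, div_self hpos.ne']
  · have h : |v| * u + |u| * v = 0 := by
      rcases lt_or_gt_of_ne hu with h | h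
      · rcases lt_or_gt_of_ne hv with h' | h'
        · rw [sign_neg h, sign_neg h'] at hs
          exact absurd rfl hs
        · rw [abs_of_neg h, abs_of_pos h']
          ring
      · rcases lt_or_gt_of_ne hv with h' | h'
        · rw [abs_of_pos h, abs_of_neg h']
          ring
        · rw [sign_pos h, sign_pos h'] at hs
          exact absurd rfl hs
    have : |v| / (|u| + |v|) * u + |u| / (|u| + |v|) * v = (|v| * u + |u| * v) / (|u| + |v|) := by
      ring
    rw [this, h, zero_div]

section

variable {d : ℕ} {A : Arrangement d} (f : A.planes → (EuclideanSpace ℝ (Fin d) →ₗ[ℝ] ℝ))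

/-- the sign vector of a point -/
noncomputable def sgnv (x : EuclideanSpace ℝ (Fin d)) : A.planes → SignType :=
  fun i => SignType.sign (f i x)

variable (hf : ∀ H, LinearMap.ker (f H) = H.1)

include hf

theorem f_ne (x : A.compl) (i : A.planes) : f i x ≠ 0 := by
  intro h
  have h1 : (x : EuclideanSpace ℝ (Fin d)) ∈ LinearMap.ker (f i) := h
  rw [hf] at h1
  exact x.2 i.1 i.2 h1

theorem continuous_sgnv : Continuous (fun x : A.compl => sgnv f x) := by
  apply continuous_pi
  intro i
  rw [continuous_iff_continuousAt]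
  intro x
  have h1 : ContinuousAt (fun y : A.compl => f i y) x :=
    ((f i).continuous_of_finiteDimensional.comp continuous_subtype_val).continuousAt
  exact ContinuousAt.comp (f := fun y : A.compl => f i y) (g := SignType.sign)
    (continuousAt_sign_of_ne_zero (f_ne f hf x i)) h1

/-- the sign vector of a chamber -/
noncomputable def tau : A.Chamber → (A.planes → SignType) :=
  (continuous_sgnv f hf).connectedComponentsLift

theorem tau_coe (x : A.compl) : tau f hf (x : A.Chamber) = sgnv f x :=
  (continuous_sgnv f hf).connectedComponentsLift_apply_coe x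

theorem mem_compl_iff (x : EuclideanSpace ℝ (Fin d)) :
    x ∈ A.compl ↔ ∀ i, sgnv f x i ≠ 0 := by
  constructor
  · intro hx i h
    exact f_ne f hf ⟨x, hx⟩ i (sign_eq_zero_iff.1 h)
  · intro h H hH hxH
    apply h ⟨H, hH⟩
    have h1 : x ∈ LinearMap.ker (f ⟨H, hH⟩) := by
      rw [hf]
      exact hxH
    rw [sgnv, LinearMap.mem_ker.1 h1, sign_zero]

theorem coe_eq_of_sgnv {x y : A.compl} (h : sgnv f x = sgnv f y) :
    (x : A.Chamber) = (y : A.Chamber) := by
  rw [ConnectedComponents.coe_eq_coe']
  have hseg : segment ℝ (x : EuclideanSpace ℝ (Fin d)) y ⊆ A.compl := by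
    rintro z ⟨a, b, ha, hb, hab, rfl⟩
    rw [mem_compl_iff f hf]
    intro i h0
    have h1 := congrFun h i
    rw [sgnv, sign_eq_zero_iff, map_add, map_smul, map_smul, smul_eq_mul, smul_eq_mul] at h0
    exact seg_ne (f_ne f hf x i) h1 ha hb hab h0
  have hpre : IsPreconnected (Subtype.val ⁻¹' segment ℝ (x : EuclideanSpace ℝ (Fin d)) y :
      Set A.compl) := by
    rw [← Topology.IsInducing.subtypeVal.isPreconnected_image, Subtype.image_preimage_coe,
      Set.inter_eq_self_of_subset_right hseg]
    exact (convex_segment _ _).isPreconnected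
  exact hpre.subset_connectedComponent (right_mem_segment ℝ _ _) (left_mem_segment ℝ _ _)

theorem tau_inj : Function.Injective (tau f hf) := by
  intro C D h
  obtain ⟨x, rfl⟩ := ConnectedComponents.surjective_coe C
  obtain ⟨y, rfl⟩ := ConnectedComponents.surjective_coe D
  rw [tau_coe, tau_coe] at h
  exact coe_eq_of_sgnv f hf h

theorem tau_ne_zero (C : A.Chamber) (i : A.planes) : tau f hf C i ≠ 0 := by
  obtain ⟨x, rfl⟩ := ConnectedComponents.surjective_coe C
  rw [tau_coe]
  exact (mem_compl_iff f hf _).1 x.2 i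

theorem separates_iff (H : A.planes) (C D : A.Chamber) :
    A.Separates H.1 C D ↔ tau f hf C H ≠ tau f hf D H := by
  constructor
  · obtain ⟨x, rfl⟩ := ConnectedComponents.surjective_coe C
    obtain ⟨y, rfl⟩ := ConnectedComponents.surjective_coe D
    intro hs heq
    obtain ⟨z, ⟨a, b, ha, hb, hab, rfl⟩, hz⟩ := hs x y rfl rfl
    rw [tau_coe, tau_coe] at heq
    rw [← hf H, LinearMap.mem_ker, map_add, map_smul, map_smul, smul_eq_mul, smul_eq_mul] at hz
    exact seg_ne (f_ne f hf x H) heq ha hb hab hz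
  · rintro hne x y rfl rfl
    rw [tau_coe, tau_coe] at hne
    obtain ⟨a, b, ha, hb, hab, h0⟩ := seg_zero (f_ne f hf x H) (f_ne f hf y H) hne
    refine ⟨a • (x : EuclideanSpace ℝ (Fin d)) + b • (y : EuclideanSpace ℝ (Fin d)),
      ⟨a, b, ha, hb, hab, rfl⟩, ?_⟩
    rw [← hf H, LinearMap.mem_ker, map_add, map_smul, map_smul, smul_eq_mul, smul_eq_mul]
    exact h0

theorem adj_iff (C D : A.Chamber) :
    A.topeGraph.Adj C D ↔ (sep (tau f hf C) (tau f hf D)).card = 1 := by
  rw [Finset.card_eq_one]
  constructor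
  · rintro ⟨H, ⟨hH, hs⟩, huniq⟩
    refine ⟨⟨H, hH⟩, ?_⟩
    ext i
    rw [mem_sep, Finset.mem_singleton]
    constructor
    · intro h
      have := huniq i.1 ⟨i.2, (separates_iff f hf i C D).2 h⟩
      exact Subtype.ext this
    · rintro rfl
      exact (separates_iff f hf ⟨H, hH⟩ C D).1 hs
  · rintro ⟨i, hi⟩
    refine ⟨i.1, ⟨i.2, (separates_iff f hf i C D).2 ?_⟩, ?_⟩
    · rw [← mem_sep, hi, Finset.mem_singleton]
    · rintro H ⟨hH, hs⟩
      have h1 := (separates_iff f hf ⟨H, hH⟩ C D).1 hs
      rw [← mem_sep, hi, Finset.mem_singleton] at h1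
      rw [← h1]

open Classical in
theorem neighbor (S : CellSystem A.planes)
    (hS : S.cells = Set.range (fun x : EuclideanSpace ℝ (Fin d) => sgnv f x))
    (C D : A.Chamber) (hne : C ≠ D) : ∃ C' : A.Chamber, A.topeGraph.Adj C C' ∧
      (sep (tau f hf C') (tau f hf D)).card + 1 = (sep (tau f hf C) (tau f hf D)).card := by
  have hmem : ∀ C : A.Chamber, tau f hf C ∈ S.cells := by
    intro C
    obtain ⟨x, rfl⟩ := ConnectedComponents.surjective_coe C
    rw [tau_coe, hS]
    exact ⟨x, rfl⟩
  set g := tau f hf C with hg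
  set E := tau f hf D with hE
  have hzs : zs E = zs g := by
    ext i
    rw [mem_zs, mem_zs]
    constructor
    · intro h
      exact absurd h (tau_ne_zero f hf D i)
    · intro h
      exact absurd h (tau_ne_zero f hf C i)
  obtain ⟨h, hh, hhg, hhne, hK, hpar, _⟩ := S.facet E (hmem D) g (hmem C) hzs
    (fun h => hne (tau_inj f hf h.symm))
  obtain ⟨i, hi⟩ : ∃ i, h i = 0 := by
    by_contra hcon
    push Not at hcon
    apply hhne
    funext i
    rcases hhg i with h1 | h1
    · exact absurd h1 (hcon i)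
    · exact h1
  have hgi : ∀ j, g j ≠ 0 := tau_ne_zero f hf C
  have honly : ∀ j, h j = 0 → j = i := by
    intro j hj
    have hle : i.1 ≤ j.1 := by
      intro x hx
      have hFi : sgnv f x i = 0 := by
        have : x ∈ LinearMap.ker (f i) := by rw [hf]; exact hx
        rw [sgnv, LinearMap.mem_ker.1 this, sign_zero]
      have h1 := hpar (sgnv f x) (by rw [hS]; exact ⟨x, rfl⟩) (by
        intro k hk
        exact absurd (mem_zs.1 hk) (hgi k)) ⟨i, mem_zs.2 hFi, by
          rw [Finset.mem_sdiff, mem_zs, mem_zs]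
          exact ⟨hi, hgi i⟩⟩
      have h2 := mem_zs.1 (h1 (mem_zs.2 hj))
      have h3 : x ∈ LinearMap.ker (f j) := sign_eq_zero_iff.1 h2
      rw [hf] at h3
      exact h3
    have heq : i.1 = j.1 := by
      apply Submodule.eq_of_le_of_finrank_eq hle
      have h1 := A.codim_one i.1 i.2
      have h2 := A.codim_one j.1 j.2
      omega
    exact (Subtype.ext heq).symm
  have hg' : comp h (-g) ∈ S.cells := S.comp_mem _ hh _ (S.neg_mem _ (hmem C))
  rw [hS] at hg'
  obtain ⟨x, hx⟩ := hg'
  simp only at hx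
  have hval : ∀ j, sgnv f x j = if j = i then - g i else g j := by
    intro j
    rw [hx, comp]
    by_cases hj : j = i
    · rw [if_pos hj, hj, if_pos hi, Pi.neg_apply]
    · have hj' : h j ≠ 0 := fun h0 => hj (honly j h0)
      rw [if_neg hj, if_neg hj']
      rcases hhg j with h1 | h1
      · exact absurd h1 hj'
      · exact h1
  have hxc : x ∈ A.compl := by
    rw [mem_compl_iff f hf]
    intro j
    rw [hval]
    by_cases hj : j = i
    · rw [if_pos hj, Ne, sign_neg_zero]
      exact hgi i
    · rw [if_neg hj]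
      exact hgi j
  have hiE : E i ≠ g i := by
    rw [← mem_sep]
    apply hK
    rw [Finset.mem_sdiff, mem_zs, mem_zs]
    exact ⟨hi, hgi i⟩
  refine ⟨((⟨x, hxc⟩ : A.compl) : A.Chamber), ?_, ?_⟩
  · rw [adj_iff f hf, tau_coe, Finset.card_eq_one]
    refine ⟨i, ?_⟩
    ext j
    rw [mem_sep, Finset.mem_singleton]
    constructor
    · intro h1
      by_contra hj
      apply h1
      show g j = sgnv f x j
      rw [hval, if_neg hj]
    · rintro rfl
      show g j ≠ sgnv f x j
      rw [hval, if_pos rfl]
      exact fun h => sign_neg_ne (hgi j) h.symm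
  · rw [tau_coe]
    have hsub : sep g E = insert i (sep (sgnv f x) E) := by
      ext j
      rw [Finset.mem_insert, mem_sep, mem_sep]
      by_cases hj : j = i
      · constructor
        · intro _
          exact Or.inl hj
        · intro _
          rw [hj]
          exact fun h => hiE h.symm
      · rw [hval, if_neg hj]
        constructor
        · exact Or.inr
        · rintro (h1 | h1)
          · exact absurd h1 hj
          · exact h1
    have hnot : i ∉ sep (sgnv f x) E := by
      rw [mem_sep, not_not, hval, if_pos rfl]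
      exact (sign_neg_of_ne (tau_ne_zero f hf D i) (hgi i) hiE).symm
    show (sep (sgnv f x) E).card + 1 = (sep g E).card
    rw [hsub, Finset.card_insert_of_notMem hnot]

open Classical in
theorem sep_le_walk {C D : A.Chamber} (p : A.topeGraph.Walk C D) :
    (sep (tau f hf C) (tau f hf D)).card ≤ p.length := by
  induction p with
  | nil =>
    rw [Finset.card_eq_zero.2]
    · exact Nat.zero_le _
    · ext i
      rw [mem_sep]
      simp
  | @cons u v w h p ih =>
    have h1 := (adj_iff f hf u v).1 h
    have hsub : sep (tau f hf u) (tau f hf w) ⊆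
        sep (tau f hf u) (tau f hf v) ∪ sep (tau f hf v) (tau f hf w) := by
      intro i hi
      rw [Finset.mem_union, mem_sep, mem_sep]
      rw [mem_sep] at hi
      by_contra hcon
      push Not at hcon
      exact hi (hcon.1.trans hcon.2)
    have h2 := Finset.card_le_card hsub
    have h3 := Finset.card_union_le (sep (tau f hf u) (tau f hf v)) (sep (tau f hf v) (tau f hf w))
    rw [SimpleGraph.Walk.length_cons]
    omega

open Classical in
theorem exists_walk (S : CellSystem A.planes)
    (hS : S.cells = Set.range (fun x : EuclideanSpace ℝ (Fin d) => sgnv f x)) (n : ℕ) :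
    ∀ C D : A.Chamber, (sep (tau f hf C) (tau f hf D)).card = n →
      ∃ p : A.topeGraph.Walk C D, p.length = n := by
  induction n with
  | zero =>
    intro C D h
    have : C = D := by
      apply tau_inj f hf
      funext i
      by_contra hne
      rw [Finset.card_eq_zero] at h
      have := mem_sep.2 hne
      rw [h] at this
      exact absurd this (Finset.notMem_empty i)
    subst this
    exact ⟨SimpleGraph.Walk.nil, rfl⟩
  | succ n ih =>
    intro C D h
    have hne : C ≠ D := by
      rintro rfl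
      rw [Finset.card_eq_zero.2] at h
      · omega
      · ext i
        rw [mem_sep]
        simp
    obtain ⟨C', hadj, hc⟩ := neighbor f hf S hS C D hne
    obtain ⟨p, hp⟩ := ih C' D (by omega)
    exact ⟨SimpleGraph.Walk.cons hadj p, by rw [SimpleGraph.Walk.length_cons, hp]⟩

open Classical in
theorem dist_eq (S : CellSystem A.planes)
    (hS : S.cells = Set.range (fun x : EuclideanSpace ℝ (Fin d) => sgnv f x)) (C D : A.Chamber) :
    A.topeGraph.dist C D = (sep (tau f hf C) (tau f hf D)).card := by
  obtain ⟨p, hp⟩ := exists_walk f hf S hS _ C D rfl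
  apply le_antisymm
  · rw [← hp]
    exact SimpleGraph.dist_le p
  · obtain ⟨q, hq⟩ := p.reachable.exists_walk_length_eq_dist
    rw [← hq]
    exact sep_le_walk f hf q

open Classical in
theorem MH_tf_of_cells (S : CellSystem A.planes)
    (hS : S.cells = Set.range (fun x : EuclideanSpace ℝ (Fin d) => sgnv f x)) (k l : ℕ) (n : ℤ)
    (h : MH A.topeGraph k l) (hn : n ≠ 0) (hnh : n • h = 0) : h = 0 := by
  apply MH_tf A.topeGraph (tau f hf) S (tau_inj f hf) _ (dist_eq f hf S hS) k l n h hn hnh
  intro t
  constructor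
  · rintro ⟨h1, h2⟩
    rw [hS] at h1
    obtain ⟨x, rfl⟩ := h1
    have hx : x ∈ A.compl := (mem_compl_iff f hf x).2 h2
    exact ⟨((⟨x, hx⟩ : A.compl) : A.Chamber), tau_coe f hf ⟨x, hx⟩⟩
  · rintro ⟨C, rfl⟩
    refine ⟨?_, tau_ne_zero f hf C⟩
    obtain ⟨x, rfl⟩ := ConnectedComponents.surjective_coe C
    rw [tau_coe, hS]
    exact ⟨x, rfl⟩

open Classical in
theorem boundaries_le_of_cells (S : CellSystem A.planes)
    (hS : S.cells = Set.range (fun x : EuclideanSpace ℝ (Fin d) => sgnv f x)) (k l : ℕ) :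
    boundaries A.topeGraph k l ≤ cycles A.topeGraph k l := by
  apply boundaries_le A.topeGraph (tau f hf) S (tau_inj f hf) _ (dist_eq f hf S hS) k l
  intro t
  constructor
  · rintro ⟨h1, h2⟩
    rw [hS] at h1
    obtain ⟨x, rfl⟩ := h1
    have hx : x ∈ A.compl := (mem_compl_iff f hf x).2 h2
    exact ⟨((⟨x, hx⟩ : A.compl) : A.Chamber), tau_coe f hf ⟨x, hx⟩⟩
  · rintro ⟨C, rfl⟩
    refine ⟨?_, tau_ne_zero f hf C⟩
    obtain ⟨x, rfl⟩ := ConnectedComponents.surjective_coe C
    rw [tau_coe, hS]
    exact ⟨x, rfl⟩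

open Classical in
theorem connected_of_cells (S : CellSystem A.planes)
    (hS : S.cells = Set.range (fun x : EuclideanSpace ℝ (Fin d) => sgnv f x)) :
    A.topeGraph.Connected := by
  have hne : ∃ x : EuclideanSpace ℝ (Fin d), x ∈ A.compl := by
    have htop : (⊤ : Submodule ℝ (EuclideanSpace ℝ (Fin d))) ∉ A.planes := by
      intro h
      have h1 := A.codim_one _ h
      rw [finrank_top] at h1
      simp at h1
    have h2 := Subspace.biUnion_ne_univ_of_top_notMem htop
    rw [Set.ne_univ_iff_exists_notMem] at h2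
    obtain ⟨x, hx⟩ := h2
    refine ⟨x, fun H hH hxH => hx ?_⟩
    rw [Set.mem_iUnion₂]
    exact ⟨H, hH, hxH⟩
  obtain ⟨x, hx⟩ := hne
  haveI : Nonempty A.Chamber := ⟨((⟨x, hx⟩ : A.compl) : A.Chamber)⟩
  refine ⟨fun C D => ?_⟩
  obtain ⟨p, _⟩ := exists_walk f hf S hS _ C D rfl
  exact p.reachable

end

end Pool.Agent.Work.MP_95f31c_co
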