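import Mathlib

/-! Based complexes: pure algebra of pieces of a free abelian group with a differential. -/

namespace Pool.Agent.Work.MP_95f31c_co

section abstractPart

variable {V : Type} [AddCommGroup V]

/-- acyclicity of the piece cut out by the projection `p` -/
def AcycP (D p : V →ₗ[ℤ] V) : Prop :=
  ∀ z, p z = z → p (D z) = 0 → ∃ w, p w = w ∧ p (D w) = z

/-- torsion-freeness of the piece cut out by the projection `p` -/
def TFP (D p : V →ₗ[ℤ] V) : Prop :=
  ∀ z, p z = z → p (D z) = 0 → ∀ n : ℤ, n ≠ 0 → ∀ w, p w = w → p (D w) = n • z →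
    ∃ w', p w' = w' ∧ p (D w') = z

theorem AcycP.tfp {D p : V →ₗ[ℤ] V} (h : AcycP D p) : TFP D p :=
  fun z hz hdz _ _ _ _ _ => h z hz hdz

/-- data of a splitting of the piece `p` into a closed piece `q` and the quotient piece `r` -/
structure Split (D p q r : V →ₗ[ℤ] V) : Prop where
  add : ∀ z, p z = q z + r z
  qq : ∀ z, q (q z) = q z
  rr : ∀ z, r (r z) = r z
  qr : ∀ z, q (r z) = 0
  rq : ∀ z, r (q z) = 0
  closed : ∀ z, r (D (q z)) = 0
  sq : ∀ z, p z = z → p (D (p (D z))) = 0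

variable {D p q r : V →ₗ[ℤ] V}

theorem Split.p_of_q (h : Split D p q r) {z : V} (hz : q z = z) : p z = z := by
  rw [h.add, hz, ← hz, h.rq, add_zero]

theorem Split.p_of_r (h : Split D p q r) {z : V} (hz : r z = z) : p z = z := by
  rw [h.add, hz, ← hz, h.qr, zero_add]

theorem Split.r_p (h : Split D p q r) (z : V) : r (p z) = r z := by
  rw [h.add, map_add, h.rq, h.rr, zero_add]

theorem Split.q_p (h : Split D p q r) (z : V) : q (p z) = q z := by
  rw [h.add, map_add, h.qr, h.qq, add_zero]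

theorem Split.pD_of_q (h : Split D p q r) {z : V} (hz : q z = z) : p (D z) = q (D z) := by
  have := h.closed z
  rw [hz] at this
  rw [h.add, this, add_zero]

theorem Split.r_cycle (h : Split D p q r) {z : V} (hz : p z = z) :
    r (D (r z)) = r (D z) := by
  have h1 : z = q z + r z := by rw [← h.add, hz]
  conv_rhs => rw [h1]
  rw [map_add, map_add, h.closed, zero_add]

theorem Split.q_of_r_zero (h : Split D p q r) {z : V} (hz : p z = z) (hr : r z = 0) :
    q z = z := by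
  have h1 := h.add z
  rw [hz, hr, add_zero] at h1
  exact h1.symm

theorem Split.acyc (h : Split D p q r) (hq : AcycP D q) (hr : AcycP D r) : AcycP D p := by
  intro z hz hdz
  have h1 : r (D (r z)) = 0 := by
    rw [h.r_cycle hz, ← h.r_p, hdz, map_zero]
  obtain ⟨wr, hwr, hwr2⟩ := hr (r z) (h.rr z) h1
  have hwp := h.p_of_r hwr
  have hpp : ∀ y, p (p y) = p y := by
    intro y
    rw [h.add (p y), h.q_p, h.r_p, ← h.add]
  have h2 : r (z - p (D wr)) = 0 := by
    rw [map_sub, h.r_p, hwr2, sub_self]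
  have h3 : p (z - p (D wr)) = z - p (D wr) := by
    rw [map_sub, hz, hpp]
  have h4 := h.q_of_r_zero h3 h2
  have h5 : p (D (z - p (D wr))) = 0 := by
    rw [map_sub, map_sub, hdz, h.sq wr hwp, sub_zero]
  have h6 : q (D (z - p (D wr))) = 0 := by
    rw [← h.pD_of_q h4, h5]
  obtain ⟨wq, hwq, hwq2⟩ := hq _ h4 h6
  refine ⟨wq + wr, ?_, ?_⟩
  · rw [map_add, h.p_of_q hwq, hwp]
  · rw [map_add, map_add, h.pD_of_q hwq, hwq2]; abel

theorem Split.tf_of_acyc_r (h : Split D p q r) (hq : TFP D q) (hr : AcycP D r) : TFP D p := by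
  intro z hz hdz n hn w hw hwz
  have h1 : r (D (r z)) = 0 := by
    rw [h.r_cycle hz, ← h.r_p, hdz, map_zero]
  obtain ⟨wr, hwr, hwr2⟩ := hr (r z) (h.rr z) h1
  have hwp := h.p_of_r hwr
  have hpp : ∀ y, p (p y) = p y := by
    intro y
    rw [h.add (p y), h.q_p, h.r_p, ← h.add]
  have h2 : r (z - p (D wr)) = 0 := by
    rw [map_sub, h.r_p, hwr2, sub_self]
  have h3 : p (z - p (D wr)) = z - p (D wr) := by
    rw [map_sub, hz, hpp]
  have h4 := h.q_of_r_zero h3 h2
  have h5 : p (D (z - p (D wr))) = 0 := by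
    rw [map_sub, map_sub, hdz, h.sq wr hwp, sub_zero]
  have h6 : q (D (z - p (D wr))) = 0 := by
    rw [← h.pD_of_q h4, h5]
  -- u = w - n wr
  have hu : p (w - n • wr) = w - n • wr := by
    rw [map_sub, map_smul, hw, hwp]
  have hu2 : p (D (w - n • wr)) = n • (z - p (D wr)) := by
    rw [map_sub, map_sub, map_smul, map_smul, hwz, smul_sub]
  have hur : r (D (r (w - n • wr))) = 0 := by
    rw [h.r_cycle hu, ← h.r_p, hu2, map_smul, h2, smul_zero]
  obtain ⟨vr, hvr, hvr2⟩ := hr _ (h.rr _) hur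
  have hvp := h.p_of_r hvr
  have h7 : p (w - n • wr - p (D vr)) = w - n • wr - p (D vr) := by
    rw [map_sub, hu, hpp]
  have h8 : r (w - n • wr - p (D vr)) = 0 := by
    rw [map_sub, h.r_p, hvr2, sub_self]
  have h9 := h.q_of_r_zero h7 h8
  have h10 : q (D (w - n • wr - p (D vr))) = n • (z - p (D wr)) := by
    rw [← h.pD_of_q h9, map_sub, map_sub, hu2, h.sq vr hvp, sub_zero]
  obtain ⟨w', hw', hw'2⟩ := hq _ h4 h6 n hn _ h9 h10
  refine ⟨w' + wr, ?_, ?_⟩
  · rw [map_add, h.p_of_q hw', hwp]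
  · rw [map_add, map_add, h.pD_of_q hw', hw'2]; abel

theorem Split.tf_of_acyc_q (h : Split D p q r) (hq : AcycP D q) (hr : TFP D r) : TFP D p := by
  intro z hz hdz n hn w hw hwz
  have hpp : ∀ y, p (p y) = p y := by
    intro y
    rw [h.add (p y), h.q_p, h.r_p, ← h.add]
  have h1 : r (D (r z)) = 0 := by
    rw [h.r_cycle hz, ← h.r_p, hdz, map_zero]
  have h1' : r (D (r w)) = n • r z := by
    rw [h.r_cycle hw, ← h.r_p, hwz, map_smul]
  obtain ⟨wr, hwr, hwr2⟩ := hr (r z) (h.rr z) h1 n hn (r w) (h.rr w) h1'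
  have hwp := h.p_of_r hwr
  have h2 : r (z - p (D wr)) = 0 := by
    rw [map_sub, h.r_p, hwr2, sub_self]
  have h3 : p (z - p (D wr)) = z - p (D wr) := by
    rw [map_sub, hz, hpp]
  have h4 := h.q_of_r_zero h3 h2
  have h5 : p (D (z - p (D wr))) = 0 := by
    rw [map_sub, map_sub, hdz, h.sq wr hwp, sub_zero]
  have h6 : q (D (z - p (D wr))) = 0 := by
    rw [← h.pD_of_q h4, h5]
  obtain ⟨wq, hwq, hwq2⟩ := hq _ h4 h6
  refine ⟨wq + wr, ?_, ?_⟩
  · rw [map_add, h.p_of_q hwq, hwp]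
  · rw [map_add, map_add, h.pD_of_q hwq, hwq2]; abel

/-- if the total piece is acyclic, torsion-freeness passes from the quotient to the closed part -/
theorem Split.tf_q_of_acyc (h : Split D p q r) (hp : AcycP D p) (hr : TFP D r) : TFP D q := by
  intro z hz hdz n hn w hw hwz
  have hpp : ∀ y, p (p y) = p y := by
    intro y
    rw [h.add (p y), h.q_p, h.r_p, ← h.add]
  have hzp := h.p_of_q hz
  have hwp := h.p_of_q hw
  obtain ⟨u, hu, hu2⟩ := hp z hzp (by rw [h.pD_of_q hz, hdz])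
  have hrz : r z = 0 := by rw [← hz, h.rq]
  have h1 : r (D (r u)) = 0 := by
    rw [h.r_cycle hu, ← h.r_p, hu2, hrz]
  have h2 : p (n • u - w) = n • u - w := by rw [map_sub, map_smul, hu, hwp]
  have h3 : p (D (n • u - w)) = 0 := by
    rw [map_sub, map_sub, map_smul, map_smul, hu2, h.pD_of_q hw, hwz, sub_self]
  obtain ⟨v, hv, hv2⟩ := hp _ h2 h3
  have h4 : r (D (r v)) = n • r u := by
    rw [h.r_cycle hv, ← h.r_p, hv2, map_sub, map_smul]
    have : r w = 0 := by rw [← hw, h.rq]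
    rw [this, sub_zero]
  obtain ⟨s, hs, hs2⟩ := hr (r u) (h.rr u) h1 n hn (r v) (h.rr v) h4
  have hsp := h.p_of_r hs
  have h5 : p (u - p (D s)) = u - p (D s) := by rw [map_sub, hu, hpp]
  have h6 : r (u - p (D s)) = 0 := by rw [map_sub, h.r_p, hs2, sub_self]
  have h7 := h.q_of_r_zero h5 h6
  refine ⟨u - p (D s), h7, ?_⟩
  rw [← h.pD_of_q h7, map_sub, map_sub, hu2, h.sq s hsp, sub_zero]

/-- direct sums -/
theorem Split.tf_of_tf_tf (h : Split D p q r) (hc : ∀ z, q (D (r z)) = 0)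
    (hq : TFP D q) (hr : TFP D r) : TFP D p := by
  intro z hz hdz n hn w hw hwz
  have key : ∀ y, p y = y → q (D (q y)) = q (D y) := by
    intro y hy
    have h1 : y = q y + r y := by rw [← h.add, hy]
    conv_rhs => rw [h1]
    rw [map_add, map_add, hc, add_zero]
  have h1 : r (D (r z)) = 0 := by
    rw [h.r_cycle hz, ← h.r_p, hdz, map_zero]
  have h1' : r (D (r w)) = n • r z := by
    rw [h.r_cycle hw, ← h.r_p, hwz, map_smul]
  have h2 : q (D (q z)) = 0 := by
    rw [key z hz, ← h.q_p, hdz, map_zero]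
  have h2' : q (D (q w)) = n • q z := by
    rw [key w hw, ← h.q_p, hwz, map_smul]
  obtain ⟨wr, hwr, hwr2⟩ := hr (r z) (h.rr z) h1 n hn (r w) (h.rr w) h1'
  obtain ⟨wq, hwq, hwq2⟩ := hq (q z) (h.qq z) h2 n hn (q w) (h.qq w) h2'
  refine ⟨wq + wr, ?_, ?_⟩
  · rw [map_add, h.p_of_q hwq, h.p_of_r hwr]
  · have h3 : q (D wr) = 0 := by rw [← hwr, hc]
    rw [map_add, map_add, h.pD_of_q hwq, hwq2, h.add (D wr), h3, hwr2, zero_add, ← h.add, hz]

end abstractPart

section concrete

variable {I : Type}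

open Classical in
/-- projection onto the chains supported on `P` -/
noncomputable def pr (P : Set I) : (I →₀ ℤ) →ₗ[ℤ] (I →₀ ℤ) where
  toFun z := z.filter (· ∈ P)
  map_add' _ _ := Finsupp.filter_add
  map_smul' _ _ := Finsupp.filter_smul

theorem pr_apply_mem {P : Set I} {x : I} (hx : x ∈ P) (z : I →₀ ℤ) : pr P z x = z x := by
  classical
  simp [pr, hx]

theorem pr_apply_not_mem {P : Set I} {x : I} (hx : x ∉ P) (z : I →₀ ℤ) : pr P z x = 0 := by
  classical
  simp [pr, hx]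

theorem pr_eq_self_iff {P : Set I} {z : I →₀ ℤ} : pr P z = z ↔ ∀ x, x ∉ P → z x = 0 := by
  constructor
  · intro h x hx
    rw [← h, pr_apply_not_mem hx]
  · intro h
    ext x
    by_cases hx : x ∈ P
    · rw [pr_apply_mem hx]
    · rw [pr_apply_not_mem hx, h x hx]

theorem pr_single_mem {P : Set I} {x : I} (hx : x ∈ P) (a : ℤ) :
    pr P (Finsupp.single x a) = Finsupp.single x a := by
  classical
  rw [pr_eq_self_iff]
  intro y hy
  rw [Finsupp.single_apply, if_neg]
  rintro rfl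
  exact hy hx

theorem pr_idem (P : Set I) (z : I →₀ ℤ) : pr P (pr P z) = pr P z := by
  rw [pr_eq_self_iff]
  intro x hx
  rw [pr_apply_not_mem hx]

/-- two linear maps agreeing on the basis elements of `P` agree on chains supported on `P` -/
theorem lin_ext_on {M : Type} [AddCommGroup M] {P : Set I} (f g : (I →₀ ℤ) →ₗ[ℤ] M)
    (h : ∀ x ∈ P, f (Finsupp.single x 1) = g (Finsupp.single x 1)) (z : I →₀ ℤ)
    (hz : pr P z = z) : f z = g z := by
  have hz' := pr_eq_self_iff.1 hz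
  have e : z = z.sum (fun x a => a • Finsupp.single x 1) := by
    conv_lhs => rw [← Finsupp.sum_single z]
    apply Finsupp.sum_congr
    intro x _
    rw [Finsupp.smul_single, smul_eq_mul, mul_one]
  rw [e, Finsupp.sum, map_sum, map_sum]
  apply Finset.sum_congr rfl
  intro x hx
  rw [map_smul, map_smul]
  by_cases hxP : x ∈ P
  · rw [h x hxP]
  · rw [hz' x hxP, zero_smul, zero_smul]

/-- acyclicity of the piece `P` -/
def Acyc (D : (I →₀ ℤ) →ₗ[ℤ] (I →₀ ℤ)) (P : Set I) : Prop := AcycP D (pr P)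

/-- torsion-freeness of the piece `P` -/
def TF (D : (I →₀ ℤ) →ₗ[ℤ] (I →₀ ℤ)) (P : Set I) : Prop := TFP D (pr P)

/-- the compressed differential squares to zero on `P` -/
def Sq0 (D : (I →₀ ℤ) →ₗ[ℤ] (I →₀ ℤ)) (P : Set I) : Prop :=
  ∀ z, pr P z = z → pr P (D (pr P (D z))) = 0

theorem Acyc.tf {D : (I →₀ ℤ) →ₗ[ℤ] (I →₀ ℤ)} {P : Set I} (h : Acyc D P) : TF D P :=
  AcycP.tfp h

theorem closed_of_coeff {D : (I →₀ ℤ) →ₗ[ℤ] (I →₀ ℤ)} {Q R : Set I}
    (h : ∀ x ∈ Q, ∀ y ∈ R, D (Finsupp.single x 1) y = 0) (z : I →₀ ℤ) (hz : pr Q z = z) :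
    pr R (D z) = 0 := by
  have := lin_ext_on ((pr R) ∘ₗ D) 0 (P := Q) (fun x hx => by
    rw [LinearMap.comp_apply, LinearMap.zero_apply]
    ext y
    by_cases hy : y ∈ R
    · rw [pr_apply_mem hy, h x hx y hy, Finsupp.zero_apply]
    · rw [pr_apply_not_mem hy, Finsupp.zero_apply]) z hz
  simpa using this

/-- squaring to zero on a convex set -/
theorem sq0_of_convex {D : (I →₀ ℤ) →ₗ[ℤ] (I →₀ ℤ)} (hD : ∀ z, D (D z) = 0) {P : Set I}
    (hP : ∀ x ∈ P, ∀ y, ∀ z ∈ P, D (Finsupp.single x 1) y ≠ 0 →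
      D (Finsupp.single y 1) z ≠ 0 → y ∈ P) : Sq0 D P := by
  intro z hz
  set R : Set I := {y | y ∉ P ∧ ∃ x ∈ P, D (Finsupp.single x 1) y ≠ 0} with hR
  have hr : pr R (D z - pr P (D z)) = D z - pr P (D z) := by
    rw [pr_eq_self_iff]
    intro y hy
    by_cases hyP : y ∈ P
    · rw [Finsupp.sub_apply, pr_apply_mem hyP, sub_self]
    · have h1 : ∀ x ∈ P, D (Finsupp.single x 1) y = 0 := by
        intro x hx
        by_contra hne
        exact hy ⟨hyP, x, hx, hne⟩
      have h2 : pr {y} (D z) = 0 := by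
        apply closed_of_coeff (Q := P) _ z hz
        intro x hx y' hy'
        rw [Set.mem_singleton_iff] at hy'
        rw [hy']
        exact h1 x hx
      have h3 : D z y = 0 := by
        rw [← pr_apply_mem (Set.mem_singleton y) (D z), h2, Finsupp.zero_apply]
      rw [Finsupp.sub_apply, pr_apply_not_mem hyP, h3, sub_self]
  have h4 : pr P (D (D z - pr P (D z))) = 0 := by
    apply closed_of_coeff (Q := R) _ _ hr
    intro y hy w hw
    obtain ⟨hyP, x, hx, hxy⟩ := hy
    by_contra hne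
    exact hyP (hP x hx y w hw hxy hne)
  rw [map_sub, hD, zero_sub, map_neg, neg_eq_zero] at h4
  exact h4

theorem split_of_union {D : (I →₀ ℤ) →ₗ[ℤ] (I →₀ ℤ)} {P Q R : Set I} (hP : ∀ x, x ∈ P ↔ x ∈ Q ∨ x ∈ R)
    (hdisj : ∀ x, x ∈ Q → x ∉ R) (hcl : ∀ x ∈ Q, ∀ y ∈ R, D (Finsupp.single x 1) y = 0)
    (hsq : Sq0 D P) : Split D (pr P) (pr Q) (pr R) where
  add z := by
    ext x
    rw [Finsupp.add_apply]
    by_cases hQ : x ∈ Q
    · rw [pr_apply_mem hQ, pr_apply_not_mem (hdisj x hQ), pr_apply_mem ((hP x).2 (Or.inl hQ)),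
        add_zero]
    · by_cases hR : x ∈ R
      · rw [pr_apply_not_mem hQ, pr_apply_mem hR, pr_apply_mem ((hP x).2 (Or.inr hR)), zero_add]
      · rw [pr_apply_not_mem hQ, pr_apply_not_mem hR, pr_apply_not_mem, zero_add]
        intro h
        rcases (hP x).1 h with h | h
        · exact hQ h
        · exact hR h
  qq z := pr_idem Q z
  rr z := pr_idem R z
  qr z := by
    ext x
    by_cases hQ : x ∈ Q
    · rw [pr_apply_mem hQ, pr_apply_not_mem (hdisj x hQ), Finsupp.zero_apply]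
    · rw [pr_apply_not_mem hQ, Finsupp.zero_apply]
  rq z := by
    ext x
    by_cases hQ : x ∈ Q
    · rw [pr_apply_not_mem (hdisj x hQ), Finsupp.zero_apply]
    · by_cases hR : x ∈ R
      · rw [pr_apply_mem hR, pr_apply_not_mem hQ, Finsupp.zero_apply]
      · rw [pr_apply_not_mem hR, Finsupp.zero_apply]
  closed z := closed_of_coeff hcl _ (pr_idem Q z)
  sq := hsq

theorem acyc_empty (D : (I →₀ ℤ) →ₗ[ℤ] (I →₀ ℤ)) {P : Set I} (hP : ∀ x, x ∉ P) : Acyc D P := by
  intro z hz _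
  have h0 : z = 0 := by
    ext x
    rw [pr_eq_self_iff.1 hz x (hP x), Finsupp.zero_apply]
  refine ⟨0, by simp, ?_⟩
  rw [h0]
  simp

theorem sq0_sub {D : (I →₀ ℤ) →ₗ[ℤ] (I →₀ ℤ)} {P Q : Set I} (hQP : ∀ x ∈ Q, x ∈ P)
    (hcl : ∀ x ∈ Q, ∀ y ∈ P, y ∉ Q → D (Finsupp.single x 1) y = 0) (hsq : Sq0 D P) :
    Sq0 D Q := by
  intro z hz
  have hzP : pr P z = z := by
    rw [pr_eq_self_iff] at hz ⊢
    intro x hx
    exact hz x (fun h => hx (hQP x h))
  have key : ∀ y, pr Q y = y → pr P (D y) = pr Q (D y) := by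
    intro y hy
    have h1 : pr (P \ Q) (D y) = 0 :=
      closed_of_coeff (fun x hx w hw => hcl x hx w hw.1 hw.2) y hy
    ext x
    by_cases hxQ : x ∈ Q
    · rw [pr_apply_mem hxQ, pr_apply_mem (hQP x hxQ)]
    · rw [pr_apply_not_mem hxQ]
      by_cases hxP : x ∈ P
      · rw [pr_apply_mem hxP, ← pr_apply_mem (P := P \ Q) ⟨hxP, hxQ⟩, h1, Finsupp.zero_apply]
      · rw [pr_apply_not_mem hxP]
  have h2 := hsq z hzP
  rw [key z hz, key _ (pr_idem Q _)] at h2
  exact h2

/-- filtration lemma, acyclic version -/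
theorem filt_acyc {J : Type} {D : (I →₀ ℤ) →ₗ[ℤ] (I →₀ ℤ)} (κ : I → J) (ht : J → ℕ) (n : ℕ) :
    ∀ (P : Set I), P.Finite → P.ncard = n →
    (∀ x ∈ P, ∀ y ∈ P, D (Finsupp.single x 1) y ≠ 0 → κ y = κ x ∨ ht (κ y) < ht (κ x)) →
    Sq0 D P → (∀ j, Acyc D {x | x ∈ P ∧ κ x = j}) → Acyc D P := by
  induction n using Nat.strong_induction_on with
  | _ n ih =>
  intro P hfin hn hmono hsq hp
  by_cases hemp : P.Nonempty
  · obtain ⟨x0, hx0, hmax⟩ := Set.exists_max_image P (fun x => ht (κ x)) hfin hemp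
    set R : Set I := {x | x ∈ P ∧ κ x = κ x0} with hR
    set Q : Set I := {x | x ∈ P ∧ κ x ≠ κ x0} with hQ
    have hcl : ∀ x ∈ Q, ∀ y ∈ R, D (Finsupp.single x 1) y = 0 := by
      intro x hx y hy
      by_contra hne
      rcases hmono x hx.1 y hy.1 hne with h | h
      · exact hx.2 (by rw [← h, hy.2])
      · have := hmax x hx.1
        rw [hy.2] at h
        omega
    have hsplit : Split D (pr P) (pr Q) (pr R) := by
      apply split_of_union _ _ hcl hsq
      · intro x
        constructor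
        · intro hx
          by_cases h : κ x = κ x0
          · exact Or.inr ⟨hx, h⟩
          · exact Or.inl ⟨hx, h⟩
        · rintro (h | h)
          · exact h.1
          · exact h.1
      · intro x hx hx'
        exact hx.2 hx'.2
    have hQP : ∀ x ∈ Q, x ∈ P := fun x hx => hx.1
    have hQfin : Q.Finite := hfin.subset hQP
    have hlt : Q.ncard < n := by
      rw [← hn]
      apply Set.ncard_lt_ncard _ hfin
      refine ⟨hQP, fun h => ?_⟩
      exact (h hx0).2 rfl
    have hsqQ : Sq0 D Q := by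
      apply sq0_sub hQP _ hsq
      intro x hx y hy hyQ
      apply hcl x hx y
      refine ⟨hy, ?_⟩
      by_contra hne
      exact hyQ ⟨hy, hne⟩
    have hAQ : Acyc D Q := by
      apply ih _ hlt Q hQfin rfl (fun x hx y hy => hmono x hx.1 y hy.1) hsqQ
      intro j
      by_cases hj : j = κ x0
      · apply acyc_empty
        rintro x ⟨hx, hxj⟩
        exact hx.2 (hxj.trans hj)
      · have : {x | x ∈ Q ∧ κ x = j} = {x | x ∈ P ∧ κ x = j} := by
          ext x
          constructor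
          · rintro ⟨hx, hxj⟩
            exact ⟨hx.1, hxj⟩
          · rintro ⟨hx, hxj⟩
            exact ⟨⟨hx, fun h => hj (hxj.symm.trans h)⟩, hxj⟩
        rw [this]
        exact hp j
    exact hsplit.acyc hAQ (hp (κ x0))
  · apply acyc_empty
    intro x hx
    exact hemp ⟨x, hx⟩

/-- filtration lemma, torsion-free version: all pieces but one are acyclic, that one is
torsion-free -/
theorem filt_tf {J : Type} {D : (I →₀ ℤ) →ₗ[ℤ] (I →₀ ℤ)} (κ : I → J) (ht : J → ℕ) (j0 : J) (n : ℕ) :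
    ∀ (P : Set I), P.Finite → P.ncard = n →
    (∀ x ∈ P, ∀ y ∈ P, D (Finsupp.single x 1) y ≠ 0 → κ y = κ x ∨ ht (κ y) < ht (κ x)) →
    Sq0 D P → (∀ j, j ≠ j0 → Acyc D {x | x ∈ P ∧ κ x = j}) → TF D {x | x ∈ P ∧ κ x = j0} →
    TF D P := by
  induction n using Nat.strong_induction_on with
  | _ n ih =>
  intro P hfin hn hmono hsq hp hp0
  by_cases hemp : P.Nonempty
  · obtain ⟨x0, hx0, hmax⟩ := Set.exists_max_image P (fun x => ht (κ x)) hfin hemp
    set R : Set I := {x | x ∈ P ∧ κ x = κ x0} with hR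
    set Q : Set I := {x | x ∈ P ∧ κ x ≠ κ x0} with hQ
    have hcl : ∀ x ∈ Q, ∀ y ∈ R, D (Finsupp.single x 1) y = 0 := by
      intro x hx y hy
      by_contra hne
      rcases hmono x hx.1 y hy.1 hne with h | h
      · exact hx.2 (by rw [← h, hy.2])
      · have := hmax x hx.1
        rw [hy.2] at h
        omega
    have hsplit : Split D (pr P) (pr Q) (pr R) := by
      apply split_of_union _ _ hcl hsq
      · intro x
        constructor
        · intro hx
          by_cases h : κ x = κ x0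
          · exact Or.inr ⟨hx, h⟩
          · exact Or.inl ⟨hx, h⟩
        · rintro (h | h)
          · exact h.1
          · exact h.1
      · intro x hx hx'
        exact hx.2 hx'.2
    have hQP : ∀ x ∈ Q, x ∈ P := fun x hx => hx.1
    have hQfin : Q.Finite := hfin.subset hQP
    have hlt : Q.ncard < n := by
      rw [← hn]
      apply Set.ncard_lt_ncard _ hfin
      refine ⟨hQP, fun h => ?_⟩
      exact (h hx0).2 rfl
    have hsqQ : Sq0 D Q := by
      apply sq0_sub hQP _ hsq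
      intro x hx y hy hyQ
      apply hcl x hx y
      refine ⟨hy, ?_⟩
      by_contra hne
      exact hyQ ⟨hy, hne⟩
    have hpiece : ∀ j, j ≠ κ x0 → {x | x ∈ Q ∧ κ x = j} = {x | x ∈ P ∧ κ x = j} := by
      intro j hj
      ext x
      constructor
      · rintro ⟨hx, hxj⟩
        exact ⟨hx.1, hxj⟩
      · rintro ⟨hx, hxj⟩
        exact ⟨⟨hx, fun h => hj (hxj.symm.trans h)⟩, hxj⟩
    by_cases hj0 : κ x0 = j0
    · have hAQ : Acyc D Q := by
        apply filt_acyc κ ht _ Q hQfin rfl (fun x hx y hy => hmono x hx.1 y hy.1) hsqQ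
        intro j
        by_cases hj : j = κ x0
        · apply acyc_empty
          rintro x ⟨hx, hxj⟩
          exact hx.2 (hxj.trans hj)
        · rw [hpiece j hj]
          exact hp j (fun h => hj (h.trans hj0.symm))
      have hR' : TF D R := by
        have : R = {x | x ∈ P ∧ κ x = j0} := by rw [hR, hj0]
        rw [this]
        exact hp0
      exact hsplit.tf_of_acyc_q hAQ hR'
    · have hTQ : TF D Q := by
        apply ih _ hlt Q hQfin rfl (fun x hx y hy => hmono x hx.1 y hy.1) hsqQ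
        · intro j hj
          by_cases hj' : j = κ x0
          · apply acyc_empty
            rintro x ⟨hx, hxj⟩
            exact hx.2 (hxj.trans hj')
          · rw [hpiece j hj']
            exact hp j hj
        · rw [hpiece j0 (fun h => hj0 h.symm)]
          exact hp0
      exact hsplit.tf_of_acyc_r hTQ (hp _ hj0)
  · apply Acyc.tf
    apply acyc_empty
    intro x hx
    exact hemp ⟨x, hx⟩

/-- direct sum lemma -/
theorem sum_tf {J : Type} {D : (I →₀ ℤ) →ₗ[ℤ] (I →₀ ℤ)} (κ : I → J) (n : ℕ) :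
    ∀ (P : Set I), P.Finite → P.ncard = n →
    (∀ x ∈ P, ∀ y ∈ P, D (Finsupp.single x 1) y ≠ 0 → κ y = κ x) →
    Sq0 D P → (∀ j, TF D {x | x ∈ P ∧ κ x = j}) → TF D P := by
  induction n using Nat.strong_induction_on with
  | _ n ih =>
  intro P hfin hn hmono hsq hp
  by_cases hemp : P.Nonempty
  · obtain ⟨x0, hx0⟩ := hemp
    set R : Set I := {x | x ∈ P ∧ κ x = κ x0} with hR
    set Q : Set I := {x | x ∈ P ∧ κ x ≠ κ x0} with hQ
    have hcl : ∀ x ∈ Q, ∀ y ∈ R, D (Finsupp.single x 1) y = 0 := by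
      intro x hx y hy
      by_contra hne
      exact hx.2 (by rw [← hmono x hx.1 y hy.1 hne, hy.2])
    have hcl2 : ∀ x ∈ R, ∀ y ∈ Q, D (Finsupp.single x 1) y = 0 := by
      intro x hx y hy
      by_contra hne
      exact hy.2 (by rw [hmono x hx.1 y hy.1 hne, hx.2])
    have hsplit : Split D (pr P) (pr Q) (pr R) := by
      apply split_of_union _ _ hcl hsq
      · intro x
        constructor
        · intro hx
          by_cases h : κ x = κ x0
          · exact Or.inr ⟨hx, h⟩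
          · exact Or.inl ⟨hx, h⟩
        · rintro (h | h)
          · exact h.1
          · exact h.1
      · intro x hx hx'
        exact hx.2 hx'.2
    have hQP : ∀ x ∈ Q, x ∈ P := fun x hx => hx.1
    have hQfin : Q.Finite := hfin.subset hQP
    have hlt : Q.ncard < n := by
      rw [← hn]
      apply Set.ncard_lt_ncard _ hfin
      refine ⟨hQP, fun h => ?_⟩
      exact (h hx0).2 rfl
    have hsqQ : Sq0 D Q := by
      apply sq0_sub hQP _ hsq
      intro x hx y hy hyQ
      apply hcl x hx y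
      refine ⟨hy, ?_⟩
      by_contra hne
      exact hyQ ⟨hy, hne⟩
    have hpiece : ∀ j, j ≠ κ x0 → {x | x ∈ Q ∧ κ x = j} = {x | x ∈ P ∧ κ x = j} := by
      intro j hj
      ext x
      constructor
      · rintro ⟨hx, hxj⟩
        exact ⟨hx.1, hxj⟩
      · rintro ⟨hx, hxj⟩
        exact ⟨⟨hx, fun h => hj (hxj.symm.trans h)⟩, hxj⟩
    have hTQ : TF D Q := by
      apply ih _ hlt Q hQfin rfl (fun x hx y hy => hmono x hx.1 y hy.1) hsqQ
      intro j
      by_cases hj' : j = κ x0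
      · apply Acyc.tf
        apply acyc_empty
        rintro x ⟨hx, hxj⟩
        exact hx.2 (hxj.trans hj')
      · rw [hpiece j hj']
        exact hp j
    exact hsplit.tf_of_tf_tf (fun z => closed_of_coeff hcl2 _ (pr_idem R z)) hTQ (hp _)
  · apply Acyc.tf
    apply acyc_empty
    intro x hx
    exact hemp ⟨x, hx⟩

end concrete

section transfer

variable {I I' : Type} {D : (I →₀ ℤ) →ₗ[ℤ] (I →₀ ℤ)} {D' : (I' →₀ ℤ) →ₗ[ℤ] (I' →₀ ℤ)}
  {P : Set I} {P' : Set I'}

theorem push_pr {e : I' → I} (he : Set.MapsTo e P' P) (z : I' →₀ ℤ) (hz : pr P' z = z) :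
    pr P (Finsupp.lmapDomain ℤ ℤ e z) = Finsupp.lmapDomain ℤ ℤ e z := by
  refine lin_ext_on ((pr P) ∘ₗ (Finsupp.lmapDomain ℤ ℤ e)) (Finsupp.lmapDomain ℤ ℤ e)
    (P := P') (fun x hx => ?_) z hz
  rw [LinearMap.comp_apply, Finsupp.lmapDomain_apply, Finsupp.mapDomain_single,
    pr_single_mem (he hx)]

theorem push_apply {e : I' → I} (he : Set.InjOn e P') (z : I' →₀ ℤ) (hz : pr P' z = z)
    {x : I'} (hx : x ∈ P') : Finsupp.lmapDomain ℤ ℤ e z (e x) = z x := by
  rw [Finsupp.lmapDomain_apply]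
  apply Finsupp.mapDomain_apply' P' z _ he hx
  intro y hy
  by_contra hne
  exact (Finsupp.mem_support_iff.1 hy) (pr_eq_self_iff.1 hz y hne)

theorem push_inj {e : I' → I} (he : Set.InjOn e P') (z : I' →₀ ℤ) (hz : pr P' z = z)
    (h0 : Finsupp.lmapDomain ℤ ℤ e z = 0) : z = 0 := by
  ext x
  by_cases hx : x ∈ P'
  · rw [← push_apply he z hz hx, h0, Finsupp.zero_apply, Finsupp.zero_apply]
  · rw [pr_eq_self_iff.1 hz x hx, Finsupp.zero_apply]

theorem push_surj {e : I' → I} (he : Set.SurjOn e P' P) (z : I →₀ ℤ) (hz : pr P z = z) :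
    ∃ z', pr P' z' = z' ∧ Finsupp.lmapDomain ℤ ℤ e z' = z := by
  classical
  have hz' := pr_eq_self_iff.1 hz
  choose g hg using he
  refine ⟨z.sum (fun x a => if hx : x ∈ P then Finsupp.single (g hx) a else 0), ?_, ?_⟩
  · rw [Finsupp.sum, map_sum]
    apply Finset.sum_congr rfl
    intro x _
    by_cases hx : x ∈ P
    · rw [dif_pos hx, pr_single_mem (hg hx).1]
    · rw [dif_neg hx, map_zero]
  · rw [Finsupp.sum, map_sum]
    conv_rhs => rw [← Finsupp.sum_single z, Finsupp.sum]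
    apply Finset.sum_congr rfl
    intro x hxs
    by_cases hx : x ∈ P
    · rw [dif_pos hx, Finsupp.lmapDomain_apply, Finsupp.mapDomain_single, (hg hx).2]
    · exact absurd (hz' x hx) (Finsupp.mem_support_iff.1 hxs)

theorem push_D {e : I' → I} (he : Set.BijOn e P' P) (s : ℤ)
    (hD : ∀ x ∈ P', ∀ y ∈ P', D (Finsupp.single (e x) 1) (e y) = s * D' (Finsupp.single x 1) y)
    (z : I' →₀ ℤ) (hz : pr P' z = z) :
    pr P (D (Finsupp.lmapDomain ℤ ℤ e z)) = s • Finsupp.lmapDomain ℤ ℤ e (pr P' (D' z)) := by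
  refine lin_ext_on ((pr P) ∘ₗ D ∘ₗ (Finsupp.lmapDomain ℤ ℤ e))
    (s • ((Finsupp.lmapDomain ℤ ℤ e) ∘ₗ (pr P') ∘ₗ D')) (P := P') (fun x hx => ?_) z hz
  rw [LinearMap.comp_apply, LinearMap.comp_apply, Finsupp.lmapDomain_apply,
    Finsupp.mapDomain_single, LinearMap.smul_apply, LinearMap.comp_apply, LinearMap.comp_apply]
  ext y
  rw [Finsupp.smul_apply]
  by_cases hy : y ∈ P
  · obtain ⟨y', hy', rfl⟩ := he.surjOn hy
    rw [pr_apply_mem hy, push_apply he.injOn _ (pr_idem _ _) hy', pr_apply_mem hy', hD x hx y' hy',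
      smul_eq_mul]
  · rw [pr_apply_not_mem hy, ← push_pr he.mapsTo _ (pr_idem _ _), pr_apply_not_mem hy, smul_zero]

theorem transfer_acyc {e : I' → I} (he : Set.BijOn e P' P) {s : ℤ} (hs : s * s = 1)
    (hD : ∀ x ∈ P', ∀ y ∈ P', D (Finsupp.single (e x) 1) (e y) = s * D' (Finsupp.single x 1) y)
    (h : Acyc D' P') : Acyc D P := by
  intro z hz hdz
  obtain ⟨z', hz', rfl⟩ := push_surj he.surjOn z hz
  rw [push_D he s hD z' hz'] at hdz
  have h1 : Finsupp.lmapDomain ℤ ℤ e (pr P' (D' z')) = 0 := by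
    have : (s * s) • Finsupp.lmapDomain ℤ ℤ e (pr P' (D' z')) = 0 := by
      rw [mul_smul, hdz, smul_zero]
    rwa [hs, one_smul] at this
  have h2 := push_inj he.injOn _ (pr_idem _ _) h1
  obtain ⟨w', hw', hw2⟩ := h z' hz' h2
  refine ⟨s • Finsupp.lmapDomain ℤ ℤ e w', ?_, ?_⟩
  · rw [map_smul, push_pr he.mapsTo w' hw']
  · rw [map_smul, map_smul, push_D he s hD w' hw', smul_smul, hs, one_smul, hw2]

theorem transfer_tf {e : I' → I} (he : Set.BijOn e P' P) {s : ℤ} (hs : s * s = 1)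
    (hD : ∀ x ∈ P', ∀ y ∈ P', D (Finsupp.single (e x) 1) (e y) = s * D' (Finsupp.single x 1) y)
    (h : TF D' P') : TF D P := by
  intro z hz hdz n hn w hw hwz
  obtain ⟨z', hz', rfl⟩ := push_surj he.surjOn z hz
  obtain ⟨w', hw', rfl⟩ := push_surj he.surjOn w hw
  rw [push_D he s hD z' hz'] at hdz
  rw [push_D he s hD w' hw'] at hwz
  have hs0 : s ≠ 0 := by
    rintro rfl
    simp at hs
  have h1 : Finsupp.lmapDomain ℤ ℤ e (pr P' (D' z')) = 0 := by
    have : (s * s) • Finsupp.lmapDomain ℤ ℤ e (pr P' (D' z')) = 0 := by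
      rw [mul_smul, hdz, smul_zero]
    rwa [hs, one_smul] at this
  have h2 := push_inj he.injOn _ (pr_idem _ _) h1
  have h3 : pr P' (D' w') = (s * n) • z' := by
    have h4 : Finsupp.lmapDomain ℤ ℤ e (pr P' (D' w') - (s * n) • z') = 0 := by
      rw [map_sub, map_smul, mul_smul, ← hwz, smul_smul, hs, one_smul, sub_self]
    have h5 := push_inj he.injOn (pr P' (D' w') - (s * n) • z')
      (by rw [map_sub, map_smul, pr_idem, hz']) h4
    exact sub_eq_zero.1 h5
  obtain ⟨v, hv, hv2⟩ := h z' hz' h2 (s * n) (mul_ne_zero hs0 hn) w' hw' h3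
  refine ⟨s • Finsupp.lmapDomain ℤ ℤ e v, ?_, ?_⟩
  · rw [map_smul, push_pr he.mapsTo v hv]
  · rw [map_smul, map_smul, push_D he s hD v hv, smul_smul, hs, one_smul, hv2]

end transfer

end Pool.Agent.Work.MP_95f31c_co
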