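import Pool.Agent.Work.MP_95f31c_co.Columns

/-! The total complex and the main induction. -/

namespace Pool.Agent.Work.MP_95f31c_co

variable {ι : Type} [Fintype ι] [DecidableEq ι]

/-- chains of the total complex -/
abbrev TC (ι : Type) := ((ι → SignType) × List (ι → SignType)) →₀ ℤ

/-- embedding of list chains with fixed cell -/
noncomputable def emb (F : ι → SignType) : Ch ι →ₗ[ℤ] TC ι :=
  Finsupp.lmapDomain ℤ ℤ (fun l => (F, l))

omit [Fintype ι] [DecidableEq ι] in
theorem emb_single (F : ι → SignType) (l : List (ι → SignType)) (n : ℤ) :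
    emb F (Finsupp.single l n) = Finsupp.single (F, l) n := by
  rw [emb, Finsupp.lmapDomain_apply, Finsupp.mapDomain_single]

omit [Fintype ι] [DecidableEq ι] in
theorem emb_apply_self (F : ι → SignType) (z : Ch ι) (l : List (ι → SignType)) :
    emb F z (F, l) = z l := by
  rw [emb, Finsupp.lmapDomain_apply]
  exact Finsupp.mapDomain_apply (fun l m h => (Prod.mk.inj h).2) z l

omit [Fintype ι] [DecidableEq ι] in
theorem emb_apply_ne {F G : ι → SignType} (h : G ≠ F) (z : Ch ι) (l : List (ι → SignType)) :
    emb F z (G, l) = 0 := by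
  rw [emb, Finsupp.lmapDomain_apply]
  apply Finsupp.mapDomain_of_notMem_range
  rintro ⟨m, hm⟩
  exact h (Prod.mk.inj hm).1.symm

open Classical in
/-- incidence numbers restricted to faces of `a` -/
noncomputable def incA (S : CellSystem ι) (a F G : ι → SignType) : ℤ :=
  if Face G a then S.inc F G else 0

/-- total differential on basis elements -/
noncomputable def tB (S : CellSystem ι) (a : ι → SignType)
    (p : (ι → SignType) × List (ι → SignType)) : TC ι :=
  (∑ G, incA S a p.1 G • Finsupp.single (G, p.2) (1 : ℤ)) + S.par p.1 • emb p.1 (dB a p.2)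

/-- total differential -/
noncomputable def tD (S : CellSystem ι) (a : ι → SignType) : TC ι →ₗ[ℤ] TC ι :=
  Finsupp.linearCombination ℤ (tB S a)

theorem tD_single (S : CellSystem ι) (a : ι → SignType)
    (p : (ι → SignType) × List (ι → SignType)) :
    tD S a (Finsupp.single p 1) = tB S a p := by
  rw [tD, Finsupp.linearCombination_single, one_smul]

theorem tD_emb (S : CellSystem ι) (a F : ι → SignType) (z : Ch ι) :
    tD S a (emb F z) = (∑ G, incA S a F G • emb G z) + S.par F • emb F (dL a z) := by
  have h : (tD S a) ∘ₗ (emb F) = (∑ G, incA S a F G • emb G) + S.par F • ((emb F) ∘ₗ (dL a)) := by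
    apply ch_ext
    intro l
    rw [LinearMap.comp_apply, emb_single, tD_single, tB, LinearMap.add_apply,
      LinearMap.sum_apply, LinearMap.smul_apply, LinearMap.comp_apply, dL_single]
    congr 1
    apply Finset.sum_congr rfl
    intro G _
    rw [LinearMap.smul_apply, emb_single]
  have h2 := LinearMap.congr_fun h z
  rw [LinearMap.comp_apply] at h2
  rw [h2, LinearMap.add_apply, LinearMap.sum_apply, LinearMap.smul_apply, LinearMap.comp_apply]
  congr 1

theorem incA_sq (S : CellSystem ι) (a F H : ι → SignType) :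
    ∑ G, incA S a F G * incA S a G H = 0 := by
  classical
  by_cases hH : Face H a
  · rw [← S.sq F H]
    apply Finset.sum_congr rfl
    intro G _
    by_cases h0 : S.inc G H = 0
    · rw [incA, incA, if_pos hH, h0, mul_zero, mul_zero]
    · have hf := (S.inc_mem _ _ h0).2.2.1
      rw [incA, incA, if_pos hH, if_pos (hf.trans hH)]
  · apply Finset.sum_eq_zero
    intro G _
    rw [incA, incA, if_neg hH, mul_zero]

theorem incA_par (S : CellSystem ι) (a F G : ι → SignType) :
    incA S a F G * S.par G + S.par F * incA S a F G = 0 := by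
  classical
  by_cases h : incA S a F G = 0
  · rw [h, zero_mul, mul_zero, add_zero]
  · have h1 : S.inc F G ≠ 0 := by
      intro h0
      apply h
      rw [incA, h0, ite_self]
    rw [S.inc_par _ _ h1]
    ring

theorem tD_tD (S : CellSystem ι) (a : ι → SignType) (z : TC ι) : tD S a (tD S a z) = 0 := by
  have h : (tD S a) ∘ₗ (tD S a) = 0 := by
    apply Finsupp.lhom_ext'
    rintro ⟨F, l⟩
    apply LinearMap.ext_ring
    rw [LinearMap.comp_apply, LinearMap.comp_apply, Finsupp.lsingle_apply]
    simp only [LinearMap.zero_comp, LinearMap.zero_apply]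
    rw [← emb_single, tD_emb, map_add, map_sum, map_smul, tD_emb, dL_dL, map_zero, smul_zero,
      add_zero]
    have e1 : ∀ G, tD S a (incA S a F G • emb G (Finsupp.single l 1)) =
        (∑ H, (incA S a F G * incA S a G H) • emb H (Finsupp.single l 1)) +
        (incA S a F G * S.par G) • emb G (dL a (Finsupp.single l 1)) := by
      intro G
      rw [map_smul, tD_emb, smul_add, Finset.smul_sum]
      congr 1
      · apply Finset.sum_congr rfl
        intro H _
        rw [smul_smul]
      · rw [smul_smul]
    simp_rw [e1]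
    rw [Finset.sum_add_distrib, Finset.sum_comm]
    have e2 : ∑ H, ∑ G, (incA S a F G * incA S a G H) • emb H (Finsupp.single l (1 : ℤ)) = 0 := by
      apply Finset.sum_eq_zero
      intro H _
      rw [← Finset.sum_smul, incA_sq, zero_smul]
    rw [e2, zero_add, Finset.smul_sum, ← Finset.sum_add_distrib]
    apply Finset.sum_eq_zero
    intro G _
    rw [smul_smul, ← add_smul, incA_par, zero_smul]
  exact LinearMap.congr_fun h z

theorem tB_apply_cases (S : CellSystem ι) (a F G : ι → SignType) (l m : List (ι → SignType))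
    (h : tB S a (F, l) (G, m) ≠ 0) :
    (m = l ∧ Face G a ∧ S.inc F G ≠ 0) ∨ (G = F ∧ dB a l m ≠ 0) := by
  classical
  by_contra hcon
  push Not at hcon
  apply h
  rw [tB, Finsupp.add_apply, Finsupp.finsetSum_apply]
  have h1 : ∀ H ∈ Finset.univ, (incA S a F H • Finsupp.single (H, l) (1 : ℤ)) (G, m) = 0 := by
    intro H _
    rw [Finsupp.smul_apply, Finsupp.single_apply]
    by_cases he : (H, l) = (G, m)
    · rw [if_pos he]
      obtain ⟨rfl, rfl⟩ := Prod.mk.inj he
      by_cases hf : Face H a
      · rw [incA, if_pos hf, hcon.1 rfl hf, zero_smul]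
      · rw [incA, if_neg hf, zero_smul]
    · rw [if_neg he, smul_zero]
  rw [Finset.sum_eq_zero h1, zero_add, Finsupp.smul_apply]
  by_cases hGF : G = F
  · subst hGF
    rw [emb_apply_self, hcon.2 rfl, smul_zero]
  · rw [emb_apply_ne hGF, smul_zero]

theorem tB_same_list (S : CellSystem ι) (a F G : ι → SignType) (l : List (ι → SignType))
    (hG : Face G a) (hl : dB a l l = 0) :
    tB S a (F, l) (G, l) = S.inc F G := by
  classical
  rw [tB, Finsupp.add_apply, Finsupp.finsetSum_apply, Finset.sum_eq_single G]
  · rw [Finsupp.smul_apply, Finsupp.single_apply, if_pos rfl, incA, if_pos hG, smul_eq_mul,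
      mul_one, Finsupp.smul_apply]
    by_cases hGF : G = F
    · subst hGF
      rw [emb_apply_self, hl, smul_zero, add_zero]
    · rw [emb_apply_ne hGF, smul_zero, add_zero]
  · intro H _ hne
    rw [Finsupp.smul_apply, Finsupp.single_apply, if_neg, smul_zero]
    intro he
    exact hne (Prod.mk.inj he).1
  · intro h
    exact absurd (Finset.mem_univ G) h

theorem inc_self (S : CellSystem ι) (F : ι → SignType) : S.inc F F = 0 := by
  by_contra h0
  exact (S.inc_mem _ _ h0).2.2.2 rfl

theorem tB_same_cell (S : CellSystem ι) (a F : ι → SignType) (l m : List (ι → SignType)) :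
    tB S a (F, l) (F, m) = S.par F * dB a l m := by
  classical
  rw [tB, Finsupp.add_apply, Finsupp.finsetSum_apply, Finset.sum_eq_zero, zero_add,
    Finsupp.smul_apply, emb_apply_self, smul_eq_mul]
  intro H _
  rw [Finsupp.smul_apply, Finsupp.single_apply]
  by_cases he : (H, l) = (F, m)
  · obtain ⟨rfl, rfl⟩ := Prod.mk.inj he
    rw [incA, inc_self, ite_self, zero_smul]
  · rw [if_neg he, smul_zero]

/-- the topes -/
def topes (S : CellSystem ι) : Set (ι → SignType) := {x | x ∈ S.cells ∧ ∀ i, x i ≠ 0}

/-- the index set of the total complex -/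
def PP (S : CellSystem ι) (a : ι → SignType) (c : ι → ℕ) :
    Set ((ι → SignType) × List (ι → SignType)) :=
  {p | p.1 ∈ S.cells ∧ Face p.1 a ∧ p.2 ∈ Col (topes S) p.1 a c}

theorem dB_ne {T : Set (ι → SignType)} {a : ι → SignType} {l m : List (ι → SignType)}
    (hl : Vld T a l) (h : dB a l m ≠ 0) : Vld T a m ∧ mdeg a m = mdeg a l ∧ m.length < l.length := by
  by_contra hcon
  exact h (pr_eq_self_iff.1 (dB_supp T l a hl) m hcon)

theorem dB_ne_hd {F a : ι → SignType} {l m : List (ι → SignType)}
    (hl : Hd F a l) (h : dB a l m ≠ 0) : Hd F a m := by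
  by_contra hcon
  exact h (pr_eq_self_iff.1 (dB_hd F l a hl) m hcon)

theorem PP_closed (S : CellSystem ι) (a : ι → SignType) (c : ι → ℕ) {p q}
    (hp : p ∈ PP S a c) (h : tD S a (Finsupp.single p 1) q ≠ 0) : q ∈ PP S a c := by
  obtain ⟨F, l⟩ := p
  obtain ⟨G, m⟩ := q
  rw [tD_single] at h
  obtain ⟨h1, h2, h3, h4⟩ := hp
  rcases tB_apply_cases S a F G l m h with ⟨rfl, hG, hinc⟩ | ⟨rfl, hd⟩
  · obtain ⟨_, hGc, hf, _⟩ := S.inc_mem _ _ hinc
    refine ⟨hGc, hG, h3, ?_⟩
    simp only at h4 ⊢
    cases m with
    | nil => exact h4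
    | cons x t =>
      intro i hi
      exact h4 i (hf.zero hi)
  · obtain ⟨h5, h6, _⟩ := dB_ne h3.1 hd
    exact ⟨h1, h2, ⟨h5, h6.trans h3.2⟩, dB_ne_hd h4 hd⟩

theorem inc_of_tope (S : CellSystem ι) {a G : ι → SignType} (ha : ∀ i, a i ≠ 0) :
    S.inc a G = 0 := by
  by_contra h0
  obtain ⟨_, _, hf, hne⟩ := S.inc_mem _ _ h0
  apply hne
  funext i
  rcases hf i with h | h
  · exact absurd h (ha i)
  · exact h

omit [DecidableEq ι] in
theorem length_le (T : Set (ι → SignType)) (l : List (ι → SignType)) : ∀ a, Vld T a l →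
    l.length ≤ ∑ i, mdeg a l i := by
  classical
  induction l with
  | nil => intro a _; simp
  | cons x l ih =>
    intro a hv
    obtain ⟨_, hxa, hxl⟩ := hv
    have h1 := ih x hxl
    have h2 : 1 ≤ ∑ i, sv a x i := by
      obtain ⟨i, hi⟩ := Function.ne_iff.1 hxa
      calc 1 = sv a x i := by rw [sv, if_pos hi]
        _ ≤ ∑ i, sv a x i := Finset.single_le_sum (f := fun i => sv a x i)
            (fun _ _ => Nat.zero_le _) (Finset.mem_univ i)
    simp only [mdeg, Pi.add_apply, Finset.sum_add_distrib, List.length_cons]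
    omega

theorem XX_finite (T : Set (ι → SignType)) (a : ι → SignType) (c : ι → ℕ) :
    (XX T a c).Finite := by
  apply (List.finite_length_le (ι → SignType) (∑ i, c i)).subset
  rintro l ⟨h1, h2⟩
  have := length_le T l a h1
  rw [h2] at this
  exact this

theorem PP_finite (S : CellSystem ι) (a : ι → SignType) (c : ι → ℕ) : (PP S a c).Finite := by
  apply ((Set.finite_univ (α := ι → SignType)).prod (XX_finite (topes S) a c)).subset
  rintro ⟨F, l⟩ ⟨_, _, h, _⟩
  exact ⟨Set.mem_univ _, h⟩

theorem sq0_PP (S : CellSystem ι) (a : ι → SignType) (c : ι → ℕ) : Sq0 (tD S a) (PP S a c) :=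
  sq0_of_convex (tD_tD S a) (fun _ hx _ _ _ hxy _ => PP_closed S a c hx hxy)

theorem acyc_PP (S : CellSystem ι) {a : ι → SignType} (ha : a ∈ topes S) (c : ι → ℕ) :
    Acyc (tD S a) (PP S a c) := by
  apply filt_acyc (fun p => p.2) List.length _ (PP S a c) (PP_finite S a c) rfl _ (sq0_PP S a c)
  · intro l
    cases l with
    | nil =>
      apply acyc_empty
      rintro ⟨F, l⟩ ⟨⟨_, _, _, h⟩, hl⟩
      simp only at hl h
      rw [hl] at h
      exact h
    | cons x t =>
      by_cases hl : (x :: t) ∈ XX (topes S) a c
      · have hxT : x ∈ topes S := hl.1.1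
        have hxa : x ≠ a := hl.1.2.1
        have hbij : Set.BijOn (fun F => (F, x :: t)) (rowSet S a x)
            {p | p ∈ PP S a c ∧ p.2 = x :: t} := by
          refine ⟨?_, ?_, ?_⟩
          · rintro F ⟨h1, h2, h3⟩
            refine ⟨⟨h1, h2, hl, ?_⟩, rfl⟩
            intro i hi h
            exact h3 i hi (ha.2 i) h.symm
          · intro F _ G _ h
            exact (Prod.mk.inj h).1
          · rintro ⟨F, l⟩ ⟨⟨h1, h2, h3, h4⟩, h5⟩
            simp only at h1 h2 h3 h4 h5
            subst h5
            refine ⟨F, ⟨h1, h2, fun i hi _ h => ?_⟩, rfl⟩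
            exact h4 i hi h.symm
        have hrow : Acyc (dInc S) (rowSet S a x) := by
          apply row_acyc S _ a ha.1 x hxT.1 _ (fun h => hxa h.symm) rfl
          ext i
          rw [mem_zs, mem_zs]
          constructor
          · intro h
            exact absurd h (ha.2 i)
          · intro h
            exact absurd h (hxT.2 i)
        apply transfer_acyc hbij (s := 1) (by norm_num) _ hrow
        intro F hF G hG
        rw [tD_single, dInc_single_apply, one_mul, tB_same_list S a F G _ hG.2.1]
        by_contra h0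
        have := (dB_ne hl.1 h0).2.2
        omega
      · apply acyc_empty
        rintro ⟨F, l⟩ ⟨⟨_, _, h, _⟩, hl'⟩
        simp only at hl' h
        rw [hl'] at h
        exact hl h
  · rintro ⟨F, l⟩ hx ⟨G, m⟩ hy h
    rw [tD_single] at h
    rcases tB_apply_cases S a F G l m h with ⟨h1, _, _⟩ | ⟨_, hd⟩
    · exact Or.inl h1
    · exact Or.inr (dB_ne hx.2.2.1.1 hd).2.2

theorem face_eq_of_zs {F G a : ι → SignType} (hF : Face F a) (hG : Face G a)
    (h : ∀ i, F i = 0 ↔ G i = 0) : F = G := by
  funext i
  by_cases h0 : F i = 0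
  · rw [h0, (h i).1 h0]
  · have h1 : G i ≠ 0 := fun h1 => h0 ((h i).2 h1)
    rcases hF i with h2 | h2
    · exact absurd h2 h0
    · rcases hG i with h3 | h3
      · exact absurd h3 h1
      · rw [h2, h3]

theorem main_tf (S : CellSystem ι) (n : ℕ) : ∀ (c : ι → ℕ), (∑ i, c i) = n → ∀ a ∈ topes S,
    TF (dL a) (XX (topes S) a c) := by
  classical
  induction n using Nat.strong_induction_on with
  | _ n ih =>
  intro c hc a ha
  have hTne : ∀ x ∈ topes S, ∀ i, x i ≠ 0 := fun x hx => hx.2
  by_cases hc0 : c = 0
  · -- only the empty list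
    have hX : ∀ l ∈ XX (topes S) a c, dB a l = 0 := by
      intro l hl
      cases l with
      | nil => rw [dB]
      | cons x t =>
        exfalso
        have h1 := length_le (topes S) _ a hl.1
        rw [hl.2, hc0] at h1
        simp at h1
    have hD : ∀ w : Ch ι, pr (XX (topes S) a c) w = w → dL a w = 0 := by
      intro w hw
      have := lin_ext_on (dL a) 0 (P := XX (topes S) a c) (fun l hl => by
        rw [dL_single, hX l hl, LinearMap.zero_apply]) w hw
      rw [this, LinearMap.zero_apply]
    intro z hz _ k hk w hw hwz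
    rw [hD w hw, map_zero] at hwz
    refine ⟨0, by rw [map_zero], ?_⟩
    rw [map_zero, map_zero]
    have := smul_eq_zero.1 hwz.symm
    rcases this with h | h
    · exact absurd h hk
    · exact h.symm
  · -- the double complex
    set Q : Set ((ι → SignType) × List (ι → SignType)) := {p | p ∈ PP S a c ∧ p.1 = a} with hQ
    set R : Set ((ι → SignType) × List (ι → SignType)) := {p | p ∈ PP S a c ∧ p.1 ≠ a} with hR
    have hainc : ∀ G, S.inc a G = 0 := fun G => inc_of_tope S ha.2
    have hsplit : Split (tD S a) (pr (PP S a c)) (pr Q) (pr R) := by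
      apply split_of_union _ _ _ (sq0_PP S a c)
      · intro p
        constructor
        · intro hp
          by_cases h : p.1 = a
          · exact Or.inl ⟨hp, h⟩
          · exact Or.inr ⟨hp, h⟩
        · rintro (h | h)
          · exact h.1
          · exact h.1
      · intro p hp hp'
        exact hp'.2 hp.2
      · rintro ⟨F, l⟩ hp ⟨G, m⟩ hq
        by_contra h
        rw [tD_single] at h
        have hF : F = a := hp.2
        rcases tB_apply_cases S a F G l m h with ⟨_, _, h3⟩ | ⟨h3, _⟩
        · rw [hF] at h3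
          exact h3 (hainc G)
        · exact hq.2 (h3.trans hF)
    have hsqR : Sq0 (tD S a) R := by
      apply sq0_of_convex (tD_tD S a)
      rintro x hx ⟨G, m⟩ ⟨H, k⟩ hz hxy hyz
      refine ⟨PP_closed S a c hx.1 hxy, ?_⟩
      intro hG
      simp only at hG
      rw [tD_single] at hyz
      rcases tB_apply_cases S a G H m k hyz with ⟨_, _, h3⟩ | ⟨h3, _⟩
      · rw [hG] at h3
        exact h3 (hainc H)
      · exact hz.2 (h3.trans hG)
    have hRfin : R.Finite := (PP_finite S a c).subset (fun x hx => hx.1)
    have hRmono : ∀ x ∈ R, ∀ y ∈ R, tD S a (Finsupp.single x 1) y ≠ 0 →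
        y.1 = x.1 ∨ (zs y.1).card < (zs x.1).card := by
      rintro ⟨F, l⟩ hx ⟨G, m⟩ hy h
      rw [tD_single] at h
      rcases tB_apply_cases S a F G l m h with ⟨_, _, h3⟩ | ⟨h3, _⟩
      · right
        obtain ⟨_, _, hf, hne⟩ := S.inc_mem _ _ h3
        apply Finset.card_lt_card
        rw [Finset.ssubset_iff_of_subset]
        · by_contra hcon
          push Not at hcon
          apply hne
          funext i
          rcases hf i with h4 | h4
          · rw [h4]
            exact (mem_zs.1 (hcon i (mem_zs.2 h4))).symm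
          · exact h4
        · intro i hi
          rw [mem_zs] at hi ⊢
          exact hf.zero hi
      · exact Or.inl h3
    -- columns
    have hcolbij : ∀ F ∈ S.cells, Face F a → F ≠ a →
        Set.BijOn (fun l => (F, l)) (Col (topes S) F a c) {x | x ∈ R ∧ x.1 = F} := by
      intro F hF hFa hne
      refine ⟨?_, ?_, ?_⟩
      · intro l hl
        exact ⟨⟨⟨hF, hFa, hl⟩, hne⟩, rfl⟩
      · intro l _ m _ h
        exact (Prod.mk.inj h).2
      · rintro ⟨G, l⟩ ⟨⟨⟨h1, h2, h3⟩, h4⟩, h5⟩
        simp only at h5 h3
        subst h5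
        exact ⟨l, h3, rfl⟩
    have hcolD : ∀ F : ι → SignType, ∀ x ∈ Col (topes S) F a c, ∀ y ∈ Col (topes S) F a c,
        tD S a (Finsupp.single (F, x) 1) (F, y) = S.par F * dL a (Finsupp.single x 1) y := by
      intro F x _ y _
      rw [tD_single, tB_same_cell, dL_single]
    have hempty : ∀ F, ¬ (F ∈ S.cells ∧ Face F a ∧ F ≠ a) → Acyc (tD S a) {x | x ∈ R ∧ x.1 = F} := by
      intro F hF
      apply acyc_empty
      rintro ⟨G, l⟩ ⟨⟨⟨h1, h2, h3⟩, h4⟩, h5⟩
      simp only at h1 h2 h4 h5
      subst h5
      exact hF ⟨h1, h2, h4⟩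
    have hF0 : ∀ F, Face F a → F ≠ a → ∃ i, F i = 0 := by
      intro F hFa hne
      by_contra hcon
      push Not at hcon
      apply hne
      funext i
      rcases hFa i with h | h
      · exact absurd h (hcon i)
      · exact h
    have hacol : ∀ F, (∃ i, c i ≠ 0 ∧ F i ≠ 0) → Acyc (tD S a) {x | x ∈ R ∧ x.1 = F} := by
      intro F hex
      by_cases hF : F ∈ S.cells ∧ Face F a ∧ F ≠ a
      · obtain ⟨h1, h2, h3⟩ := hF
        apply transfer_acyc (hcolbij F h1 h2 h3) (S.par_sq F) (hcolD F)
        apply col_acyc _ h2 (hF0 F h2 h3) hex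
        intro x hx
        refine ⟨S.comp_mem _ h1 _ hx.1, fun i => ?_⟩
        rw [comp]
        by_cases h0 : F i = 0
        · rw [if_pos h0]
          exact hx.2 i
        · rw [if_neg h0]
          exact h0
      · exact hempty F hF
    have htcol : ∀ F, (∀ i, c i ≠ 0 → F i = 0) → TF (tD S a) {x | x ∈ R ∧ x.1 = F} := by
      intro F hsupp
      by_cases hF : F ∈ S.cells ∧ Face F a ∧ F ≠ a
      · obtain ⟨h1, h2, h3⟩ := hF
        apply transfer_tf (hcolbij F h1 h2 h3) (S.par_sq F) (hcolD F)
        apply col_tf hTne h2 ha hsupp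
        intro c' hc'
        have hbT : comp F (-a) ∈ topes S := by
          refine ⟨S.comp_mem _ h1 _ (S.neg_mem _ ha.1), fun i => ?_⟩
          rw [comp]
          by_cases h0 : F i = 0
          · rw [if_pos h0, Pi.neg_apply, Ne, sign_neg_zero]
            exact ha.2 i
          · rw [if_neg h0]
            exact h0
        apply ih (∑ i, c' i) _ c' rfl _ hbT
        rw [← hc, hc']
        simp only [Pi.add_apply, Finset.sum_add_distrib]
        have : 1 ≤ ∑ i, sv a (comp F (-a)) i := by
          obtain ⟨i, hi⟩ := hF0 F h2 h3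
          calc 1 = sv a (comp F (-a)) i := by
                rw [sv, if_pos]
                rw [comp, if_pos hi, Pi.neg_apply]
                exact sign_neg_ne (ha.2 i)
            _ ≤ ∑ i, sv a (comp F (-a)) i := Finset.single_le_sum
                (f := fun i => sv a (comp F (-a)) i) (fun _ _ => Nat.zero_le _) (Finset.mem_univ i)
        omega
      · exact (hempty F hF).tf
    have hTR : TF (tD S a) R := by
      by_cases hex : ∃ F0 ∈ S.cells, Face F0 a ∧ ∀ i, F0 i = 0 ↔ c i ≠ 0
      · obtain ⟨F0, hF0c, hF0a, hF0z⟩ := hex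
        apply filt_tf (fun p => p.1) (fun F => (zs F).card) F0 _ R hRfin rfl hRmono hsqR
        · intro F hne
          by_cases h : ∃ i, c i ≠ 0 ∧ F i ≠ 0
          · exact hacol F h
          · push Not at h
            apply acyc_empty
            rintro ⟨G, l⟩ ⟨⟨⟨h1, h2, h3, h4⟩, h5⟩, h6⟩
            simp only at h1 h2 h3 h4 h5 h6
            subst h6
            apply hne
            apply face_eq_of_zs h2 hF0a
            intro i
            rw [hF0z]
            constructor
            · intro hGi
              cases l with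
              | nil => exact absurd h4 (by simp [Hd])
              | cons x t =>
                have h7 := h4 i hGi
                rw [← h3.2]
                simp only [mdeg, Pi.add_apply]
                rw [sv, if_pos h7]
                omega
            · intro hci
              exact h i hci
        · apply htcol
          intro i hi
          exact (hF0z i).2 hi
      · apply Acyc.tf
        apply filt_acyc (fun p => p.1) (fun F => (zs F).card) _ R hRfin rfl hRmono hsqR
        intro F
        by_cases h : ∃ i, c i ≠ 0 ∧ F i ≠ 0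
        · exact hacol F h
        · push Not at h
          apply acyc_empty
          rintro ⟨G, l⟩ ⟨⟨⟨h1, h2, h3, h4⟩, h5⟩, h6⟩
          simp only at h1 h2 h3 h4 h5 h6
          subst h6
          apply hex
          refine ⟨G, h1, h2, fun i => ⟨fun hGi => ?_, fun hci => h i hci⟩⟩
          cases l with
          | nil => exact absurd h4 (by simp [Hd])
          | cons x t =>
            have h7 := h4 i hGi
            rw [← h3.2]
            simp only [mdeg, Pi.add_apply]
            rw [sv, if_pos h7]
            omega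
    have hTQ : TF (tD S a) Q := hsplit.tf_q_of_acyc (acyc_PP S ha c) hTR
    have hbij : Set.BijOn (fun p : (ι → SignType) × List (ι → SignType) => p.2) Q
        (XX (topes S) a c) := by
      refine ⟨?_, ?_, ?_⟩
      · rintro ⟨F, l⟩ ⟨⟨_, _, h, _⟩, _⟩
        exact h
      · rintro ⟨F, l⟩ h1 ⟨G, m⟩ h2 h3
        have h4 : F = a := h1.2
        have h5 : G = a := h2.2
        simp only at h3
        rw [h3, h4, h5]
      · intro l hl
        refine ⟨(a, l), ⟨⟨ha.1, Face.refl a, hl, ?_⟩, rfl⟩, rfl⟩
        cases l with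
        | nil =>
          exfalso
          apply hc0
          rw [← hl.2]
          rfl
        | cons x t =>
          intro i hi
          exact absurd hi (ha.2 i)
    apply transfer_tf hbij (S.par_sq a) _ hTQ
    rintro ⟨F, l⟩ h1 ⟨G, m⟩ h2
    have h4 : F = a := h1.2
    have h5 : G = a := h2.2
    subst h4
    subst h5
    rw [tD_single, tB_same_cell, dL_single, ← mul_assoc, S.par_sq, one_mul]

end Pool.Agent.Work.MP_95f31c_co
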