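import Pool.Agent.Work.MP_95f31c_co.Defs
import Pool.Agent.Work.MP_95f31c_co.Total

/-! From the list complexes to magnitude homology. -/

namespace Pool.Agent.Work.MP_95f31c_co

variable {ι : Type}

/-- differential on full lists -/
noncomputable def fB : List (ι → SignType) → Ch ι
  | [] => 0
  | a :: l => consL a (dB a l)

/-- differential on full lists, linear extension -/
noncomputable def fD : Ch ι →ₗ[ℤ] Ch ι := Finsupp.linearCombination ℤ (fB)

theorem fD_single (l : List (ι → SignType)) : fD (Finsupp.single l 1) = fB l := by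
  rw [fD, Finsupp.linearCombination_single, one_smul]

theorem fD_consL (a : ι → SignType) (z : Ch ι) : fD (consL a z) = consL a (dL a z) := by
  have h : fD ∘ₗ (consL a) = (consL a) ∘ₗ (dL a) := by
    apply ch_ext
    intro l
    rw [LinearMap.comp_apply, consL_single, fD_single, fB, LinearMap.comp_apply, dL_single]
  exact LinearMap.congr_fun h z

theorem fD_fD (z : Ch ι) : fD (fD z) = 0 := by
  have h : (fD (ι := ι)) ∘ₗ fD = 0 := by
    apply ch_ext
    intro l
    rw [LinearMap.comp_apply, fD_single, LinearMap.zero_apply]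
    cases l with
    | nil => rw [fB, map_zero]
    | cons a l => rw [fB, fD_consL, dL_dB, map_zero]
  exact LinearMap.congr_fun h z

variable [Fintype ι]

/-- full walks in the set of topes with total length `n` -/
def YY (T : Set (ι → SignType)) (n : ℕ) : Set (List (ι → SignType))
  | [] => False
  | a :: l => a ∈ T ∧ Vld T a l ∧ ∑ i, mdeg a l i = n

theorem YY_closed (T : Set (ι → SignType)) (n : ℕ) (x : List (ι → SignType)) (hx : x ∈ YY T n)
    (y : List (ι → SignType)) (h : fD (Finsupp.single x 1) y ≠ 0) :
    y ∈ YY T n ∧ y.length < x.length := by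
  cases x with
  | nil => exact absurd hx (fun h => h)
  | cons a l =>
    obtain ⟨haT, hv, hs⟩ := hx
    have h1 := dB_supp T l a hv
    rw [fD_single, fB] at h
    have h2 := pr_consL (P := {m | Vld T a m ∧ mdeg a m = mdeg a l ∧ m.length < l.length})
      (Q := {y | y ∈ YY T n ∧ y.length < (a :: l).length}) (x := a) (by
        rintro m ⟨h3, h4, h5⟩
        refine ⟨⟨haT, h3, ?_⟩, ?_⟩
        · rw [h4, hs]
        · simpa using h5) _ h1
    by_contra hcon
    exact h (pr_eq_self_iff.1 h2 y hcon)

theorem YY_sq0 (T : Set (ι → SignType)) (n : ℕ) : Sq0 fD (YY T n) :=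
  sq0_of_convex fD_fD (fun x hx y _ _ h _ => (YY_closed T n x hx y h).1)

theorem YY_finite (T : Set (ι → SignType)) (n : ℕ) : (YY T n).Finite := by
  apply (List.finite_length_le (ι → SignType) (n + 1)).subset
  intro l hl
  cases l with
  | nil => exact absurd hl (fun h => h)
  | cons a l =>
    obtain ⟨_, h1, h2⟩ := hl
    have := length_le T l a h1
    rw [h2] at this
    show (a :: l).length ≤ n + 1
    simpa using this

/-- label of a full walk -/
noncomputable def lab : List (ι → SignType) → Option ((ι → SignType) × (ι → ℕ))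
  | [] => none
  | a :: l => some (a, mdeg a l)

theorem YY_tf [DecidableEq ι] (S : CellSystem ι) (n : ℕ) : TF fD (YY (topes S) n) := by
  apply sum_tf lab _ (YY (topes S) n) (YY_finite _ n) rfl _ (YY_sq0 _ n)
  · intro j
    by_cases hj : ∃ a c, j = some (a, c) ∧ a ∈ topes S ∧ ∑ i, c i = n
    · obtain ⟨a, c, rfl, ha, hc⟩ := hj
      have hbij : Set.BijOn (fun l => a :: l) (XX (topes S) a c)
          {x | x ∈ YY (topes S) n ∧ lab x = some (a, c)} := by
        refine ⟨?_, ?_, ?_⟩
        · rintro l ⟨h1, h2⟩
          refine ⟨⟨ha, h1, ?_⟩, ?_⟩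
          · rw [h2, hc]
          · rw [lab, h2]
        · intro l _ m _ h
          exact (List.cons.inj h).2
        · rintro x ⟨h1, h2⟩
          cases x with
          | nil => exact absurd h1 (fun h => h)
          | cons b l =>
            rw [lab] at h2
            obtain ⟨rfl, h3⟩ := Prod.mk.inj (Option.some.inj h2)
            exact ⟨l, ⟨h1.2.1, h3⟩, rfl⟩
      apply transfer_tf hbij (s := 1) (by norm_num) _ (main_tf S _ c rfl a ha)
      intro x _ y _
      rw [fD_single, fB, consL_apply_cons, dL_single, one_mul]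
    · apply Acyc.tf
      apply acyc_empty
      rintro x ⟨h1, h2⟩
      apply hj
      cases x with
      | nil => exact absurd h1 (fun h => h)
      | cons a l =>
        exact ⟨a, mdeg a l, h2.symm, h1.1, h1.2.2⟩
  · intro x hx y _ h
    cases x with
    | nil => exact absurd hx (fun h => h)
    | cons a l =>
      obtain ⟨haT, hv, hs⟩ := hx
      have h1 := dB_supp (topes S) l a hv
      rw [fD_single, fB] at h
      have h2 := pr_consL (P := {m | Vld (topes S) a m ∧ mdeg a m = mdeg a l ∧ m.length < l.length})
        (Q := {y | lab y = lab (a :: l)}) (x := a) (by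
          rintro m ⟨h3, h4, h5⟩
          show lab (a :: m) = lab (a :: l)
          rw [lab, lab, h4]) _ h1
      by_contra hcon
      exact h (pr_eq_self_iff.1 h2 y hcon)

omit [Fintype ι] in
/-- homogeneity of the differential -/
theorem dB_length (l : List (ι → SignType)) : ∀ a,
    pr {m | m.length + 1 = l.length} (dB a l) = dB a l := by
  classical
  induction l with
  | nil => intro a; rw [dB, map_zero]
  | cons x l ih =>
    intro a
    rw [dB]
    apply pr_sub_eq
    · apply pr_neg_eq
      cases l with
      | nil => rw [mB, map_zero]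
      | cons y t =>
        rw [mB]
        by_cases hg : Geod a x y
        · rw [if_pos hg]
          apply pr_single_mem
          simp
        · rw [if_neg hg, map_zero]
    · apply pr_consL _ _ (ih x)
      intro m hm
      have h : m.length + 1 = l.length := hm
      show (x :: m).length + 1 = (x :: l).length
      simp only [List.length_cons]
      omega

omit [Fintype ι] in
theorem fD_length (x : List (ι → SignType)) (y : List (ι → SignType))
    (h : fD (Finsupp.single x 1) y ≠ 0) : y.length + 1 = x.length := by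
  cases x with
  | nil =>
    rw [fD_single, fB] at h
    exact absurd rfl h
  | cons a l =>
    rw [fD_single, fB] at h
    have h2 := pr_consL (P := {m | m.length + 1 = l.length})
      (Q := {y | y.length + 1 = (a :: l).length}) (x := a) (by
        intro m hm
        have h : m.length + 1 = l.length := hm
        show (a :: m).length + 1 = (a :: l).length
        simp only [List.length_cons]
        omega) _ (dB_length l a)
    by_contra hcon
    exact h (pr_eq_self_iff.1 h2 y hcon)

theorem sep_card_eq_sv (a x : ι → SignType) : ∑ i, sv a x i = (sep a x).card := by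
  classical
  rw [sep, Finset.card_filter]
  apply Finset.sum_congr rfl
  intro i _
  rw [sv]
  by_cases h : x i ≠ a i
  · rw [if_pos h, if_pos (fun h' => h h'.symm)]
  · rw [if_neg h, if_neg (fun h' => h (fun h'' => h' h''.symm))]

theorem geod_iff_card [DecidableEq ι] (a x y : ι → SignType) :
    (sep a y).card = (sep a x).card + (sep x y).card ↔ Geod a x y := by
  have hsub : sep a y ⊆ sep a x ∪ sep x y := by
    intro i hi
    rw [Finset.mem_union, mem_sep, mem_sep]
    rw [mem_sep] at hi
    by_contra hcon
    push Not at hcon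
    exact hi (hcon.1.trans hcon.2)
  constructor
  · intro h i
    by_contra hcon
    push Not at hcon
    have h1 : i ∈ sep a x ∩ sep x y := by
      rw [Finset.mem_inter, mem_sep, mem_sep]
      exact ⟨fun h => hcon.1 h.symm, hcon.2⟩
    have h2 := Finset.card_le_card hsub
    have h3 := Finset.card_union_add_card_inter (sep a x) (sep x y)
    have h4 := Finset.card_pos.2 ⟨i, h1⟩
    omega
  · intro h
    have hdisj : Disjoint (sep a x) (sep x y) := by
      rw [Finset.disjoint_left]
      intro i h1 h2
      rw [mem_sep] at h1 h2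
      rcases h i with h3 | h3
      · exact h1 h3.symm
      · exact h2 h3
    rw [← Finset.card_union_of_disjoint hdisj]
    congr 1
    apply Finset.Subset.antisymm hsub
    intro i hi
    rw [Finset.mem_union, mem_sep, mem_sep] at hi
    rw [mem_sep]
    rcases hi with h1 | h1
    · rcases h i with h3 | h3
      · exact absurd h3.symm h1
      · rw [← h3]
        exact h1
    · rcases h i with h3 | h3
      · rw [← h3]
        exact h1
      · exact absurd h3 h1

section graph

variable {V : Type} (G : SimpleGraph V) (τ : V → (ι → SignType))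

/-- list of sign vectors of a tuple -/
def LL (k : ℕ) (x : Fin (k + 1) → V) : List (ι → SignType) := List.ofFn (fun i => τ (x i))

omit [Fintype ι] in
theorem LL_cons (k : ℕ) (x : Fin (k + 2) → V) :
    LL τ (k + 1) x = τ (x 0) :: LL τ k (fun i => x i.succ) := by
  rw [LL, LL, List.ofFn_succ]

omit [Fintype ι] in
theorem LL_inj (hτ : Function.Injective τ) (k : ℕ) : Function.Injective (LL τ k) := by
  intro x y h
  funext i
  apply hτ
  have := List.ofFn_injective h
  exact congrFun this i

theorem bd_LL [DecidableEq ι] (hd : ∀ x y, G.dist x y = (sep (τ x) (τ y)).card) (k : ℕ) :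
    ∀ x : Fin (k + 2) → V,
    Finsupp.lmapDomain ℤ ℤ (LL τ k) (bd G k (Finsupp.single x 1)) = fB (LL τ (k + 1) x) := by
  classical
  induction k with
  | zero =>
    intro x
    rw [bd, Finsupp.linearCombination_single, one_smul, Finset.univ_eq_empty, Finset.sum_empty,
      map_zero, LL_cons, fB, LL, List.ofFn_succ, List.ofFn_zero, dB, mB, dB]
    simp
  | succ k ih =>
    intro x
    rw [bd, Finsupp.linearCombination_single, one_smul, Fin.sum_univ_succ, map_add, LL_cons,
      LL_cons, fB, dB, map_sub, map_neg]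
    have e0 : Finsupp.lmapDomain ℤ ℤ (LL τ (k + 1))
        ((-1 : ℤ) ^ ((0 : Fin (k + 1)).val + 1) • face G x 0) =
        - consL (τ (x 0)) (mB (τ (x 0)) (τ (x (Fin.succ 0))) (LL τ k (fun i => x i.succ.succ))) := by
      have hg := geod_iff_card (τ (x 0)) (τ (x (Fin.succ 0))) (τ (x (Fin.succ (Fin.succ 0))))
      rw [← hd, ← hd, ← hd] at hg
      have hLL : ∃ t, LL τ k (fun i => x i.succ.succ) = τ (x (Fin.succ (Fin.succ 0))) :: t := by
        rw [LL, List.ofFn_succ]
        exact ⟨_, rfl⟩
      obtain ⟨t, ht⟩ := hLL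
      rw [face, ht, mB]
      by_cases h : Geod (τ (x 0)) (τ (x (Fin.succ 0))) (τ (x (Fin.succ (Fin.succ 0))))
      · have h' := hg.2 h
        have h'' : G.dist (x (Fin.castSucc (0 : Fin (k + 1))).castSucc)
            (x (Fin.succ (0 : Fin (k + 1))).succ) =
            G.dist (x (Fin.castSucc (0 : Fin (k + 1))).castSucc)
              (x (Fin.castSucc (0 : Fin (k + 1))).succ) +
            G.dist (x (Fin.castSucc (0 : Fin (k + 1))).succ)
              (x (Fin.succ (0 : Fin (k + 1))).succ) := h'
        rw [if_pos h, if_pos h'', ← ht, consL_single, map_smul, Finsupp.lmapDomain_apply,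
          Finsupp.mapDomain_single]
        have : LL τ (k + 1) (fun i => x ((Fin.castSucc (0 : Fin (k + 1))).succ.succAbove i)) =
            τ (x 0) :: LL τ k (fun i => x i.succ.succ) := by
          rw [LL_cons]
          congr 1
        rw [this]
        simp
      · have h' : ¬ G.dist (x (Fin.castSucc (0 : Fin (k + 1))).castSucc)
            (x (Fin.succ (0 : Fin (k + 1))).succ) =
            G.dist (x (Fin.castSucc (0 : Fin (k + 1))).castSucc)
              (x (Fin.castSucc (0 : Fin (k + 1))).succ) +
            G.dist (x (Fin.castSucc (0 : Fin (k + 1))).succ)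
              (x (Fin.succ (0 : Fin (k + 1))).succ) := fun h' => h (hg.1 h')
        rw [if_neg h, if_neg h']
        simp
    rw [e0]
    have e1 : Finsupp.lmapDomain ℤ ℤ (LL τ (k + 1))
        (∑ j : Fin k, (-1 : ℤ) ^ (j.succ.val + 1) • face G x j.succ) =
        - consL (τ (x 0)) (Finsupp.lmapDomain ℤ ℤ (LL τ k)
          (bd G k (Finsupp.single (fun i => x i.succ) 1))) := by
      rw [bd, Finsupp.linearCombination_single, one_smul, map_sum, map_sum, map_sum,
        ← Finset.sum_neg_distrib]
      apply Finset.sum_congr rfl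
      intro j _
      rw [map_smul, map_smul, map_smul, face, face]
      by_cases h : G.dist (x j.castSucc.castSucc.succ) (x j.succ.succ.succ) =
        G.dist (x j.castSucc.castSucc.succ) (x j.castSucc.succ.succ) +
        G.dist (x j.castSucc.succ.succ) (x j.succ.succ.succ)
      · rw [if_pos, if_pos]
        · rw [Finsupp.lmapDomain_apply, Finsupp.lmapDomain_apply, Finsupp.mapDomain_single,
            Finsupp.mapDomain_single, consL_single]
          have : LL τ (k + 1) (fun i => x (j.succ.castSucc.succ.succAbove i)) =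
            τ (x 0) :: LL τ k (fun i => x (j.castSucc.succ.succAbove i).succ) := by
            rw [LL_cons]
            congr 1
            congr 1
            funext i
            rw [← Fin.succ_succAbove_succ]
            rfl
          rw [this, Fin.val_succ]
          rw [← neg_smul]
          congr 1
          ring
        · exact h
        · exact h
      · rw [if_neg, if_neg]
        · simp
        · exact h
        · exact h
    rw [e1, ih (fun i => x i.succ), LL_cons, fB]
    abel

omit [Fintype ι] in
theorem vld_iff (hτ : Function.Injective τ) (T : Set (ι → SignType)) (hT : ∀ v, τ v ∈ T) (k : ℕ) :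
    ∀ x : Fin (k + 1) → V, (∀ i : Fin k, x i.castSucc ≠ x i.succ) ↔
      Vld T (τ (x 0)) (List.ofFn (fun i : Fin k => τ (x i.succ))) := by
  induction k with
  | zero =>
    intro x
    rw [List.ofFn_zero]
    simp [Vld]
  | succ k ih =>
    intro x
    rw [List.ofFn_succ, Vld, Fin.forall_fin_succ]
    have h := ih (fun i => x i.succ)
    constructor
    · rintro ⟨h1, h2⟩
      refine ⟨hT _, fun h3 => h1 (hτ h3.symm), h.1 (fun i => h2 i)⟩
    · rintro ⟨_, h1, h2⟩
      refine ⟨fun h3 => h1 (congrArg τ h3.symm), fun i => h.2 h2 i⟩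

theorem mdeg_sum (hd : ∀ x y, G.dist x y = (sep (τ x) (τ y)).card) (k : ℕ) :
    ∀ x : Fin (k + 1) → V, ∑ i : Fin k, G.dist (x i.castSucc) (x i.succ) =
      ∑ i, mdeg (τ (x 0)) (List.ofFn (fun i : Fin k => τ (x i.succ))) i := by
  induction k with
  | zero =>
    intro x
    rw [List.ofFn_zero, mdeg]
    simp
  | succ k ih =>
    intro x
    rw [List.ofFn_succ, mdeg, Fin.sum_univ_succ]
    simp only [Pi.add_apply, Finset.sum_add_distrib]
    rw [sep_card_eq_sv, ← hd]
    have h := ih (fun i => x i.succ)
    congr 1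

omit [Fintype ι] in
theorem LL_surj (T : Set (ι → SignType)) (hT : ∀ t ∈ T, ∃ v, τ v = t) (k : ℕ) :
    ∀ a l, a ∈ T → Vld T a l → l.length = k → ∃ x : Fin (k + 1) → V, LL τ k x = a :: l := by
  induction k with
  | zero =>
    intro a l ha _ hl
    obtain ⟨v, hv⟩ := hT a ha
    refine ⟨fun _ => v, ?_⟩
    rw [List.length_eq_zero_iff] at hl
    rw [LL, List.ofFn_succ, List.ofFn_zero, hl, hv]
  | succ k ih =>
    intro a l ha hv hl
    cases l with
    | nil => simp at hl
    | cons b l =>
      obtain ⟨hb, _, hl2⟩ := hv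
      obtain ⟨x, hx⟩ := ih b l hb hl2 (by simpa using hl)
      obtain ⟨v, hv⟩ := hT a ha
      refine ⟨Fin.cons v x, ?_⟩
      rw [LL_cons, ← hx]
      simp [hv]

theorem MH_tf [DecidableEq ι] (S : CellSystem ι) (hτ : Function.Injective τ)
    (hT : ∀ t, t ∈ topes S ↔ ∃ v, τ v = t)
    (hd : ∀ x y, G.dist x y = (sep (τ x) (τ y)).card) (k l : ℕ) (n : ℤ) (h : MH G k l)
    (hn : n ≠ 0) (hnh : n • h = 0) : h = 0 := by
  classical
  -- the bijection between generators and lists
  have hTm : ∀ v, τ v ∈ topes S := fun v => (hT _).2 ⟨v, rfl⟩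
  have hgen : ∀ k (x : Fin (k + 1) → V), IsGen G k l x → LL τ k x ∈ YY (topes S) l := by
    rintro k x ⟨h1, h2⟩
    rw [LL, List.ofFn_succ]
    refine ⟨hTm _, (vld_iff τ hτ (topes S) hTm k x).1 h1, ?_⟩
    rw [← mdeg_sum G τ hd k x, h2]
  have hbij : ∀ k, Set.BijOn (LL τ k) {x | IsGen G k l x}
      {m | m ∈ YY (topes S) l ∧ m.length = k + 1} := by
    intro k
    refine ⟨?_, ?_, ?_⟩
    · intro x hx
      refine ⟨hgen k x hx, ?_⟩
      rw [LL, List.length_ofFn]
    · exact (LL_inj τ hτ k).injOn
    · rintro m ⟨h1, h2⟩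
      cases m with
      | nil => exact absurd h1 (fun h => h)
      | cons a m =>
        obtain ⟨haT, hv, hs⟩ := h1
        obtain ⟨x, hx⟩ := LL_surj τ (topes S) (fun t ht => (hT t).1 ht) k a m haT hv
          (by simpa using h2)
        have hx' := hx
        rw [LL, List.ofFn_succ] at hx'
        obtain ⟨hx1, hx2⟩ := List.cons.inj hx'
        refine ⟨x, ⟨?_, ?_⟩, hx⟩
        · rw [vld_iff τ hτ (topes S) hTm k x, hx1, hx2]
          exact hv
        · rw [mdeg_sum G τ hd k x, hx1, hx2, hs]
  have hsupp : ∀ k (z : (Fin (k + 1) → V) →₀ ℤ), z ∈ MC G k l ↔ pr {x | IsGen G k l x} z = z := by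
    intro k z
    rw [MC, Finsupp.mem_supported', pr_eq_self_iff]
  have hint : ∀ k (z : (Fin (k + 2) → V) →₀ ℤ),
      Finsupp.lmapDomain ℤ ℤ (LL τ k) (bd G k z) =
        fD (Finsupp.lmapDomain ℤ ℤ (LL τ (k + 1)) z) := by
    intro k z
    have : (Finsupp.lmapDomain ℤ ℤ (LL τ k)) ∘ₗ (bd G k) =
        fD ∘ₗ (Finsupp.lmapDomain ℤ ℤ (LL τ (k + 1))) := by
      apply Finsupp.lhom_ext'
      intro x
      apply LinearMap.ext_ring
      rw [LinearMap.comp_apply, LinearMap.comp_apply, Finsupp.lsingle_apply, LinearMap.comp_apply,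
        LinearMap.comp_apply, Finsupp.lsingle_apply, bd_LL G τ hd k x, Finsupp.lmapDomain_apply,
        Finsupp.mapDomain_single, fD_single]
    exact LinearMap.congr_fun this z
  have hfD0 : ∀ (z : (Fin 1 → V) →₀ ℤ), fD (Finsupp.lmapDomain ℤ ℤ (LL τ 0) z) = 0 := by
    intro z
    have : fD ∘ₗ (Finsupp.lmapDomain ℤ ℤ (LL τ 0)) = 0 := by
      apply Finsupp.lhom_ext'
      intro x
      apply LinearMap.ext_ring
      rw [LinearMap.comp_apply, LinearMap.comp_apply, Finsupp.lsingle_apply,
        Finsupp.lmapDomain_apply, Finsupp.mapDomain_single, fD_single, LL, List.ofFn_succ,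
        List.ofFn_zero, fB, dB, map_zero]
      simp
    exact LinearMap.congr_fun this z
  obtain ⟨⟨z, hz⟩, rfl⟩ := Submodule.Quotient.mk_surjective _ h
  rw [← Submodule.Quotient.mk_smul, Submodule.Quotient.mk_eq_zero] at hnh
  rw [Submodule.Quotient.mk_eq_zero]
  change n • z ∈ boundaries G k l at hnh
  change z ∈ boundaries G k l
  obtain ⟨w, hw, hwz⟩ := hnh
  have hwz' : bd G k w = n • z := hwz
  have hzMC : z ∈ MC G k l := by
    cases k with
    | zero => exact hz
    | succ k => exact hz.1
  have hzc : fD (Finsupp.lmapDomain ℤ ℤ (LL τ k) z) = 0 := by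
    cases k with
    | zero => exact hfD0 z
    | succ k =>
      rw [← hint, LinearMap.mem_ker.1 hz.2, map_zero]
  have hYsub : ∀ k, Set.MapsTo (LL τ k) {x | IsGen G k l x} (YY (topes S) l) :=
    fun k x hx => hgen k x hx
  have hz1 := push_pr (hYsub k) z ((hsupp k z).1 hzMC)
  have hw1 := push_pr (hYsub (k + 1)) w ((hsupp (k + 1) w).1 hw)
  have hzw : fD (Finsupp.lmapDomain ℤ ℤ (LL τ (k + 1)) w) =
      n • Finsupp.lmapDomain ℤ ℤ (LL τ k) z := by
    rw [← hint, hwz', map_smul]
  obtain ⟨u, hu, hu2⟩ := YY_tf S l _ hz1 (by rw [hzc, map_zero]) n hn _ hw1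
    (by rw [hzw, map_smul, hz1])
  have hclosed : ∀ u : Ch ι, pr (YY (topes S) l) u = u → pr (YY (topes S) l) (fD u) = fD u := by
    intro u hu
    refine lin_ext_on ((pr _) ∘ₗ fD) fD (P := YY (topes S) l) (fun x hx => ?_) u hu
    rw [LinearMap.comp_apply, pr_eq_self_iff]
    intro y hy
    by_contra hne
    exact hy (YY_closed _ _ x hx y hne).1
  rw [hclosed u hu] at hu2
  -- homogeneous component
  have hhom : ∀ u : Ch ι, pr {m | m.length = k + 1} (fD u) = fD (pr {m | m.length = k + 2} u) := by
    intro u
    have : (pr {m : List (ι → SignType) | m.length = k + 1}) ∘ₗ fD =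
        fD ∘ₗ (pr {m | m.length = k + 2}) := by
      apply ch_ext
      intro x
      rw [LinearMap.comp_apply, LinearMap.comp_apply]
      by_cases hx : x.length = k + 2
      · rw [pr_single_mem (P := {m : List (ι → SignType) | m.length = k + 2}) hx, pr_eq_self_iff]
        intro y hy
        by_contra hne
        apply hy
        have := fD_length x y hne
        show y.length = k + 1
        omega
      · have h0 : pr {m | m.length = k + 2} (Finsupp.single x (1 : ℤ)) = 0 := by
          ext y
          by_cases hy : y ∈ {m : List (ι → SignType) | m.length = k + 2}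
          · rw [pr_apply_mem hy, Finsupp.single_apply, if_neg, Finsupp.zero_apply]
            rintro rfl
            exact hx hy
          · rw [pr_apply_not_mem hy, Finsupp.zero_apply]
        rw [h0, map_zero]
        ext y
        by_cases hy : y ∈ {m : List (ι → SignType) | m.length = k + 1}
        · rw [pr_apply_mem hy, Finsupp.zero_apply]
          by_contra hne
          apply hx
          have := fD_length x y hne
          have h3 : y.length = k + 1 := hy
          omega
        · rw [pr_apply_not_mem hy, Finsupp.zero_apply]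
    exact LinearMap.congr_fun this u
  have hzlen : pr {m | m.length = k + 1} (Finsupp.lmapDomain ℤ ℤ (LL τ k) z) =
      Finsupp.lmapDomain ℤ ℤ (LL τ k) z := by
    apply push_pr (P' := {x | IsGen G k l x}) _ z ((hsupp k z).1 hzMC)
    intro x _
    show (LL τ k x).length = k + 1
    rw [LL, List.length_ofFn]
  have hu3 : fD (pr {m | m.length = k + 2} u) = Finsupp.lmapDomain ℤ ℤ (LL τ k) z := by
    rw [← hhom, hu2, hzlen]
  have hu4 : pr {m | m ∈ YY (topes S) l ∧ m.length = (k + 1) + 1}
      (pr {m | m.length = k + 2} u) = pr {m | m.length = k + 2} u := by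
    rw [pr_eq_self_iff]
    intro m hm
    by_cases h1 : m ∈ {m : List (ι → SignType) | m.length = k + 2}
    · rw [pr_apply_mem h1]
      apply pr_eq_self_iff.1 hu
      intro h2
      exact hm ⟨h2, h1⟩
    · rw [pr_apply_not_mem h1]
  obtain ⟨w', hw', hw'2⟩ := push_surj (hbij (k + 1)).surjOn _ hu4
  refine ⟨w', (hsupp (k + 1) w').2 hw', ?_⟩
  have h5 : Finsupp.lmapDomain ℤ ℤ (LL τ k) (bd G k w' - z) = 0 := by
    rw [map_sub, hint, hw'2, hu3, sub_self]
  have h6 : bd G k w' - z = 0 := by
    apply push_inj (P' := Set.univ) (LL_inj τ hτ k).injOn _ _ h5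
    rw [pr_eq_self_iff]
    intro x hx
    exact absurd (Set.mem_univ x) hx
  exact sub_eq_zero.1 h6

theorem boundaries_le [DecidableEq ι] (S : CellSystem ι) (hτ : Function.Injective τ)
    (hT : ∀ t, t ∈ topes S ↔ ∃ v, τ v = t)
    (hd : ∀ x y, G.dist x y = (sep (τ x) (τ y)).card) (k l : ℕ) :
    boundaries G k l ≤ cycles G k l := by
  classical
  have hTm : ∀ v, τ v ∈ topes S := fun v => (hT _).2 ⟨v, rfl⟩
  have hgen : ∀ k (x : Fin (k + 1) → V), IsGen G k l x ↔ LL τ k x ∈ YY (topes S) l := by
    intro k x
    rw [LL, List.ofFn_succ]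
    constructor
    · rintro ⟨h1, h2⟩
      refine ⟨hTm _, (vld_iff τ hτ (topes S) hTm k x).1 h1, ?_⟩
      rw [← mdeg_sum G τ hd k x, h2]
    · rintro ⟨_, h1, h2⟩
      refine ⟨(vld_iff τ hτ (topes S) hTm k x).2 h1, ?_⟩
      rw [mdeg_sum G τ hd k x, h2]
  have hint : ∀ k (z : (Fin (k + 2) → V) →₀ ℤ),
      Finsupp.lmapDomain ℤ ℤ (LL τ k) (bd G k z) =
        fD (Finsupp.lmapDomain ℤ ℤ (LL τ (k + 1)) z) := by
    intro k z
    have : (Finsupp.lmapDomain ℤ ℤ (LL τ k)) ∘ₗ (bd G k) =
        fD ∘ₗ (Finsupp.lmapDomain ℤ ℤ (LL τ (k + 1))) := by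
      apply Finsupp.lhom_ext'
      intro x
      apply LinearMap.ext_ring
      rw [LinearMap.comp_apply, LinearMap.comp_apply, Finsupp.lsingle_apply, LinearMap.comp_apply,
        LinearMap.comp_apply, Finsupp.lsingle_apply, bd_LL G τ hd k x, Finsupp.lmapDomain_apply,
        Finsupp.mapDomain_single, fD_single]
    exact LinearMap.congr_fun this z
  have huniv : ∀ k (z : (Fin (k + 1) → V) →₀ ℤ), pr Set.univ z = z := by
    intro k z
    rw [pr_eq_self_iff]
    intro x hx
    exact absurd (Set.mem_univ x) hx
  rintro _ ⟨w, hw, rfl⟩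
  have hw' : pr {x | IsGen G (k + 1) l x} w = w := by
    have : w ∈ MC G (k + 1) l := hw
    rw [MC, Finsupp.mem_supported'] at this
    rw [pr_eq_self_iff]
    exact this
  have hw1 : pr (YY (topes S) l) (Finsupp.lmapDomain ℤ ℤ (LL τ (k + 1)) w) =
      Finsupp.lmapDomain ℤ ℤ (LL τ (k + 1)) w :=
    push_pr (fun x hx => (hgen (k + 1) x).1 hx) w hw'
  have hclosed : ∀ u : Ch ι, pr (YY (topes S) l) u = u → pr (YY (topes S) l) (fD u) = fD u := by
    intro u hu
    refine lin_ext_on ((pr _) ∘ₗ fD) fD (P := YY (topes S) l) (fun x hx => ?_) u hu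
    rw [LinearMap.comp_apply, pr_eq_self_iff]
    intro y hy
    by_contra hne
    exact hy (YY_closed _ _ x hx y hne).1
  have hMC : bd G k w ∈ MC G k l := by
    rw [MC, Finsupp.mem_supported']
    intro x hx
    rw [← push_apply (P' := Set.univ) (LL_inj τ hτ k).injOn _ (huniv k _) (Set.mem_univ x), hint]
    apply pr_eq_self_iff.1 (hclosed _ hw1)
    intro hmem
    exact hx ((hgen k x).2 hmem)
  cases k with
  | zero => exact hMC
  | succ k =>
    refine ⟨hMC, ?_⟩
    have h0 : bd G k (bd G (k + 1) w) = 0 := by
      apply push_inj (P' := Set.univ) (LL_inj τ hτ k).injOn _ (huniv k _)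
      rw [hint, hint, fD_fD]
    exact h0

end graph

end Pool.Agent.Work.MP_95f31c_co
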