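import Mathlib

/-! Sign vectors and abstract cell systems. -/

namespace Pool.Agent.Work.MP_95f31c_co

/-- composition of sign vectors -/
def comp {ι : Type} (F G : ι → SignType) : ι → SignType :=
  fun i => if F i = 0 then G i else F i

/-- the face relation on sign vectors -/
def Face {ι : Type} (F G : ι → SignType) : Prop :=
  ∀ i, F i = 0 ∨ F i = G i

/-- the zero set of a sign vector -/
def zs {ι : Type} [Fintype ι] (F : ι → SignType) : Finset ι :=
  Finset.univ.filter (fun i => F i = 0)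

/-- the set of coordinates in which two sign vectors differ -/
def sep {ι : Type} [Fintype ι] (F G : ι → SignType) : Finset ι :=
  Finset.univ.filter (fun i => F i ≠ G i)

/-- A combinatorial system of cells with signed incidence numbers. -/
structure CellSystem (ι : Type) [Fintype ι] [DecidableEq ι] where
  cells : Set (ι → SignType)
  comp_mem : ∀ F ∈ cells, ∀ G ∈ cells, comp F G ∈ cells
  neg_mem : ∀ F ∈ cells, (-F) ∈ cells
  inc : (ι → SignType) → (ι → SignType) → ℤ
  par : (ι → SignType) → ℤ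
  par_sq : ∀ F, par F * par F = 1
  inc_par : ∀ F G, inc F G ≠ 0 → par G = - par F
  inc_mem : ∀ F G, inc F G ≠ 0 → F ∈ cells ∧ G ∈ cells ∧ Face F G ∧ F ≠ G
  sq : ∀ F H, ∑ G, inc F G * inc G H = 0
  facet : ∀ E ∈ cells, ∀ g ∈ cells, zs E = zs g → E ≠ g →
    ∃ h ∈ cells, Face h g ∧ h ≠ g ∧ (zs h \ zs g) ⊆ sep E g ∧
      (∀ F ∈ cells, zs g ⊆ zs F → (∃ i ∈ zs F, i ∈ zs h \ zs g) → zs h ⊆ zs F) ∧
      (∀ W ∈ cells, ∀ E' ∈ cells, Face W E' → zs W = zs h → zs E' = zs g →
        inc W E' * inc W E' = 1)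

end Pool.Agent.Work.MP_95f31c_co
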