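import Pool.Agent.Work.MP_95f31c_co.Lists

/-! The gate homotopy and the columns. -/

namespace Pool.Agent.Work.MP_95f31c_co

variable {ι : Type}

open Classical in
/-- the gate homotopy on basis lists: insert the gate before the first element outside the star
of `F` -/
noncomputable def hB (F : ι → SignType) : (ι → SignType) → List (ι → SignType) → Ch ι
  | _, [] => 0
  | a, x :: l => if Face F x then - consL x (hB F x l)
      else if comp F x = a then 0 else - Finsupp.single (comp F x :: x :: l) 1

/-- the gate homotopy -/
noncomputable def hL (F a : ι → SignType) : Ch ι →ₗ[ℤ] Ch ι :=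
  Finsupp.linearCombination ℤ (hB F a)

theorem hL_single (F a : ι → SignType) (l : List (ι → SignType)) :
    hL F a (Finsupp.single l 1) = hB F a l := by
  rw [hL, Finsupp.linearCombination_single, one_smul]

theorem hL_consL_star {F a x : ι → SignType} (hx : Face F x) (z : Ch ι) :
    hL F a (consL x z) = - consL x (hL F x z) := by
  have h : (hL F a) ∘ₗ (consL x) = - ((consL x) ∘ₗ (hL F x)) := by
    apply ch_ext
    intro l
    rw [LinearMap.comp_apply, consL_single, hL_single, hB, if_pos hx, LinearMap.neg_apply,
      LinearMap.comp_apply, hL_single]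
  exact LinearMap.congr_fun h z

theorem hL_consL_eq {F a x : ι → SignType} (hx : ¬ Face F x) (hg : comp F x = a) (z : Ch ι) :
    hL F a (consL x z) = 0 := by
  have h : (hL F a) ∘ₗ (consL x) = 0 := by
    apply ch_ext
    intro l
    rw [LinearMap.comp_apply, consL_single, hL_single, hB, if_neg hx, if_pos hg,
      LinearMap.zero_apply]
  exact LinearMap.congr_fun h z

theorem hL_consL_ne {F a x : ι → SignType} (hx : ¬ Face F x) (hg : comp F x ≠ a) (z : Ch ι) :
    hL F a (consL x z) = - consL (comp F x) (consL x z) := by
  have h : (hL F a) ∘ₗ (consL x) = - ((consL (comp F x)) ∘ₗ (consL x)) := by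
    apply ch_ext
    intro l
    rw [LinearMap.comp_apply, consL_single, hL_single, hB, if_neg hx, if_neg hg,
      LinearMap.neg_apply, LinearMap.comp_apply, consL_single, consL_single]
  exact LinearMap.congr_fun h z

open Classical in
/-- length of the part of the list starting at the first element outside the star of `F` -/
noncomputable def tl (F : ι → SignType) : List (ι → SignType) → ℕ
  | [] => 0
  | x :: l => if Face F x then tl F l else l.length + 1

open Classical in
/-- the diagonal coefficient of the homotopy -/
noncomputable def sg (F a : ι → SignType) : List (ι → SignType) → ℤ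
  | [] => 0
  | x :: _ => if Face F x then 1 else if comp F x = a then 0 else 1

theorem tl_cons_star {F x : ι → SignType} (hx : Face F x) (l : List (ι → SignType)) :
    tl F (x :: l) = tl F l := by rw [tl, if_pos hx]

theorem tl_cons_out {F x : ι → SignType} (hx : ¬ Face F x) (l : List (ι → SignType)) :
    tl F (x :: l) = l.length + 1 := by rw [tl, if_neg hx]

theorem face_comp (F x : ι → SignType) : Face F (comp F x) := by
  intro i
  by_cases h : F i = 0
  · exact Or.inl h
  · right
    rw [comp, if_neg h]

theorem convex_star {F a x y : ι → SignType} (ha : Face F a) (hx : ¬ Face F x) (hg : Geod a x y) :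
    ¬ Face F y := by
  intro hy
  apply hx
  intro i
  by_cases hi : F i = 0
  · exact Or.inl hi
  · right
    rcases hg i with h | h
    · rcases ha i with h' | h'
      · exact absurd h' hi
      · rw [h, h']
    · rcases hy i with h' | h'
      · exact absurd h' hi
      · rw [h, h']

theorem geod_gate {F a : ι → SignType} (ha : Face F a) (x : ι → SignType) :
    Geod a (comp F x) x := by
  intro i
  by_cases hi : F i = 0
  · right
    rw [comp, if_pos hi]
  · left
    rw [comp, if_neg hi]
    rcases ha i with h' | h'
    · exact absurd h' hi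
    · exact h'

theorem lower_A {F a x : ι → SignType} (ha : Face F a) (hx : ¬ Face F x)
    (l : List (ι → SignType)) :
    pr {m | tl F m < l.length + 1} (hL F a (mB a x l)) = hL F a (mB a x l) := by
  classical
  cases l with
  | nil => rw [mB, map_zero, map_zero]
  | cons y t =>
    rw [mB]
    by_cases hg : Geod a x y
    · have hy := convex_star ha hx hg
      rw [if_pos hg, hL_single, hB, if_neg hy]
      by_cases h : comp F y = a
      · rw [if_pos h, map_zero]
      · rw [if_neg h]
        apply pr_neg_eq
        apply pr_single_mem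
        show tl F (comp F y :: y :: t) < (y :: t).length + 1
        rw [tl_cons_star (face_comp F y), tl_cons_out hy]
        simp
    · rw [if_neg hg, map_zero, map_zero]

theorem lower_B {F g x : ι → SignType} (hgF : Face F g) (hx : ¬ Face F x)
    (l : List (ι → SignType)) :
    pr {m | tl F m < l.length + 1} (consL g (mB g x l)) = consL g (mB g x l) := by
  classical
  cases l with
  | nil => rw [mB, map_zero, map_zero]
  | cons y t =>
    rw [mB]
    by_cases hg : Geod g x y
    · have hy := convex_star hgF hx hg
      rw [if_pos hg, consL_single]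
      apply pr_single_mem
      show tl F (g :: y :: t) < (y :: t).length + 1
      rw [tl_cons_star hgF, tl_cons_out hy]
      simp
    · rw [if_neg hg, map_zero, map_zero]

theorem geod_gate_iff {F a x y : ι → SignType} (ha : Face F a) (hx : Face F x) (hxa : x ≠ a) :
    Geod a x (comp F y) ↔ (Geod a x y ∧ comp F y ≠ a) := by
  constructor
  · intro h
    refine ⟨fun i => ?_, geod_ne h hxa⟩
    by_cases hi : F i = 0
    · rcases h i with h' | h'
      · exact Or.inl h'
      · right
        rw [h', comp, if_pos hi]
    · left
      rcases ha i with h1 | h1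
      · exact absurd h1 hi
      · rcases hx i with h2 | h2
        · exact absurd h2 hi
        · rw [← h1, ← h2]
  · rintro ⟨h, _⟩ i
    by_cases hi : F i = 0
    · rcases h i with h' | h'
      · exact Or.inl h'
      · right
        rw [h', comp, if_pos hi]
    · left
      rcases ha i with h1 | h1
      · exact absurd h1 hi
      · rcases hx i with h2 | h2
        · exact absurd h2 hi
        · rw [← h1, ← h2]

theorem corr {F a x : ι → SignType} (ha : Face F a) (hx : Face F x) (hxa : x ≠ a)
    (l : List (ι → SignType)) (hl : l ≠ []) :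
    mL a x (hB F x l) - hL F a (mB a x l) = (1 - sg F x l) • Finsupp.single (x :: l) 1 := by
  classical
  cases l with
  | nil => exact absurd rfl hl
  | cons y t =>
    by_cases hy : Face F y
    · rw [hB, if_pos hy, sg, if_pos hy, mB, map_neg, mL_consL]
      by_cases hg : Geod a x y
      · rw [if_pos hg, if_pos hg, hL_single, hB, if_pos hy]
        simp
      · rw [if_neg hg, if_neg hg]
        simp
    · by_cases hgx : comp F y = x
      · rw [hB, if_neg hy, if_pos hgx, sg, if_neg hy, if_pos hgx, mB]
        have hg : Geod a x y := by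
          rw [← hgx]
          exact geod_gate ha y
        have hne : comp F y ≠ a := by rw [hgx]; exact hxa
        rw [if_pos hg, hL_single, hB, if_neg hy, if_neg hne, hgx]
        simp
      · rw [hB, if_neg hy, if_neg hgx, sg, if_neg hy, if_neg hgx, mB, map_neg, mL_single, mB]
        have hiff := geod_gate_iff (y := y) ha hx hxa
        by_cases hg : Geod a x (comp F y)
        · obtain ⟨h1, h2⟩ := hiff.1 hg
          rw [if_pos hg, if_pos h1, hL_single, hB, if_neg hy, if_neg h2]
          simp
        · rw [if_neg hg]
          by_cases h1 : Geod a x y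
          · have h2 : comp F y = a := by
              by_contra hne
              exact hg (hiff.2 ⟨h1, hne⟩)
            rw [if_pos h1, hL_single, hB, if_neg hy, if_pos h2]
            simp
          · rw [if_neg h1]
            simp

theorem phi (T : Set (ι → SignType)) (F : ι → SignType) (l : List (ι → SignType)) :
    ∀ a, Face F a → Vld T a l → 0 < tl F l →
    ∃ r : Ch ι, pr {m | tl F m < tl F l} r = r ∧
      dL a (hB F a l) + hL F a (dB a l) = sg F a l • Finsupp.single l 1 + r := by
  classical
  induction l with
  | nil => intro a _ _ h; simp [tl] at h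
  | cons x l ih =>
    intro a ha hv htl
    obtain ⟨hxT, hxa, hxl⟩ := hv
    by_cases hx : Face F x
    · rw [tl_cons_star hx] at htl
      obtain ⟨r, hr, hphi⟩ := ih x hx hxl htl
      have hl : l ≠ [] := by
        rintro rfl
        simp [tl] at htl
      have hc := corr ha hx hxa l hl
      refine ⟨consL x r, ?_, ?_⟩
      · apply pr_consL _ _ hr
        intro m hm
        show tl F (x :: m) < tl F (x :: l)
        rw [tl_cons_star hx, tl_cons_star hx]
        exact hm
      · have e1 : dL a (hB F a (x :: l)) = mL a x (hB F x l) + consL x (dL x (hB F x l)) := by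
          rw [hB, if_pos hx, map_neg, dL_consL]
          abel
        have e2 : hL F a (dB a (x :: l)) = - hL F a (mB a x l) + consL x (hL F x (dB x l)) := by
          rw [dB, map_sub, map_neg, hL_consL_star hx]
          abel
        have e3 : consL x (dL x (hB F x l)) + consL x (hL F x (dB x l)) =
            sg F x l • Finsupp.single (x :: l) 1 + consL x r := by
          rw [← map_add, hphi, map_add, map_smul, consL_single]
        have e4 : sg F a (x :: l) = 1 := by rw [sg, if_pos hx]
        rw [e1, e2, e4]
        have : mL a x (hB F x l) + consL x (dL x (hB F x l)) +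
            (- hL F a (mB a x l) + consL x (hL F x (dB x l))) =
            (mL a x (hB F x l) - hL F a (mB a x l)) +
            (consL x (dL x (hB F x l)) + consL x (hL F x (dB x l))) := by abel
        rw [this, hc, e3, sub_smul]
        abel
    · rw [tl_cons_out hx]
      by_cases hg : comp F x = a
      · refine ⟨- hL F a (mB a x l), pr_neg_eq (lower_A ha hx l), ?_⟩
        rw [hB, if_neg hx, if_pos hg, sg, if_neg hx, if_pos hg, map_zero, dB, map_sub, map_neg,
          hL_consL_eq hx hg]
        simp
      · refine ⟨- consL (comp F x) (mB (comp F x) x l) - hL F a (mB a x l),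
          pr_sub_eq (pr_neg_eq (lower_B (face_comp F x) hx l)) (lower_A ha hx l), ?_⟩
        have e1 : dL a (hB F a (x :: l)) = Finsupp.single (x :: l) 1
            - consL (comp F x) (mB (comp F x) x l)
            - consL (comp F x) (consL x (dB x l)) := by
          rw [hB, if_neg hx, if_neg hg, map_neg, dL_single, dB, mB, if_pos (geod_gate ha x), dB,
            map_sub, map_neg]
          abel
        have e2 : hL F a (dB a (x :: l)) = - hL F a (mB a x l)
            + consL (comp F x) (consL x (dB x l)) := by
          rw [dB, map_sub, map_neg, hL_consL_ne hx hg]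
          abel
        rw [e1, e2, sg, if_neg hx, if_neg hg, one_smul]
        abel

theorem hB_supp {T : Set (ι → SignType)} {F : ι → SignType} (hT : ∀ x ∈ T, comp F x ∈ T)
    (l : List (ι → SignType)) : ∀ a, Face F a → Vld T a l →
    pr {m | Vld T a m ∧ mdeg a m = mdeg a l} (hB F a l) = hB F a l := by
  classical
  induction l with
  | nil => intro a _ _; rw [hB, map_zero]
  | cons x l ih =>
    intro a ha hv
    obtain ⟨hxT, hxa, hxl⟩ := hv
    rw [hB]
    by_cases hx : Face F x
    · rw [if_pos hx]
      apply pr_neg_eq
      apply pr_consL _ _ (ih x hx hxl)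
      rintro m ⟨hm1, hm2⟩
      refine ⟨⟨hxT, hxa, hm1⟩, ?_⟩
      simp only [mdeg]
      rw [hm2]
    · rw [if_neg hx]
      by_cases hg : comp F x = a
      · rw [if_pos hg, map_zero]
      · rw [if_neg hg]
        apply pr_neg_eq
        apply pr_single_mem
        refine ⟨⟨hT x hxT, hg, hxT, ?_, hxl⟩, ?_⟩
        · intro h
          apply hx
          rw [h]
          exact face_comp F x
        · simp only [mdeg]
          rw [← add_assoc, sv_add_of_geod (geod_gate ha x)]

theorem hB_hd (F : ι → SignType) (l : List (ι → SignType)) (a : ι → SignType) (h : Hd F a l) :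
    pr {m | Hd F a m} (hB F a l) = hB F a l := by
  classical
  cases l with
  | nil => exact absurd h (by simp [Hd])
  | cons x l =>
    rw [hB]
    by_cases hx : Face F x
    · rw [if_pos hx]
      apply pr_neg_eq
      apply pr_consL (P := Set.univ) _ _ _
      · intro m _ i hi
        exact h i hi
      · rw [pr_eq_self_iff]
        intro x hx
        exact absurd (Set.mem_univ x) hx
    · rw [if_neg hx]
      by_cases hg : comp F x = a
      · rw [if_pos hg, map_zero]
      · rw [if_neg hg]
        apply pr_neg_eq
        apply pr_single_mem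
        intro i hi
        rw [comp, if_pos hi]
        exact h i hi

theorem tl_pos {F : ι → SignType} {i : ι} (hi : F i ≠ 0) (l : List (ι → SignType)) :
    ∀ a, Face F a → mdeg a l i ≠ 0 → 0 < tl F l := by
  classical
  induction l with
  | nil => intro a _ h; simp [mdeg] at h
  | cons x l ih =>
    intro a ha h
    by_cases hx : Face F x
    · rw [tl_cons_star hx]
      apply ih x hx
      simp only [mdeg, Pi.add_apply] at h
      have : sv a x i = 0 := by
        rw [sv, if_neg]
        rw [not_not]
        rcases ha i with h1 | h1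
        · exact absurd h1 hi
        · rcases hx i with h2 | h2
          · exact absurd h2 hi
          · rw [← h1, ← h2]
      rw [this, zero_add] at h
      exact h
    · rw [tl_cons_out hx]
      omega

/-- the column of `F` -/
def Col (T : Set (ι → SignType)) (F a : ι → SignType) (c : ι → ℕ) :
    Set (List (ι → SignType)) := {l | l ∈ XX T a c ∧ Hd F a l}

theorem pr_inter {I : Type} {P Q : Set I} {z : I →₀ ℤ} (hP : pr P z = z) (hQ : pr Q z = z) :
    pr {x | x ∈ P ∧ x ∈ Q} z = z := by
  rw [pr_eq_self_iff] at hP hQ ⊢
  intro x hx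
  by_cases h : x ∈ P
  · by_cases h' : x ∈ Q
    · exact absurd ⟨h, h'⟩ hx
    · exact hQ x h'
  · exact hP x h

theorem dL_XX {T : Set (ι → SignType)} {a : ι → SignType} {c : ι → ℕ} {z : Ch ι}
    (hz : pr (XX T a c) z = z) : pr (XX T a c) (dL a z) = dL a z := by
  refine lin_ext_on ((pr _) ∘ₗ (dL a)) (dL a) (P := XX T a c) (fun l hl => ?_) z hz
  rw [LinearMap.comp_apply, dL_single]
  apply pr_mono _ (dB_supp T l a hl.1)
  rintro m ⟨h1, h2, _⟩
  exact ⟨h1, h2.trans hl.2⟩

theorem dL_Col {T : Set (ι → SignType)} {F a : ι → SignType} {c : ι → ℕ} {z : Ch ι}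
    (hz : pr (Col T F a c) z = z) : pr (Col T F a c) (dL a z) = dL a z := by
  refine lin_ext_on ((pr _) ∘ₗ (dL a)) (dL a) (P := Col T F a c) (fun l hl => ?_) z hz
  rw [LinearMap.comp_apply, dL_single]
  apply pr_mono _ (pr_inter (dB_supp T l a hl.1.1) (dB_hd F l a hl.2))
  rintro m ⟨⟨h1, h2, _⟩, h3⟩
  exact ⟨⟨h1, h2.trans hl.1.2⟩, h3⟩

theorem hL_Col {T : Set (ι → SignType)} {F a : ι → SignType} (hT : ∀ x ∈ T, comp F x ∈ T)
    (ha : Face F a) {c : ι → ℕ} {z : Ch ι}
    (hz : pr (Col T F a c) z = z) : pr (Col T F a c) (hL F a z) = hL F a z := by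
  refine lin_ext_on ((pr _) ∘ₗ (hL F a)) (hL F a) (P := Col T F a c) (fun l hl => ?_) z hz
  rw [LinearMap.comp_apply, hL_single]
  apply pr_mono _ (pr_inter (hB_supp hT l a ha hl.1.1) (hB_hd F l a hl.2))
  rintro m ⟨⟨h1, h2⟩, h3⟩
  exact ⟨⟨h1, h2.trans hl.1.2⟩, h3⟩

theorem col_exact {T : Set (ι → SignType)} {F a : ι → SignType} (hT : ∀ x ∈ T, comp F x ∈ T)
    (ha : Face F a) {c : ι → ℕ} (hF0 : ∃ i, F i = 0) (hc : ∃ i, c i ≠ 0 ∧ F i ≠ 0) (n : ℕ) :
    ∀ z : Ch ι, pr (Col T F a c) z = z → pr {m | tl F m < n} z = z → dL a z = 0 →
    ∃ w, pr (Col T F a c) w = w ∧ dL a w = z := by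
  induction n with
  | zero =>
    intro z _ hz _
    have : z = 0 := by
      ext x
      rw [pr_eq_self_iff.1 hz x (by simp), Finsupp.zero_apply]
    exact ⟨0, by rw [map_zero], by rw [map_zero, this]⟩
  | succ n ih =>
    intro z hz hzn hdz
    have hh := hL_Col hT ha hz
    have h1 : pr {m | tl F m < n} (z - dL a (hL F a z)) = z - dL a (hL F a z) := by
      have e : z - dL a (hL F a z) = ((LinearMap.id : Ch ι →ₗ[ℤ] Ch ι) - (dL a) ∘ₗ (hL F a) - (hL F a) ∘ₗ (dL a)) z := by
        rw [LinearMap.sub_apply, LinearMap.sub_apply, LinearMap.comp_apply, LinearMap.comp_apply,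
          LinearMap.id_apply, hdz, map_zero, sub_zero]
      rw [e]
      refine lin_ext_on ((pr _) ∘ₗ ((LinearMap.id : Ch ι →ₗ[ℤ] Ch ι) - (dL a) ∘ₗ (hL F a) - (hL F a) ∘ₗ (dL a)))
        ((LinearMap.id : Ch ι →ₗ[ℤ] Ch ι) - (dL a) ∘ₗ (hL F a) - (hL F a) ∘ₗ (dL a))
        (P := {x | x ∈ Col T F a c ∧ x ∈ {m | tl F m < n + 1}}) (fun l hl => ?_) z
        (pr_inter hz hzn)
      obtain ⟨i, hci, hFi⟩ := hc
      have hpos : 0 < tl F l := by
        apply tl_pos hFi l a ha
        rw [hl.1.1.2]
        exact hci
      obtain ⟨r, hr, hphi⟩ := phi T F l a ha hl.1.1.1 hpos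
      have hsg : sg F a l = 1 := by
        classical
        cases l with
        | nil => simp [tl] at hpos
        | cons x l =>
          rw [sg]
          by_cases hx : Face F x
          · rw [if_pos hx]
          · rw [if_neg hx, if_neg]
            obtain ⟨j, hj⟩ := hF0
            intro h
            apply hl.1.2 j hj
            rw [← h, comp, if_pos hj]
      have e2 : ((LinearMap.id : Ch ι →ₗ[ℤ] Ch ι) - (dL a) ∘ₗ (hL F a) - (hL F a) ∘ₗ (dL a)) (Finsupp.single l 1)
          = - r := by
        rw [LinearMap.sub_apply, LinearMap.sub_apply, LinearMap.comp_apply, LinearMap.comp_apply,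
          LinearMap.id_apply, hL_single, dL_single, sub_sub, hphi, hsg, one_smul]
        abel
      rw [LinearMap.comp_apply, e2]
      apply pr_neg_eq
      apply pr_mono _ hr
      intro m hm
      have h2 : tl F l < n + 1 := hl.2
      have h3 : tl F m < tl F l := hm
      show tl F m < n
      omega
    have h2 : pr (Col T F a c) (z - dL a (hL F a z)) = z - dL a (hL F a z) :=
      pr_sub_eq hz (dL_Col hh)
    have h3 : dL a (z - dL a (hL F a z)) = 0 := by
      rw [map_sub, dL_dL, hdz, sub_zero]
    obtain ⟨w, hw, hw2⟩ := ih _ h2 h1 h3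
    refine ⟨w + hL F a z, pr_add_eq hw hh, ?_⟩
    rw [map_add, hw2]
    abel

theorem col_acyc {T : Set (ι → SignType)} {F a : ι → SignType} (hT : ∀ x ∈ T, comp F x ∈ T)
    (ha : Face F a) {c : ι → ℕ} (hF0 : ∃ i, F i = 0) (hc : ∃ i, c i ≠ 0 ∧ F i ≠ 0) :
    Acyc (dL a) (Col T F a c) := by
  intro z hz hdz
  rw [dL_Col hz] at hdz
  obtain ⟨n, hn⟩ : ∃ n, pr {m | tl F m < n} z = z := by
    refine ⟨(z.support.sup (tl F)) + 1, ?_⟩
    rw [pr_eq_self_iff]
    intro x hx
    by_contra hne
    apply hx
    show tl F x < z.support.sup (tl F) + 1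
    have := Finset.le_sup (f := tl F) (Finsupp.mem_support_iff.2 hne)
    omega
  obtain ⟨w, hw, hw2⟩ := col_exact hT ha hF0 hc n z hz hn hdz
  refine ⟨w, hw, ?_⟩
  rw [dL_Col hw, hw2]

theorem consL_apply_cons (x : ι → SignType) (z : Ch ι) (l : List (ι → SignType)) :
    consL x z (x :: l) = z l := by
  rw [consL, Finsupp.lmapDomain_apply]
  exact Finsupp.mapDomain_apply (fun l m h => (List.cons.inj h).2) z l

theorem col_tf {T : Set (ι → SignType)} {F a : ι → SignType}
    (hTne : ∀ x ∈ T, ∀ i, x i ≠ 0) (ha : Face F a) (haT : a ∈ T)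
    {c : ι → ℕ} (hc : ∀ i, c i ≠ 0 → F i = 0)
    (hTF : ∀ c', c = sv a (comp F (-a)) + c' → TF (dL (comp F (-a))) (XX T (comp F (-a)) c')) :
    TF (dL a) (Col T F a c) := by
  classical
  set b := comp F (-a) with hb
  have key : ∀ x t, (x :: t) ∈ Col T F a c → x = b ∧ c = sv a b + mdeg b t ∧ Vld T b t := by
    intro x t hl
    have hx : x = b := by
      funext i
      by_cases hi : F i = 0
      · rw [hb, comp, if_pos hi, Pi.neg_apply]
        exact sign_neg_of_ne (hTne x hl.1.1.1 i) (hTne a haT i) (hl.2 i hi)
      · rw [hb, comp, if_neg hi]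
        have h1 : c i = 0 := by
          by_contra h0
          exact hi (hc i h0)
        rw [← hl.1.2] at h1
        simp only [mdeg, Pi.add_apply] at h1
        have h2 : sv a x i = 0 := by omega
        rw [sv] at h2
        by_cases h3 : x i = a i
        · rcases ha i with h4 | h4
          · exact absurd h4 hi
          · rw [h3, h4]
        · rw [if_pos h3] at h2
          exact absurd h2 one_ne_zero
    refine ⟨hx, ?_, ?_⟩
    · rw [← hx, ← hl.1.2]
      rfl
    · rw [← hx]
      exact hl.1.1.2.2
  by_cases hemp : ∃ l, l ∈ Col T F a c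
  · obtain ⟨l0, hl0⟩ := hemp
    cases l0 with
    | nil => exact absurd hl0.2 (by simp [Hd])
    | cons x0 t0 =>
      obtain ⟨hx0, hc0, _⟩ := key x0 t0 hl0
      have hbij : Set.BijOn (fun t => b :: t) (XX T b (mdeg b t0)) (Col T F a c) := by
        refine ⟨?_, ?_, ?_⟩
        · intro t ht
          refine ⟨⟨⟨?_, ?_, ht.1⟩, ?_⟩, ?_⟩
          · rw [← hx0]
            exact hl0.1.1.1
          · rw [← hx0]
            exact hl0.1.1.2.1
          · rw [hc0, mdeg, ht.2]
          · rw [← hx0]
            exact hl0.2
        · intro t _ t' _ h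
          exact (List.cons.inj h).2
        · intro l hl
          cases l with
          | nil => exact absurd hl.2 (by simp [Hd])
          | cons x t =>
            obtain ⟨h1, h2, h3⟩ := key x t hl
            refine ⟨t, ⟨h3, ?_⟩, by rw [h1]⟩
            rw [hc0] at h2
            exact (add_left_cancel h2).symm
      apply transfer_tf hbij (s := -1) (by norm_num) _ (hTF _ hc0)
      intro t ht t' ht'
      rw [dL_single, dL_single, dB, Finsupp.sub_apply, Finsupp.neg_apply, consL_apply_cons]
      have : mB a b t (b :: t') = 0 := by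
        cases t with
        | nil => rw [mB, Finsupp.zero_apply]
        | cons y t =>
          rw [mB]
          by_cases hg : Geod a b y
          · rw [if_pos hg, Finsupp.single_apply, if_neg]
            intro h
            exact ht.1.2.1 (List.cons.inj h).1
          · rw [if_neg hg, Finsupp.zero_apply]
      rw [this]
      ring
  · apply Acyc.tf
    apply acyc_empty
    intro l hl
    exact hemp ⟨l, hl⟩

end Pool.Agent.Work.MP_95f31c_co
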