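import Mathlib

/-! Definitions for the statement: arrangements, tope graphs, magnitude homology. -/

namespace Pool.Agent.Work.MP_95f31c_co

/-- A (real, central) arrangement: a finite set of linear hyperplanes in `ℝ^d`. -/
structure Arrangement (d : ℕ) where
  planes : Finset (Submodule ℝ (EuclideanSpace ℝ (Fin d)))
  codim_one : ∀ H ∈ planes, Module.finrank ℝ H + 1 = d

/-- The complement of the union of the hyperplanes. -/
def Arrangement.compl {d : ℕ} (A : Arrangement d) : Set (EuclideanSpace ℝ (Fin d)) :=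
  {x | ∀ H ∈ A.planes, x ∉ H}

/-- The chambers: connected components of the complement. -/
abbrev Arrangement.Chamber {d : ℕ} (A : Arrangement d) : Type := ConnectedComponents A.compl

/-- The hyperplane `H` separates the chambers `C` and `D`: every segment from a point of `C` to
a point of `D` meets `H`. -/
def Arrangement.Separates {d : ℕ} (A : Arrangement d)
    (H : Submodule ℝ (EuclideanSpace ℝ (Fin d))) (C D : A.Chamber) : Prop :=
  ∀ x y : A.compl, (x : A.Chamber) = C → (y : A.Chamber) = D →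
    ∃ z ∈ segment ℝ (x : EuclideanSpace ℝ (Fin d)) (y : EuclideanSpace ℝ (Fin d)), z ∈ H

/-- The tope graph: chambers are adjacent when exactly one hyperplane separates them. -/
def Arrangement.topeGraph {d : ℕ} (A : Arrangement d) : SimpleGraph A.Chamber where
  Adj C D := ∃! H, H ∈ A.planes ∧ A.Separates H C D
  symm := ⟨by
    rintro C D ⟨H, ⟨hH, hs⟩, huniq⟩
    refine ⟨H, ⟨hH, fun x y hx hy => ?_⟩, fun H' ⟨hH', hs'⟩ => huniq H' ⟨hH', fun x y hx hy => ?_⟩⟩
    · rw [segment_symm]
      exact hs y x hy hx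
    · rw [segment_symm]
      exact hs' y x hy hx⟩
  loopless := ⟨by
    rintro C ⟨H, ⟨hH, hs⟩, _⟩
    obtain ⟨x, rfl⟩ := ConnectedComponents.surjective_coe C
    obtain ⟨z, hz, hzH⟩ := hs x x rfl rfl
    rw [segment_same, Set.mem_singleton_iff] at hz
    rw [hz] at hzH
    exact x.2 H hH hzH⟩

section magnitude

variable {V : Type} (G : SimpleGraph V)

/-- The tuples `(x_0, ..., x_k)` with consecutive entries distinct and total length `l`. -/
def IsGen (k l : ℕ) (x : Fin (k + 1) → V) : Prop :=
  (∀ i : Fin k, x i.castSucc ≠ x i.succ) ∧ ∑ i : Fin k, G.dist (x i.castSucc) (x i.succ) = l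

/-- The magnitude chain group `MC_{k,l}`: the free abelian group on the tuples above, realised
as the group of finitely supported integer functions supported on these tuples. -/
noncomputable def MC (k l : ℕ) : Submodule ℤ ((Fin (k + 1) → V) →₀ ℤ) :=
  Finsupp.supported ℤ ℤ {x | IsGen G k l x}

open Classical in
/-- The map `∂_{j+1}` on a tuple `(x_0, ..., x_{k+1})`, `0 ≤ j < k`: delete `x_{j+1}` if
`d(x_j, x_{j+2}) = d(x_j, x_{j+1}) + d(x_{j+1}, x_{j+2})`, and zero otherwise. -/
noncomputable def face {k : ℕ} (x : Fin (k + 2) → V) (j : Fin k) : (Fin (k + 1) → V) →₀ ℤ :=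
  if G.dist (x j.castSucc.castSucc) (x j.succ.succ) =
      G.dist (x j.castSucc.castSucc) (x j.castSucc.succ) +
        G.dist (x j.castSucc.succ) (x j.succ.succ)
  then Finsupp.single (fun i => x (j.castSucc.succ.succAbove i)) 1 else 0

/-- The differential `∂ = ∑_{i=1}^{k} (-1)^i ∂_i` on tuples `(x_0, ..., x_{k+1})`. -/
noncomputable def bd (k : ℕ) : ((Fin (k + 2) → V) →₀ ℤ) →ₗ[ℤ] ((Fin (k + 1) → V) →₀ ℤ) :=
  Finsupp.linearCombination ℤ (fun x => ∑ j : Fin k, (-1 : ℤ) ^ (j.val + 1) • face G x j)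

/-- Cycles in `MC_{k,l}`. -/
noncomputable def cycles : (k l : ℕ) → Submodule ℤ ((Fin (k + 1) → V) →₀ ℤ)
  | 0, l => MC G 0 l
  | k + 1, l => MC G (k + 1) l ⊓ LinearMap.ker (bd G k)

/-- Boundaries of `MC_{k+1,l}` in degree `k`. -/
noncomputable def boundaries (k l : ℕ) : Submodule ℤ ((Fin (k + 1) → V) →₀ ℤ) :=
  (MC G (k + 1) l).map (bd G k)

/-- Magnitude homology `MH_{k,l}`: cycles modulo boundaries. -/
abbrev MH (k l : ℕ) : Type :=
  ↥(cycles G k l) ⧸ (boundaries G k l).submoduleOf (cycles G k l)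

end magnitude

end Pool.Agent.Work.MP_95f31c_co
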