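import Pool.Agent.Work.MP_95f31c_co.Rows

/-! The cell system of a finite family of linear forms. -/

namespace Pool.Agent.Work.MP_95f31c_co

section linalg

variable {V : Type} [AddCommGroup V] [Module ℝ V] [FiniteDimensional ℝ V]

theorem finrank_inf_ker (U : Submodule ℝ V) (κ : V →ₗ[ℝ] ℝ) (h : ¬ U ≤ LinearMap.ker κ) :
    Module.finrank ℝ ↥(U ⊓ LinearMap.ker κ) + 1 = Module.finrank ℝ U := by
  have hne : κ.comp U.subtype ≠ 0 := by
    intro h0
    apply h
    intro x hx
    have := LinearMap.congr_fun h0 ⟨x, hx⟩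
    simpa using this
  have h1 := LinearMap.finrank_range_add_finrank_ker (κ.comp U.subtype)
  have h2 : LinearMap.range (κ.comp U.subtype) = ⊤ :=
    LinearMap.range_eq_top.2 (LinearMap.surjective hne)
  rw [h2, finrank_top, Module.finrank_self] at h1
  have h3 : (LinearMap.ker (κ.comp U.subtype)).map U.subtype = U ⊓ LinearMap.ker κ := by
    rw [LinearMap.ker_comp, Submodule.map_comap_subtype]
  have h4 : Module.finrank ℝ ↥((LinearMap.ker (κ.comp U.subtype)).map U.subtype) =
      Module.finrank ℝ ↥(LinearMap.ker (κ.comp U.subtype)) :=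
    Submodule.finrank_map_subtype_eq U _
  rw [← h3, h4]
  omega

theorem codim_one_decomp {N L : Submodule ℝ V} (hNL : N ≤ L)
    (hd : Module.finrank ℝ L = Module.finrank ℝ N + 1) {x : V} (hx : x ∈ L) (hxN : x ∉ N)
    {y : V} (hy : y ∈ L) : ∃ c : ℝ, y - c • x ∈ N := by
  have hle : N ⊔ Submodule.span ℝ {x} ≤ L := by
    rw [sup_le_iff, Submodule.span_le, Set.singleton_subset_iff]
    exact ⟨hNL, hx⟩
  have hlt : N < N ⊔ Submodule.span ℝ {x} := by
    rw [lt_iff_le_and_ne]
    refine ⟨le_sup_left, fun h => hxN ?_⟩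
    rw [h]
    exact Submodule.mem_sup_right (Submodule.mem_span_singleton_self x)
  have h1 := Submodule.finrank_lt_finrank_of_lt hlt
  have heq : N ⊔ Submodule.span ℝ {x} = L := by
    apply Submodule.eq_of_le_of_finrank_le hle
    omega
  rw [← heq, Submodule.mem_sup] at hy
  obtain ⟨n, hn, z, hz, rfl⟩ := hy
  obtain ⟨c, rfl⟩ := Submodule.mem_span_singleton.1 hz
  exact ⟨c, by simpa using hn⟩

end linalg

variable {V : Type} [AddCommGroup V] [Module ℝ V] [FiniteDimensional ℝ V]
  {ι : Type} (f : ι → (V →ₗ[ℝ] ℝ))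

/-- sign vector of a point -/
noncomputable def sgn (x : V) : ι → SignType := fun i => SignType.sign (f i x)

/-- flats -/
noncomputable def flat (s : Finset ι) : Submodule ℝ V := ⨅ i ∈ s, LinearMap.ker (f i)

omit [FiniteDimensional ℝ V] in
theorem mem_flat {s : Finset ι} {x : V} : x ∈ flat f s ↔ ∀ i ∈ s, f i x = 0 := by
  simp [flat, Submodule.mem_iInf]

theorem pick [Finite ι] (W : Submodule ℝ V) : ∃ κ : V →ₗ[ℝ] ℝ, ∀ s : Finset ι, flat f s ⊓ W ≠ ⊥ →
    ¬ (flat f s ⊓ W ≤ LinearMap.ker κ) := by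
  by_contra hcon
  push Not at hcon
  have hcov : (⋃ s : {s : Finset ι // flat f s ⊓ W ≠ ⊥},
      ((flat f s.1 ⊓ W).dualAnnihilator : Set (Module.Dual ℝ V))) = Set.univ := by
    rw [Set.eq_univ_iff_forall]
    intro κ
    obtain ⟨s, hs, hle⟩ := hcon κ
    rw [Set.mem_iUnion]
    refine ⟨⟨s, hs⟩, ?_⟩
    rw [SetLike.mem_coe, Submodule.mem_dualAnnihilator]
    intro w hw
    exact LinearMap.mem_ker.1 (hle hw)
  obtain ⟨⟨s, hs⟩, htop⟩ := Subspace.exists_eq_top_of_iUnion_eq_univ hcov
  apply hs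
  rw [Submodule.eq_bot_iff]
  intro x hx
  rw [← Module.forall_dual_apply_eq_zero_iff ℝ x]
  intro φ
  have : φ ∈ (flat f s ⊓ W).dualAnnihilator := by
    rw [htop]
    exact Submodule.mem_top
  exact (Submodule.mem_dualAnnihilator φ).1 this x hx

/-- a chosen generic functional -/
noncomputable def pickK [Finite ι] (W : Submodule ℝ V) : V →ₗ[ℝ] ℝ := (pick f W).choose

/-- the generic flag -/
noncomputable def WW [Finite ι] : ℕ → Submodule ℝ V
  | 0 => ⊤
  | j + 1 => WW j ⊓ LinearMap.ker (pickK f (WW j))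

theorem dimW [Finite ι] (s : Finset ι) (j : ℕ) (hj : j ≤ Module.finrank ℝ (flat f s)) :
    Module.finrank ℝ ↥(flat f s ⊓ WW f j) + j = Module.finrank ℝ (flat f s) := by
  induction j with
  | zero => rw [WW, inf_top_eq, add_zero]
  | succ j ih =>
    have h1 := ih (by omega)
    have hne : flat f s ⊓ WW f j ≠ ⊥ := by
      intro h0
      rw [h0, finrank_bot] at h1
      omega
    have h2 := (pick f (WW f j)).choose_spec s hne
    have h3 := finrank_inf_ker (flat f s ⊓ WW f j) (pickK f (WW f j)) h2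
    rw [WW, ← inf_assoc]
    omega

theorem exists_vv [Finite ι] (s : Finset ι) (hs : 1 ≤ Module.finrank ℝ (flat f s)) :
    ∃ v, v ∈ flat f s ⊓ WW f (Module.finrank ℝ (flat f s) - 1) ∧
      pickK f (WW f (Module.finrank ℝ (flat f s) - 1)) v = 1 := by
  have h1 := dimW f s (Module.finrank ℝ (flat f s) - 1) (by omega)
  have hne : flat f s ⊓ WW f (Module.finrank ℝ (flat f s) - 1) ≠ ⊥ := by
    intro h0
    rw [h0, finrank_bot] at h1
    omega
  have h2 := (pick f (WW f (Module.finrank ℝ (flat f s) - 1))).choose_spec s hne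
  rw [SetLike.not_le_iff_exists] at h2
  obtain ⟨x, hx, hxk⟩ := h2
  have hxk' : pickK f (WW f (Module.finrank ℝ (flat f s) - 1)) x ≠ 0 := hxk
  refine ⟨(pickK f (WW f (Module.finrank ℝ (flat f s) - 1)) x)⁻¹ • x,
    Submodule.smul_mem _ _ hx, ?_⟩
  rw [map_smul, smul_eq_mul, inv_mul_cancel₀ hxk']

open Classical in
/-- the distinguished vector of a flat -/
noncomputable def vv [Finite ι] (s : Finset ι) : V :=
  if h : 1 ≤ Module.finrank ℝ (flat f s) then (exists_vv f s h).choose else 0

theorem vv_mem [Finite ι] (s : Finset ι) (hs : 1 ≤ Module.finrank ℝ (flat f s)) :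
    vv f s ∈ flat f s := by
  rw [vv, dif_pos hs]
  exact ((exists_vv f s hs).choose_spec.1).1

theorem vv_memW [Finite ι] (s : Finset ι) (hs : 1 ≤ Module.finrank ℝ (flat f s)) :
    vv f s ∈ WW f (Module.finrank ℝ (flat f s) - 1) := by
  rw [vv, dif_pos hs]
  exact ((exists_vv f s hs).choose_spec.1).2

theorem vv_pick [Finite ι] (s : Finset ι) (hs : 1 ≤ Module.finrank ℝ (flat f s)) :
    pickK f (WW f (Module.finrank ℝ (flat f s) - 1)) (vv f s) = 1 := by
  rw [vv, dif_pos hs]
  exact (exists_vv f s hs).choose_spec.2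

/-- the distinguished vector does not lie in a smaller flat of codimension one -/
theorem vv_not_mem [Finite ι] (s t : Finset ι)
    (hd : Module.finrank ℝ (flat f s) = Module.finrank ℝ (flat f t) + 1) :
    vv f s ∉ flat f t := by
  intro h
  have hs : 1 ≤ Module.finrank ℝ (flat f s) := by omega
  have h1 := dimW f t (Module.finrank ℝ (flat f s) - 1) (by omega)
  have h2 : Module.finrank ℝ ↥(flat f t ⊓ WW f (Module.finrank ℝ (flat f s) - 1)) = 0 := by omega
  have h3 := Submodule.finrank_eq_zero.1 h2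
  have h4 : vv f s ∈ flat f t ⊓ WW f (Module.finrank ℝ (flat f s) - 1) := ⟨h, vv_memW f s hs⟩
  rw [h3, Submodule.mem_bot] at h4
  have h5 := vv_pick f s hs
  rw [h4, map_zero] at h5
  exact absurd h5 zero_ne_one

omit [FiniteDimensional ℝ V] in
theorem sgn_zero_iff {x : V} {i : ι} : sgn f x i = 0 ↔ f i x = 0 := by
  rw [sgn, sign_eq_zero_iff]

omit [FiniteDimensional ℝ V] in
/-- composition is realised by a small displacement -/
theorem sgn_comp [Finite ι] (x y : V) : ∃ z, sgn f z = comp (sgn f x) (sgn f y) := by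
  have h : ∀ i, ∀ᶠ ε : ℝ in nhdsWithin 0 (Set.Ioi 0),
      SignType.sign (f i x + ε * f i y) = comp (sgn f x) (sgn f y) i := by
    intro i
    by_cases hx : f i x = 0
    · have hx' : sgn f x i = 0 := (sgn_zero_iff f).2 hx
      filter_upwards [self_mem_nhdsWithin] with ε hε
      rw [comp, if_pos hx', hx, zero_add, sign_mul, sign_pos (show (0 : ℝ) < ε from hε), one_mul]
      rfl
    · have hx' : sgn f x i ≠ 0 := fun h => hx ((sgn_zero_iff f).1 h)
      have hc : Filter.Tendsto (fun ε : ℝ => f i x + ε * f i y) (nhdsWithin 0 (Set.Ioi 0))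
          (nhds (f i x)) := by
        have : Filter.Tendsto (fun ε : ℝ => f i x + ε * f i y) (nhds 0)
            (nhds (f i x + 0 * f i y)) := by
          apply Continuous.tendsto
          fun_prop
        rw [zero_mul, add_zero] at this
        exact this.mono_left nhdsWithin_le_nhds
      rcases lt_or_gt_of_ne hx with h | h
      · filter_upwards [hc.eventually (gt_mem_nhds h)] with ε hε
        rw [comp, if_neg hx', sgn, sign_neg h, sign_neg hε]
      · filter_upwards [hc.eventually (lt_mem_nhds h)] with ε hε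
        rw [comp, if_neg hx', sgn, sign_pos h, sign_pos hε]
  obtain ⟨ε, hε⟩ := (Filter.eventually_all.2 h).exists
  refine ⟨x + ε • y, ?_⟩
  funext i
  rw [sgn, map_add, map_smul, smul_eq_mul]
  exact hε i

omit [FiniteDimensional ℝ V] in
theorem sgn_neg' (x : V) : sgn f (-x) = - sgn f x := by
  funext i
  rw [sgn, map_neg, Pi.neg_apply, sgn, Left.sign_neg]

variable [Fintype ι] [DecidableEq ι]

/-- the flat of a sign vector -/
noncomputable def fl (F : ι → SignType) : Submodule ℝ V := flat f (zs F)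

omit [FiniteDimensional ℝ V] [DecidableEq ι] in
theorem mem_fl {F : ι → SignType} {x : V} : x ∈ fl f F ↔ ∀ i, F i = 0 → f i x = 0 := by
  rw [fl, mem_flat]
  constructor
  · intro h i hi
    exact h i (by simpa [zs] using hi)
  · intro h i hi
    exact h i (by simpa [zs] using hi)

omit [FiniteDimensional ℝ V] [DecidableEq ι] in
theorem mem_fl_self (x : V) : x ∈ fl f (sgn f x) := by
  rw [mem_fl]
  intro i hi
  exact (sgn_zero_iff f).1 hi

omit [FiniteDimensional ℝ V] [DecidableEq ι] in
theorem fl_mono {F G : ι → SignType} (h : ∀ i, G i = 0 → F i = 0) : fl f F ≤ fl f G := by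
  intro x hx
  rw [mem_fl] at hx ⊢
  intro i hi
  exact hx i (h i hi)

omit [DecidableEq ι] in
theorem dm_lt {F : ι → SignType} {x : V} (h : ∀ i, sgn f x i = 0 → F i = 0)
    (hne : ∃ i, F i = 0 ∧ sgn f x i ≠ 0) :
    Module.finrank ℝ (fl f F) < Module.finrank ℝ (fl f (sgn f x)) := by
  apply Submodule.finrank_lt_finrank_of_lt
  rw [lt_iff_le_and_ne]
  refine ⟨fl_mono f h, fun heq => ?_⟩
  obtain ⟨i, hi, hi'⟩ := hne
  have h1 := mem_fl_self f x
  rw [← heq, mem_fl] at h1
  exact hi' ((sgn_zero_iff f).2 (h1 i hi))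

omit [Fintype ι] [DecidableEq ι] in
theorem face_ne {F G : ι → SignType} (h : Face F G) (hne : F ≠ G) : ∃ i, F i = 0 ∧ G i ≠ 0 := by
  by_contra hcon
  push Not at hcon
  apply hne
  funext i
  rcases h i with h1 | h1
  · rw [h1, hcon i h1]
  · exact h1

/-! ### the two intermediate cells -/

omit [FiniteDimensional ℝ V] [Fintype ι] [DecidableEq ι] in
theorem sign_val {p : V} {i : ι} {c : ℝ} (hc : 0 < c) :
    SignType.sign (f i p * c) = sgn f p i := by
  rw [sign_mul, sign_pos hc, mul_one]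
  rfl

/-- key construction: a cell between `F` and `sgn p` obtained from the extreme slope -/
theorem between_aux {x p q : V} (hF : Face (sgn f x) (sgn f p)) (hq : q ∈ fl f (sgn f p))
    (k0 : ι) (hk0 : sgn f x k0 = 0 ∧ sgn f p k0 ≠ 0)
    (hmax : ∀ k, sgn f x k = 0 → sgn f p k ≠ 0 → f k q / f k p ≤ f k0 q / f k0 p)
    (k1 : ι) (hk1 : sgn f x k1 = 0 ∧ sgn f p k1 ≠ 0) (hlt : f k1 q / f k1 p < f k0 q / f k0 p) :
    ∃ z : V, (∀ i, sgn f x i ≠ 0 → sgn f z i = sgn f x i) ∧
      (∀ i, sgn f x i = 0 → sgn f z i =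
        SignType.sign (f i p * (f k0 q / f k0 p - f i q / f i p))) ∧
      Face (sgn f x) (sgn f z) ∧ Face (sgn f z) (sgn f p) ∧ sgn f z ≠ sgn f x ∧
      sgn f z ≠ sgn f p ∧ sgn f z k0 = 0 := by
  obtain ⟨z, hz⟩ := sgn_comp f x ((f k0 q / f k0 p) • p - q)
  have h1 : ∀ i, sgn f x i ≠ 0 → sgn f z i = sgn f x i := by
    intro i hi
    rw [hz, comp, if_neg hi]
  have hval : ∀ i, f i ((f k0 q / f k0 p) • p - q) = f k0 q / f k0 p * f i p - f i q := by
    intro i
    rw [map_sub, map_smul, smul_eq_mul]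
  have h2 : ∀ i, sgn f x i = 0 → sgn f z i =
      SignType.sign (f i p * (f k0 q / f k0 p - f i q / f i p)) := by
    intro i hi
    rw [hz, comp, if_pos hi, sgn, hval]
    by_cases hp : f i p = 0
    · have hq0 : f i q = 0 := by
        rw [mem_fl] at hq
        exact hq i ((sgn_zero_iff f).2 hp)
      rw [hp, hq0]
      simp
    · congr 1
      field_simp
  have h3 : ∀ i, sgn f x i = 0 → sgn f p i = 0 → sgn f z i = 0 := by
    intro i hi hpi
    rw [h2 i hi, (sgn_zero_iff f).1 hpi, zero_mul, sign_zero]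
  have h4 : sgn f z k0 = 0 := by
    rw [h2 k0 hk0.1, sub_self, mul_zero, sign_zero]
  have h5 : ∀ i, sgn f x i = 0 → sgn f p i ≠ 0 → sgn f z i = 0 ∨ sgn f z i = sgn f p i := by
    intro i hi hpi
    have h6 := hmax i hi hpi
    rcases h6.eq_or_lt with h7 | h7
    · left
      rw [h2 i hi, h7, sub_self, mul_zero, sign_zero]
    · right
      rw [h2 i hi, sign_val f (sub_pos.2 h7)]
  refine ⟨z, h1, h2, ?_, ?_, ?_, ?_, h4⟩
  · intro i
    by_cases hi : sgn f x i = 0
    · exact Or.inl hi
    · exact Or.inr (h1 i hi).symm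
  · intro i
    by_cases hi : sgn f x i = 0
    · by_cases hpi : sgn f p i = 0
      · exact Or.inl (h3 i hi hpi)
      · exact h5 i hi hpi
    · right
      rw [h1 i hi]
      rcases hF i with h | h
      · exact absurd h hi
      · exact h
  · intro heq
    have h8 : sgn f z k1 = sgn f p k1 := by
      rw [h2 k1 hk1.1, sign_val f (sub_pos.2 hlt)]
    rw [heq, hk1.1] at h8
    exact hk1.2 h8.symm
  · intro heq
    rw [heq] at h4
    exact hk0.2 h4

theorem sign_neg_val {a : SignType} (h0 : a ≠ 0) : ¬ (-a = 0 ∨ -a = a) := by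
  revert a
  decide

theorem two_cells {x p : V} (hF : Face (sgn f x) (sgn f p))
    (hd : Module.finrank ℝ (fl f (sgn f p)) = Module.finrank ℝ (fl f (sgn f x)) + 2) :
    ∃ z1 z2 : V, (Face (sgn f x) (sgn f z1) ∧ Face (sgn f z1) (sgn f p) ∧ sgn f z1 ≠ sgn f x ∧
      sgn f z1 ≠ sgn f p) ∧ (Face (sgn f x) (sgn f z2) ∧ Face (sgn f z2) (sgn f p) ∧
      sgn f z2 ≠ sgn f x ∧ sgn f z2 ≠ sgn f p) ∧ sgn f z1 ≠ sgn f z2 ∧
      ∀ y : V, Face (sgn f x) (sgn f y) → Face (sgn f y) (sgn f p) → sgn f y ≠ sgn f x →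
        sgn f y ≠ sgn f p → sgn f y = sgn f z1 ∨ sgn f y = sgn f z2 := by
  classical
  set N := fl f (sgn f x) with hN
  set M := fl f (sgn f p) with hM
  have hxp : sgn f x ≠ sgn f p := by
    intro h
    rw [hN, hM, h] at hd
    omega
  obtain ⟨k2, hk2, hk2'⟩ := face_ne hF hxp
  have hpM : p ∈ M := mem_fl_self f p
  have hNM : N ≤ M := fl_mono f (fun i hi => hF.zero hi)
  have hpN : p ∉ N := by
    intro h
    rw [hN, mem_fl] at h
    exact hk2' ((sgn_zero_iff f).2 (h k2 hk2))
  have hN'M : N ⊔ Submodule.span ℝ {p} ≤ M := by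
    rw [sup_le_iff, Submodule.span_le, Set.singleton_subset_iff]
    exact ⟨hNM, hpM⟩
  have hp0 : p ≠ 0 := by
    rintro rfl
    exact hpN (Submodule.zero_mem N)
  have hN'd : Module.finrank ℝ ↥(N ⊔ Submodule.span ℝ {p}) = Module.finrank ℝ N + 1 := by
    apply le_antisymm
    · have h1 := Submodule.finrank_add_le_finrank_add_finrank N (Submodule.span ℝ {p})
      rw [finrank_span_singleton hp0] at h1
      exact h1
    · apply Submodule.finrank_lt_finrank_of_lt
      rw [lt_iff_le_and_ne]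
      refine ⟨le_sup_left, fun h => hpN ?_⟩
      rw [h]
      exact Submodule.mem_sup_right (Submodule.mem_span_singleton_self p)
  have hN'lt : N ⊔ Submodule.span ℝ {p} < M := by
    rw [lt_iff_le_and_ne]
    refine ⟨hN'M, fun h => ?_⟩
    rw [h] at hN'd
    omega
  obtain ⟨q, hqM, hqN'⟩ := SetLike.exists_of_lt hN'lt
  set K : Finset ι := Finset.univ.filter (fun k => sgn f x k = 0 ∧ sgn f p k ≠ 0) with hK
  have hmemK : ∀ k, k ∈ K ↔ sgn f x k = 0 ∧ sgn f p k ≠ 0 := by
    intro k
    rw [hK, Finset.mem_filter]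
    simp
  have hKne : K.Nonempty := ⟨k2, (hmemK k2).2 ⟨hk2, hk2'⟩⟩
  obtain ⟨ka, hka, hmaxa⟩ := Finset.exists_max_image K (fun k => f k q / f k p) hKne
  obtain ⟨kb, hkb, hminb⟩ := Finset.exists_min_image K (fun k => f k q / f k p) hKne
  have hlt : f kb q / f kb p < f ka q / f ka p := by
    by_contra hcon
    push Not at hcon
    apply hqN'
    have hall : ∀ k ∈ K, f k q / f k p = f ka q / f ka p := by
      intro k hk
      apply le_antisymm (hmaxa k hk)
      exact hcon.trans (hminb k hk)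
    have hqN : q - (f ka q / f ka p) • p ∈ N := by
      rw [hN, mem_fl]
      intro i hi
      rw [map_sub, map_smul, smul_eq_mul]
      by_cases hpi : sgn f p i = 0
      · have h1 : f i q = 0 := by
          rw [hM, mem_fl] at hqM
          exact hqM i hpi
        rw [h1, (sgn_zero_iff f).1 hpi]
        ring
      · have h1 := hall i ((hmemK i).2 ⟨hi, hpi⟩)
        have h2 : f i p ≠ 0 := fun h => hpi ((sgn_zero_iff f).2 h)
        rw [← h1, div_mul_cancel₀ _ h2, sub_self]
    have h3 : q = (q - (f ka q / f ka p) • p) + (f ka q / f ka p) • p := by abel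
    rw [h3]
    exact Submodule.add_mem_sup hqN (Submodule.smul_mem _ _ (Submodule.mem_span_singleton_self p))
  obtain ⟨z1, h11, h12, h13, h14, h15, h16, h17⟩ := between_aux f hF hqM ka ((hmemK ka).1 hka)
    (fun k hk hk' => hmaxa k ((hmemK k).2 ⟨hk, hk'⟩)) kb ((hmemK kb).1 hkb) hlt
  have hqM' : -q ∈ fl f (sgn f p) := Submodule.neg_mem _ hqM
  have hneg : ∀ k, f k (-q) / f k p = - (f k q / f k p) := by
    intro k
    rw [map_neg, neg_div]
  obtain ⟨z2, h21, h22, h23, h24, h25, h26, h27⟩ := between_aux f hF hqM' kb ((hmemK kb).1 hkb)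
    (fun k hk hk' => by
      rw [hneg, hneg]
      have := hminb k ((hmemK k).2 ⟨hk, hk'⟩)
      linarith) ka ((hmemK ka).1 hka) (by
      rw [hneg, hneg]
      linarith)
  have h22' : ∀ i, sgn f x i = 0 → sgn f z2 i =
        SignType.sign (f i p * (f i q / f i p - f kb q / f kb p)) := by
    intro i hi
    rw [h22 i hi, hneg, hneg]
    congr 2
    ring
  refine ⟨z1, z2, ⟨h13, h14, h15, h16⟩, ⟨h23, h24, h25, h26⟩, ?_, ?_⟩
  · intro heq
    have h1 : sgn f z2 ka = 0 := by rw [← heq]; exact h17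
    rw [h22' ka ((hmemK ka).1 hka).1, sign_val f (sub_pos.2 hlt)] at h1
    exact ((hmemK ka).1 hka).2 h1
  · intro y hxy hyp hyx hyp'
    have hyM : y ∈ M := by
      rw [hM, mem_fl]
      intro i hi
      exact (sgn_zero_iff f).1 (hyp.zero hi)
    obtain ⟨t, ht⟩ := codim_one_decomp hN'M (by omega) hqM hqN' hyM
    rw [Submodule.mem_sup] at ht
    obtain ⟨n, hn, w, hw, hnw⟩ := ht
    obtain ⟨s, rfl⟩ := Submodule.mem_span_singleton.1 hw
    have hyv : ∀ k, sgn f x k = 0 → sgn f p k ≠ 0 →
        f k y = f k p * (s + t * (f k q / f k p)) := by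
      intro k hk hk'
      have h1 : f k n = 0 := by
        rw [hN, mem_fl] at hn
        exact hn k hk
      have h2 : f k p ≠ 0 := fun h => hk' ((sgn_zero_iff f).2 h)
      have h3 : y = n + s • p + t • q := by
        rw [hnw]; abel
      rw [h3, map_add, map_add, map_smul, map_smul, smul_eq_mul, smul_eq_mul, h1]
      field_simp
      ring
    have hnonneg : ∀ k, sgn f x k = 0 → sgn f p k ≠ 0 → 0 ≤ s + t * (f k q / f k p) := by
      intro k hk hk'
      by_contra hcon
      push Not at hcon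
      have h1 : sgn f y k = - sgn f p k := by
        rw [sgn, hyv k hk hk', sign_mul, sign_neg hcon, mul_neg, mul_one]
        rfl
      apply sign_neg_val hk'
      rw [← h1]
      exact hyp k
    obtain ⟨k0, hk0, hk0'⟩ := face_ne hyp hyp'
    obtain ⟨k3, hk3, hk3'⟩ := face_ne hxy (fun h => hyx h.symm)
    have hk0x : sgn f x k0 = 0 := hxy.zero hk0
    have hk3p : sgn f p k3 ≠ 0 := fun h => hk3' (hyp.zero h)
    have hu0 : s + t * (f k0 q / f k0 p) = 0 := by
      have h1 := hyv k0 hk0x hk0'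
      rw [(sgn_zero_iff f).1 hk0] at h1
      have h2 : f k0 p ≠ 0 := fun h => hk0' ((sgn_zero_iff f).2 h)
      rcases mul_eq_zero.1 h1.symm with h | h
      · exact absurd h h2
      · exact h
    have hu3 : s + t * (f k3 q / f k3 p) ≠ 0 := by
      intro h
      apply hk3'
      rw [sgn_zero_iff, hyv k3 hk3 hk3p, h, mul_zero]
    have hoff : ∀ i, sgn f x i ≠ 0 → sgn f y i = sgn f x i := by
      intro i hi
      rcases hxy i with h | h
      · exact absurd h hi
      · exact h.symm
    rcases lt_trichotomy t 0 with htneg | ht0 | htpos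
    · left
      have hk0max : f k0 q / f k0 p = f ka q / f ka p := by
        apply le_antisymm (hmaxa k0 ((hmemK k0).2 ⟨hk0x, hk0'⟩))
        have h1 := hnonneg ka ((hmemK ka).1 hka).1 ((hmemK ka).1 hka).2
        have h2 : t * (f k0 q / f k0 p) ≤ t * (f ka q / f ka p) := by linarith
        exact (mul_le_mul_left_of_neg htneg).1 h2
      funext i
      by_cases hi : sgn f x i = 0
      · rw [h12 i hi]
        by_cases hpi : sgn f p i = 0
        · rw [(sgn_zero_iff f).1 hpi, zero_mul, sign_zero]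
          exact hyp.zero hpi
        · rw [sgn, hyv i hi hpi]
          have h1 : f i p * (s + t * (f i q / f i p)) =
              (f i p * (f ka q / f ka p - f i q / f i p)) * (-t) := by
            rw [← hk0max]
            have : s = - (t * (f k0 q / f k0 p)) := by linarith
            rw [this]
            ring
          rw [h1, sign_mul _ (-t), sign_pos (show (0 : ℝ) < -t by linarith), mul_one]
      · rw [hoff i hi, h11 i hi]
    · exfalso
      apply hu3
      rw [ht0] at hu0 ⊢
      linarith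
    · right
      have hk0min : f k0 q / f k0 p = f kb q / f kb p := by
        apply le_antisymm _ (hminb k0 ((hmemK k0).2 ⟨hk0x, hk0'⟩))
        have h1 := hnonneg kb ((hmemK kb).1 hkb).1 ((hmemK kb).1 hkb).2
        have h2 : t * (f k0 q / f k0 p) ≤ t * (f kb q / f kb p) := by linarith
        exact (mul_le_mul_iff_right₀ htpos).1 h2
      funext i
      by_cases hi : sgn f x i = 0
      · rw [h22' i hi]
        by_cases hpi : sgn f p i = 0
        · rw [(sgn_zero_iff f).1 hpi, zero_mul, sign_zero]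
          exact hyp.zero hpi
        · rw [sgn, hyv i hi hpi]
          have h1 : f i p * (s + t * (f i q / f i p)) =
              (f i p * (f i q / f i p - f kb q / f kb p)) * t := by
            rw [← hk0min]
            have : s = - (t * (f k0 q / f k0 p)) := by linarith
            rw [this]
            ring
          rw [h1, sign_mul _ t, sign_pos htpos, mul_one]
      · rw [hoff i hi, h21 i hi]

/-! ### incidence numbers -/

/-- the condition for a nonzero incidence number -/
def Inc (F G : ι → SignType) : Prop :=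
  (∃ x, sgn f x = F) ∧ (∃ y, sgn f y = G) ∧ Face F G ∧ F ≠ G ∧
    Module.finrank ℝ (fl f G) = Module.finrank ℝ (fl f F) + 1

open Classical in
/-- the incidence numbers -/
noncomputable def inc (F G : ι → SignType) : ℤ :=
  if Inc f F G then (if ∃ x, sgn f x = G ∧ vv f (zs G) - x ∈ fl f F then 1 else -1) else 0

theorem inc_cases {F G : ι → SignType} (h : Inc f F G) :
    ∃ s : ℤ, (s = 1 ∨ s = -1) ∧ inc f F G = s ∧
      ∃ x, sgn f x = G ∧ vv f (zs G) - (s : ℝ) • x ∈ fl f F := by
  classical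
  by_cases hex : ∃ x, sgn f x = G ∧ vv f (zs G) - x ∈ fl f F
  · refine ⟨1, Or.inl rfl, ?_, ?_⟩
    · rw [inc, if_pos h, if_pos hex]
    · obtain ⟨x, hx, hx'⟩ := hex
      exact ⟨x, hx, by simpa using hx'⟩
  · refine ⟨-1, Or.inr rfl, ?_, ?_⟩
    · rw [inc, if_pos h, if_neg hex]
    · obtain ⟨_, ⟨y, rfl⟩, hf, hne, hd⟩ := h
      obtain ⟨k, hk, hk'⟩ := face_ne hf hne
      have hyN : y ∉ fl f F := by
        intro hy
        rw [mem_fl] at hy
        exact hk' ((sgn_zero_iff f).2 (hy k hk))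
      have hle : fl f F ≤ fl f (sgn f y) := fl_mono f (fun i hi => hf.zero hi)
      have hv : vv f (zs (sgn f y)) ∈ fl f (sgn f y) := vv_mem f _ (by
        have : Module.finrank ℝ (flat f (zs (sgn f y))) = Module.finrank ℝ (fl f F) + 1 := hd
        omega)
      obtain ⟨c, hc⟩ := codim_one_decomp hle hd (mem_fl_self f y) hyN hv
      have hvN : vv f (zs (sgn f y)) ∉ fl f F := vv_not_mem f _ _ hd
      rcases lt_trichotomy c 0 with h1 | h1 | h1
      · refine ⟨(-c) • y, ?_, ?_⟩
        · funext i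
          rw [sgn, map_smul, smul_eq_mul, sign_mul, sign_pos (show (0 : ℝ) < -c by linarith),
            one_mul]
          rfl
        · simpa using hc
      · exfalso
        rw [h1, zero_smul, sub_zero] at hc
        exact hvN hc
      · exfalso
        apply hex
        refine ⟨c • y, ?_, hc⟩
        funext i
        rw [sgn, map_smul, smul_eq_mul, sign_mul, sign_pos h1, one_mul]
        rfl

theorem inc_ne {F G : ι → SignType} (h : inc f F G ≠ 0) : Inc f F G := by
  classical
  by_contra hcon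
  apply h
  rw [inc, if_neg hcon]

theorem sgn_rel {δ a b : ℝ} {t s : ℤ} (ht : t = 1 ∨ t = -1) (hs : s = 1 ∨ s = -1) (ha : a ≠ 0)
    (hb : SignType.sign b = 0 ∨ SignType.sign b = SignType.sign a) (hδ : δ ≠ 0)
    (h : δ * (t * a) = s * b) : (0 < δ → t = s) ∧ (δ < 0 → t = -s) := by
  have hb0 : b ≠ 0 := by
    rintro rfl
    rw [mul_zero] at h
    rcases mul_eq_zero.1 h with h1 | h1
    · exact hδ h1
    · rcases mul_eq_zero.1 h1 with h2 | h2
      · rcases ht with h3 | h3 <;> rw [h3] at h2 <;> norm_num at h2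
      · exact ha h2
  have hb' : SignType.sign b = SignType.sign a := by
    rcases hb with h1 | h1
    · exact absurd (sign_eq_zero_iff.1 h1) hb0
    · exact h1
  have hab : 0 < a * b := by
    rcases lt_or_gt_of_ne ha with h1 | h1
    · rw [sign_neg h1] at hb'
      exact mul_pos_of_neg_of_neg h1 (sign_eq_neg_one_iff.1 hb')
    · rw [sign_pos h1] at hb'
      exact mul_pos h1 (sign_eq_one_iff.1 hb')
  have hbb : 0 < b * b := mul_self_pos.2 hb0
  have h2 : δ * t * (a * b) = s * (b * b) := by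
    calc δ * t * (a * b) = (δ * (t * a)) * b := by ring
      _ = s * b * b := by rw [h]
      _ = s * (b * b) := by ring
  constructor
  · intro h3
    have h4 : 0 < δ * (a * b) := mul_pos h3 hab
    rcases ht with rfl | rfl <;> rcases hs with rfl | rfl
    · rfl
    · exfalso
      push_cast at h2
      linarith
    · exfalso
      push_cast at h2
      linarith
    · rfl
  · intro h3
    have h4 : 0 < (-δ) * (a * b) := mul_pos (by linarith) hab
    rcases ht with rfl | rfl <;> rcases hs with rfl | rfl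
    · exfalso
      push_cast at h2
      linarith
    · rfl
    · rfl
    · exfalso
      push_cast at h2
      linarith

theorem diamond {F H G1 G2 : ι → SignType} (hF1 : Inc f F G1) (hF2 : Inc f F G2)
    (h1H : Inc f G1 H) (h2H : Inc f G2 H) (hne : G1 ≠ G2) :
    inc f F G1 * inc f G1 H + inc f F G2 * inc f G2 H = 0 := by
  obtain ⟨s1, hs1, e1, x1, hx1, hv1⟩ := inc_cases f hF1
  obtain ⟨s2, hs2, e2, x2, hx2, hv2⟩ := inc_cases f hF2
  obtain ⟨t1, ht1, e3, y1, hy1, hw1⟩ := inc_cases f h1H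
  obtain ⟨t2, ht2, e4, y2, hy2, hw2⟩ := inc_cases f h2H
  have hd1 : Module.finrank ℝ (flat f (zs G1)) = Module.finrank ℝ (flat f (zs F)) + 1 :=
    hF1.2.2.2.2
  have hd2 : Module.finrank ℝ (flat f (zs G2)) = Module.finrank ℝ (flat f (zs F)) + 1 :=
    hF2.2.2.2.2
  have hdH : Module.finrank ℝ (flat f (zs H)) = Module.finrank ℝ (flat f (zs G1)) + 1 :=
    h1H.2.2.2.2
  have hf1 := hF1.2.2.1
  have hf2 := hF2.2.2.1
  have hg1 := h1H.2.2.1
  have hg2 := h2H.2.2.1
  set v := vv f (zs H) with hv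
  set v1 := vv f (zs G1) with hvv1
  set v2 := vv f (zs G2) with hvv2
  -- v1 - v2 is a multiple of v
  obtain ⟨m, hm⟩ : ∃ m, Module.finrank ℝ (flat f (zs F)) = m := ⟨_, rfl⟩
  rw [hm] at hd1 hd2
  rw [hd1] at hdH
  have hW1 : v1 ∈ WW f m := by
    have := vv_memW f (zs G1) (by omega)
    rw [hd1] at this
    exact this
  have hW2 : v2 ∈ WW f m := by
    have := vv_memW f (zs G2) (by omega)
    rw [hd2] at this
    exact this
  have hk1 : pickK f (WW f m) v1 = 1 := by
    have := vv_pick f (zs G1) (by omega)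
    rw [hd1] at this
    exact this
  have hk2 : pickK f (WW f m) v2 = 1 := by
    have := vv_pick f (zs G2) (by omega)
    rw [hd2] at this
    exact this
  have hM1 : v1 ∈ flat f (zs H) := by
    have h1 : v1 ∈ fl f G1 := vv_mem f (zs G1) (by omega)
    exact fl_mono f (fun i hi => hg1.zero hi) h1
  have hM2 : v2 ∈ flat f (zs H) := by
    have h1 : v2 ∈ fl f G2 := vv_mem f (zs G2) (by omega)
    exact fl_mono f (fun i hi => hg2.zero hi) h1
  have hmem : v1 - v2 ∈ flat f (zs H) ⊓ WW f (m + 1) := by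
    have hker : v1 - v2 ∈ LinearMap.ker (pickK f (WW f m)) := by
      rw [LinearMap.mem_ker, map_sub, hk1, hk2, sub_self]
    exact ⟨Submodule.sub_mem _ hM1 hM2, Submodule.sub_mem _ hW1 hW2, hker⟩
  have hvmem : v ∈ flat f (zs H) ⊓ WW f (m + 1) := by
    refine ⟨vv_mem f (zs H) (by omega), ?_⟩
    have := vv_memW f (zs H) (by omega)
    rw [hdH] at this
    exact this
  have hv0 : v ∉ (⊥ : Submodule ℝ V) := by
    rw [Submodule.mem_bot]
    intro h0
    have := vv_pick f (zs H) (by omega)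
    rw [← hv, h0, map_zero] at this
    exact absurd this zero_ne_one
  have hfr : Module.finrank ℝ ↥(flat f (zs H) ⊓ WW f (m + 1)) =
      Module.finrank ℝ (⊥ : Submodule ℝ V) + 1 := by
    have := dimW f (zs H) (m + 1) (by omega)
    rw [finrank_bot]
    omega
  obtain ⟨δ, hδ⟩ := codim_one_decomp bot_le hfr hvmem hv0 hmem
  rw [Submodule.mem_bot, sub_eq_zero] at hδ
  -- evaluation on forms vanishing on F
  have hev : ∀ k, F k = 0 → δ * f k v = s1 * f k x1 - s2 * f k x2 := by
    intro k hk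
    rw [mem_fl] at hv1 hv2
    have h1 := hv1 k hk
    have h2 := hv2 k hk
    have h3 := congrArg (f k) hδ
    rw [map_sub, map_smul, smul_eq_mul] at h1 h2 h3
    linarith
  have hδ0 : δ ≠ 0 := by
    rintro rfl
    have hev0 : ∀ k, F k = 0 → (s1 : ℝ) * f k x1 = s2 * f k x2 := by
      intro k hk
      have := hev k hk
      linarith
    obtain ⟨k, hk, hk'⟩ := face_ne hf1 hF1.2.2.2.1
    have h1 := hev0 k hk
    have hG1k : f k x1 ≠ 0 := by
      intro h0
      apply hk'
      rw [← hx1]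
      exact (sgn_zero_iff f).2 h0
    have hs1' : (s1 : ℝ) = 1 ∨ (s1 : ℝ) = -1 := by
      rcases hs1 with rfl | rfl
      · left; norm_num
      · right; norm_num
    have hs2' : (s2 : ℝ) = 1 ∨ (s2 : ℝ) = -1 := by
      rcases hs2 with rfl | rfl
      · left; norm_num
      · right; norm_num
    have hG2k : f k x2 ≠ 0 := by
      intro h0
      rw [h0, mul_zero] at h1
      rcases mul_eq_zero.1 h1 with h2 | h2
      · rcases hs1' with h3 | h3 <;> rw [h3] at h2 <;> norm_num at h2
      · exact hG1k h2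
    have hsg1 : SignType.sign (f k x1) = H k := by
      rcases hg1 k with h2 | h2
      · exact absurd h2 hk'
      · rw [← h2, ← hx1]; rfl
    have hsg2 : SignType.sign (f k x2) = H k := by
      have h4 : G2 k ≠ 0 := by
        rw [← hx2]
        intro h0
        exact hG2k ((sgn_zero_iff f).1 h0)
      rcases hg2 k with h2 | h2
      · exact absurd h2 h4
      · rw [← h2, ← hx2]; rfl
    have hss : (s1 : ℝ) = s2 := by
      have hpos : 0 < f k x1 * f k x2 := by
        rcases lt_or_gt_of_ne hG1k with h5 | h5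
        · rw [sign_neg h5] at hsg1
          rw [← hsg1] at hsg2
          exact mul_pos_of_neg_of_neg h5 (sign_eq_neg_one_iff.1 hsg2)
        · rw [sign_pos h5] at hsg1
          rw [← hsg1] at hsg2
          exact mul_pos h5 (sign_eq_one_iff.1 hsg2)
      have hsq : 0 < f k x2 * f k x2 := mul_self_pos.2 hG2k
      have h6 : (s1 : ℝ) * (f k x1 * f k x2) = s2 * (f k x2 * f k x2) := by
        calc (s1 : ℝ) * (f k x1 * f k x2) = (s1 * f k x1) * f k x2 := by ring
          _ = s2 * f k x2 * f k x2 := by rw [h1]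
          _ = s2 * (f k x2 * f k x2) := by ring
      rcases hs1' with h3 | h3 <;> rcases hs2' with h4 | h4 <;> rw [h3, h4] at h6 ⊢
      · exfalso; linarith
      · exfalso; linarith
    apply hne
    funext i
    by_cases hi : F i = 0
    · have h7 := hev0 i hi
      rw [hss] at h7
      have h8 : f i x1 = f i x2 := by
        rcases hs2' with h4 | h4 <;> rw [h4] at h7 <;> linarith
      rw [← hx1, ← hx2, sgn, sgn, h8]
    · rcases hf1 i with h9 | h9
      · exact absurd h9 hi
      · rcases hf2 i with h10 | h10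
        · exact absurd h10 hi
        · rw [← h9, ← h10]
  -- relation at a form vanishing on G1
  obtain ⟨j, hj, hj'⟩ := face_ne hg1 h1H.2.2.2.1
  have hFj : F j = 0 := hf1.zero hj
  have hrel1 : δ * (t1 * f j y1) = ((-s2 : ℤ) : ℝ) * f j x2 := by
    have h1 := hev j hFj
    have h2 : f j x1 = 0 := by
      rw [← hx1] at hj
      exact (sgn_zero_iff f).1 hj
    rw [mem_fl] at hw1
    have h3 := hw1 j hj
    rw [map_sub, map_smul, smul_eq_mul, sub_eq_zero] at h3
    rw [h2, mul_zero, zero_sub, h3] at h1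
    push_cast
    linarith
  have hA := sgn_rel (δ := δ) (a := f j y1) (b := f j x2) (t := t1) (s := -s2) ht1
    (by rcases hs2 with h | h
        · right; rw [h]
        · left; rw [h]; norm_num)
    (by
      intro h0
      apply hj'
      rw [← hy1]
      exact (sgn_zero_iff f).2 h0)
    (by
      have h1 : SignType.sign (f j x2) = G2 j := by rw [← hx2]; rfl
      have h2 : SignType.sign (f j y1) = H j := by rw [← hy1]; rfl
      rw [h1, h2]
      exact hg2 j) hδ0 hrel1
  obtain ⟨k, hk, hk'⟩ := face_ne hg2 h2H.2.2.2.1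
  have hFk : F k = 0 := hf2.zero hk
  have hrel2 : δ * (t2 * f k y2) = (s1 : ℝ) * f k x1 := by
    have h1 := hev k hFk
    have h2 : f k x2 = 0 := by
      rw [← hx2] at hk
      exact (sgn_zero_iff f).1 hk
    rw [mem_fl] at hw2
    have h3 := hw2 k hk
    rw [map_sub, map_smul, smul_eq_mul, sub_eq_zero] at h3
    rw [h2, mul_zero, sub_zero, h3] at h1
    exact h1
  have hB := sgn_rel (δ := δ) (a := f k y2) (b := f k x1) (t := t2) (s := s1) ht2 hs1
    (by
      intro h0
      apply hk'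
      rw [← hy2]
      exact (sgn_zero_iff f).2 h0)
    (by
      have h1 : SignType.sign (f k x1) = G1 k := by rw [← hx1]; rfl
      have h2 : SignType.sign (f k y2) = H k := by rw [← hy2]; rfl
      rw [h1, h2]
      exact hg1 k) hδ0 hrel2
  rw [e1, e2, e3, e4]
  rcases lt_or_gt_of_ne hδ0 with h | h
  · rw [hA.2 h, hB.2 h]; ring
  · rw [hA.1 h, hB.1 h]; ring

theorem inc_sq (F H : ι → SignType) : ∑ G, inc f F G * inc f G H = 0 := by
  classical
  by_cases hex : ∃ G, inc f F G * inc f G H ≠ 0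
  · obtain ⟨G, hG⟩ := hex
    have h1 := inc_ne f (left_ne_zero_of_mul hG)
    have h2 := inc_ne f (right_ne_zero_of_mul hG)
    obtain ⟨⟨x, hx⟩, _, hf1, hn1, hd1⟩ := h1
    obtain ⟨_, ⟨p, hp⟩, hf2, hn2, hd2⟩ := h2
    have hFace : Face (sgn f x) (sgn f p) := by
      rw [hx, hp]
      exact hf1.trans hf2
    obtain ⟨z1, z2, ⟨a1, a2, a3, a4⟩, ⟨b1, b2, b3, b4⟩, hne, hall⟩ := two_cells f hFace (by
      rw [hx, hp, hd2, hd1])
    rw [hx] at a1 a3 b1 b3
    rw [hp] at a2 a4 b2 b4
    have hdim : ∀ z : V, Face F (sgn f z) → Face (sgn f z) H → sgn f z ≠ F → sgn f z ≠ H →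
        Inc f F (sgn f z) ∧ Inc f (sgn f z) H := by
      intro z c1 c2 c3 c4
      have l1 : Module.finrank ℝ (fl f F) < Module.finrank ℝ (fl f (sgn f z)) := by
        apply dm_lt
        · intro i hi
          exact c1.zero hi
        · exact face_ne c1 (fun h => c3 h.symm)
      have l2 : Module.finrank ℝ (fl f (sgn f z)) < Module.finrank ℝ (fl f H) := by
        rw [← hp] at c2 c4 ⊢
        apply dm_lt
        · intro i hi
          exact c2.zero hi
        · exact face_ne c2 c4
      exact ⟨⟨⟨x, hx⟩, ⟨z, rfl⟩, c1, fun h => c3 h.symm, by omega⟩,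
        ⟨⟨z, rfl⟩, ⟨p, hp⟩, c2, c4, by omega⟩⟩
    have i1 := hdim z1 a1 a2 a3 a4
    have i2 := hdim z2 b1 b2 b3 b4
    rw [Finset.sum_eq_add (sgn f z1) (sgn f z2) hne]
    · exact diamond f i1.1 i2.1 i1.2 i2.2 hne
    · rintro G' _ ⟨g1, g2⟩
      by_contra hcon
      have h1 := inc_ne f (left_ne_zero_of_mul hcon)
      have h2 := inc_ne f (right_ne_zero_of_mul hcon)
      obtain ⟨_, ⟨y, rfl⟩, k1, k2, _⟩ := h1
      obtain ⟨_, _, k3, k4, _⟩ := h2
      rcases hall y (by rw [hx]; exact k1) (by rw [hp]; exact k3)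
        (by rw [hx]; exact fun h => k2 h.symm) (by rw [hp]; exact k4) with h | h
      · exact g1 h
      · exact g2 h
    · intro h
      exact absurd (Finset.mem_univ _) h
    · intro h
      exact absurd (Finset.mem_univ _) h
  · push Not at hex
    exact Finset.sum_eq_zero (fun G _ => hex G)

/-! ### crossing facets -/

theorem first_cross {e p : V} (hz : ∀ i, sgn f e i = 0 ↔ sgn f p i = 0)
    (hne : sgn f e ≠ sgn f p) : ∃ z : V, Face (sgn f z) (sgn f p) ∧ sgn f z ≠ sgn f p ∧
      ∀ i, sgn f z i = 0 → sgn f p i ≠ 0 → sgn f e i ≠ sgn f p i := by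
  classical
  set K : Finset ι := Finset.univ.filter (fun k => sgn f p k ≠ 0) with hK
  have hmemK : ∀ k, k ∈ K ↔ sgn f p k ≠ 0 := by
    intro k
    rw [hK, Finset.mem_filter]
    simp
  obtain ⟨i1, hi1⟩ := Function.ne_iff.1 hne
  have hi1p : sgn f p i1 ≠ 0 := by
    intro h0
    apply hi1
    rw [h0, (hz i1).2 h0]
  have hratio : ∀ i, sgn f p i ≠ 0 → sgn f e i = sgn f p i → 0 < f i e / f i p := by
    intro i hi heq
    have hp : f i p ≠ 0 := fun h => hi ((sgn_zero_iff f).2 h)
    rcases lt_or_gt_of_ne hp with h | h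
    · have h1 : SignType.sign (f i e) = -1 := by
        have : sgn f e i = SignType.sign (f i p) := heq
        rw [sign_neg h] at this
        exact this
      exact div_pos_of_neg_of_neg (sign_eq_neg_one_iff.1 h1) h
    · have h1 : SignType.sign (f i e) = 1 := by
        have : sgn f e i = SignType.sign (f i p) := heq
        rw [sign_pos h] at this
        exact this
      exact div_pos (sign_eq_one_iff.1 h1) h
  have hratio2 : ∀ i, sgn f p i ≠ 0 → sgn f e i ≠ sgn f p i → f i e / f i p < 0 := by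
    intro i hi hne'
    have hp : f i p ≠ 0 := fun h => hi ((sgn_zero_iff f).2 h)
    have hei : sgn f e i ≠ 0 := fun h => hi ((hz i).1 h)
    have hopp := sign_neg_of_ne hei hi hne'
    rcases lt_or_gt_of_ne hp with h | h
    · have h1 : SignType.sign (f i e) = 1 := by
        have : sgn f e i = - SignType.sign (f i p) := hopp
        rw [sign_neg h] at this
        exact this
      exact div_neg_of_pos_of_neg (sign_eq_one_iff.1 h1) h
    · have h1 : SignType.sign (f i e) = -1 := by
        have : sgn f e i = - SignType.sign (f i p) := hopp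
        rw [sign_pos h] at this
        exact this
      exact div_neg_of_neg_of_pos (sign_eq_neg_one_iff.1 h1) h
  obtain ⟨k0, hk0, hmin⟩ := Finset.exists_min_image K (fun k => f k e / f k p)
    ⟨i1, (hmemK i1).2 hi1p⟩
  have hk0neg : f k0 e / f k0 p < 0 :=
    lt_of_le_of_lt (hmin i1 ((hmemK i1).2 hi1p)) (hratio2 i1 hi1p hi1)
  have hval : ∀ i, sgn f p i ≠ 0 → f i (e - (f k0 e / f k0 p) • p) =
      f i p * (f i e / f i p - f k0 e / f k0 p) := by
    intro i hi
    have hp : f i p ≠ 0 := fun h => hi ((sgn_zero_iff f).2 h)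
    rw [map_sub, map_smul, smul_eq_mul]
    field_simp
  refine ⟨e - (f k0 e / f k0 p) • p, ?_, ?_, ?_⟩
  · intro i
    by_cases hi : sgn f p i = 0
    · left
      rw [sgn_zero_iff, map_sub, map_smul, smul_eq_mul, (sgn_zero_iff f).1 hi,
        (sgn_zero_iff f).1 ((hz i).2 hi)]
      ring
    · rcases (hmin i ((hmemK i).2 hi)).eq_or_lt with h | h
      · left
        rw [sgn_zero_iff, hval i hi, ← h, sub_self, mul_zero]
      · right
        rw [sgn, hval i hi, sign_val f (sub_pos.2 h)]
  · intro heq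
    have h1 : sgn f (e - (f k0 e / f k0 p) • p) k0 = 0 := by
      rw [sgn_zero_iff, hval k0 ((hmemK k0).1 hk0), sub_self, mul_zero]
    rw [heq] at h1
    exact (hmemK k0).1 hk0 h1
  · intro i hi hpi heq
    have h1 := hratio i hpi heq
    rw [sgn_zero_iff, hval i hpi] at hi
    have hp : f i p ≠ 0 := fun h => hpi ((sgn_zero_iff f).2 h)
    rcases mul_eq_zero.1 hi with h2 | h2
    · exact hp h2
    · linarith

theorem facet_exists (E : ι → SignType) (hE : ∃ e, sgn f e = E) (g : ι → SignType)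
    (hg : ∃ p, sgn f p = g) (hz : zs E = zs g) (hne : E ≠ g) :
    ∃ h, (∃ z, sgn f z = h) ∧ Face h g ∧ h ≠ g ∧ (zs h \ zs g) ⊆ sep E g ∧
      (∀ F, (∃ y, sgn f y = F) → zs g ⊆ zs F → (∃ i ∈ zs F, i ∈ zs h \ zs g) → zs h ⊆ zs F) ∧
      (∀ W, (∃ w, sgn f w = W) → ∀ E', (∃ e, sgn f e = E') → Face W E' → zs W = zs h →
        zs E' = zs g → inc f W E' * inc f W E' = 1) := by
  classical
  obtain ⟨e, rfl⟩ := hE
  obtain ⟨p, rfl⟩ := hg
  have hz' : ∀ i, sgn f e i = 0 ↔ sgn f p i = 0 := by
    intro i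
    rw [← mem_zs, ← mem_zs, hz]
  obtain ⟨z0, hz1, hz2, hz3⟩ := first_cross f hz' hne
  set HH : Set (ι → SignType) := {h | (∃ z, sgn f z = h) ∧ Face h (sgn f p) ∧ h ≠ sgn f p ∧
    ∀ i, h i = 0 → sgn f p i ≠ 0 → sgn f e i ≠ sgn f p i} with hHH
  obtain ⟨h, ⟨⟨z, rfl⟩, h2, h3, h4⟩, hmin⟩ := Set.exists_min_image HH (fun h => (zs h).card)
    (Set.toFinite HH) ⟨sgn f z0, ⟨z0, rfl⟩, hz1, hz2, hz3⟩
  -- proportionality
  have hprop : ∀ q ∈ fl f (sgn f p), ∀ i, sgn f z i = 0 → sgn f p i ≠ 0 → ∀ j, sgn f z j = 0 →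
      sgn f p j ≠ 0 → f i q / f i p ≤ f j q / f j p := by
    intro q hq i hi hi' j hj hj'
    by_contra hcon
    push Not at hcon
    set K : Finset ι := Finset.univ.filter (fun k => sgn f z k = 0 ∧ sgn f p k ≠ 0) with hK
    have hmemK : ∀ k, k ∈ K ↔ sgn f z k = 0 ∧ sgn f p k ≠ 0 := by
      intro k
      rw [hK, Finset.mem_filter]
      simp
    obtain ⟨k0, hk0, hmax⟩ := Finset.exists_max_image K (fun k => f k q / f k p)
      ⟨i, (hmemK i).2 ⟨hi, hi'⟩⟩
    obtain ⟨z', _, _, c3, c4, c5, c6, _⟩ := between_aux f h2 hq k0 ((hmemK k0).1 hk0)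
      (fun k hk hk' => hmax k ((hmemK k).2 ⟨hk, hk'⟩)) j ⟨hj, hj'⟩
      (lt_of_lt_of_le hcon (hmax i ((hmemK i).2 ⟨hi, hi'⟩)))
    have hmem : sgn f z' ∈ HH := by
      refine ⟨⟨z', rfl⟩, c4, c6, fun i hi => ?_⟩
      exact h4 i (c3.zero hi)
    have h5 := hmin _ hmem
    have h6 : (zs (sgn f z')).card < (zs (sgn f z)).card := by
      apply Finset.card_lt_card
      rw [Finset.ssubset_iff_of_subset]
      · obtain ⟨i, hi, hi'⟩ := face_ne c3 (fun h => c5 h.symm)
        exact ⟨i, mem_zs.2 hi, fun h => hi' (mem_zs.1 h)⟩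
      · intro i hi
        rw [mem_zs] at hi ⊢
        exact c3.zero hi
    omega
  have hzero : ∀ q ∈ fl f (sgn f p), ∀ i, sgn f z i = 0 → sgn f p i ≠ 0 → f i q = 0 →
      ∀ j, sgn f z j = 0 → f j q = 0 := by
    intro q hq i hi hi' h0 j hj
    by_cases hj' : sgn f p j = 0
    · rw [mem_fl] at hq
      exact hq j hj'
    · have h5 := le_antisymm (hprop q hq i hi hi' j hj hj') (hprop q hq j hj hj' i hi hi')
      rw [h0, zero_div] at h5
      have hp : f j p ≠ 0 := fun h => hj' ((sgn_zero_iff f).2 h)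
      rcases div_eq_zero_iff.1 h5.symm with h6 | h6
      · exact h6
      · exact absurd h6 hp
  obtain ⟨i0, hi0, hi0'⟩ := face_ne h2 h3
  have hfl : fl f (sgn f z) = fl f (sgn f p) ⊓ LinearMap.ker (f i0) := by
    apply le_antisymm
    · rw [le_inf_iff]
      refine ⟨fl_mono f (fun i hi => h2.zero hi), fun x hx => ?_⟩
      rw [mem_fl] at hx
      exact hx i0 hi0
    · rintro x ⟨hx1, hx2⟩
      rw [mem_fl]
      intro j hj
      exact hzero x hx1 i0 hi0 hi0' hx2 j hj
  have hdim : Module.finrank ℝ (fl f (sgn f p)) = Module.finrank ℝ (fl f (sgn f z)) + 1 := by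
    rw [hfl, finrank_inf_ker]
    intro hle
    have h5 : p ∈ LinearMap.ker (f i0) := hle (mem_fl_self f p)
    exact hi0' ((sgn_zero_iff f).2 h5)
  refine ⟨sgn f z, ⟨z, rfl⟩, h2, h3, ?_, ?_, ?_⟩
  · intro i hi
    rw [Finset.mem_sdiff, mem_zs, mem_zs] at hi
    rw [mem_sep]
    exact h4 i hi.1 hi.2
  · rintro F ⟨y, rfl⟩ hsub ⟨i, hi, hi'⟩
    rw [Finset.mem_sdiff, mem_zs, mem_zs] at hi'
    have hy : y ∈ fl f (sgn f p) := by
      rw [mem_fl]
      intro k hk
      exact (sgn_zero_iff f).1 (mem_zs.1 (hsub (mem_zs.2 hk)))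
    intro j hj
    rw [mem_zs] at hj ⊢
    rw [mem_zs] at hi
    exact (sgn_zero_iff f).2 (hzero y hy i hi'.1 hi'.2 ((sgn_zero_iff f).1 hi) j hj)
  · intro W hW E' hE' hWE hWz hEz
    have hInc : Inc f W E' := by
      refine ⟨hW, hE', hWE, ?_, ?_⟩
      · rintro rfl
        have : i0 ∈ zs (sgn f p) := by
          rw [← hEz, hWz]
          exact mem_zs.2 hi0
        exact hi0' (mem_zs.1 this)
      · have e1 : fl f W = fl f (sgn f z) := by rw [fl, hWz]; rfl
        have e2 : fl f E' = fl f (sgn f p) := by rw [fl, hEz]; rfl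
        rw [e1, e2, hdim]
    obtain ⟨s, hs, e1, _⟩ := inc_cases f hInc
    rw [e1]
    rcases hs with rfl | rfl <;> norm_num

theorem exists_cellSystem :
    ∃ S : CellSystem ι, S.cells = Set.range (fun (x : V) (i : ι) => SignType.sign (f i x)) := by
  refine ⟨{
    cells := Set.range (fun (x : V) (i : ι) => SignType.sign (f i x))
    comp_mem := ?_
    neg_mem := ?_
    inc := inc f
    par := fun F => (-1) ^ (Module.finrank ℝ (fl f F))
    par_sq := ?_
    inc_par := ?_
    inc_mem := ?_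
    sq := inc_sq f
    facet := ?_ }, rfl⟩
  · rintro F ⟨x, rfl⟩ G ⟨y, rfl⟩
    exact sgn_comp f x y
  · rintro F ⟨x, rfl⟩
    exact ⟨-x, sgn_neg' f x⟩
  · intro F
    rw [← mul_pow]
    norm_num
  · intro F G h
    have := (inc_ne f h).2.2.2.2
    rw [this, pow_succ]
    ring
  · intro F G h
    obtain ⟨h1, h2, h3, h4, _⟩ := inc_ne f h
    exact ⟨h1, h2, h3, h4⟩
  · intro E hE g hg hz hne
    obtain ⟨h, a1, a2, a3, a4, a5, a6⟩ := facet_exists f E hE g hg hz hne
    exact ⟨h, a1, a2, a3, a4, a5, fun W hW E' hE' => a6 W hW E' hE'⟩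

end Pool.Agent.Work.MP_95f31c_co
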