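import Pool.Agent.Work.MP_95f31c_co.Rows

/-! The magnitude differential on lists of sign vectors and the gate homotopy. -/

namespace Pool.Agent.Work.MP_95f31c_co

/-- chains: the free abelian group on lists of sign vectors -/
abbrev Ch (ι : Type) := List (ι → SignType) →₀ ℤ

variable {ι : Type}

/-- `a, x, y` is geodesic for the Hamming metric -/
def Geod (a x y : ι → SignType) : Prop := ∀ i, x i = a i ∨ x i = y i

theorem geod_assoc {a x y w : ι → SignType} :
    (Geod x y w ∧ Geod a x w) ↔ (Geod a x y ∧ Geod a y w) := by
  constructor
  · rintro ⟨h1, h2⟩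
    refine ⟨fun i => ?_, fun i => ?_⟩
    · rcases h2 i with h | h
      · exact Or.inl h
      · rcases h1 i with h' | h'
        · exact Or.inr h'.symm
        · exact Or.inr (h.trans h'.symm)
    · rcases h1 i with h | h
      · rcases h2 i with h' | h'
        · exact Or.inl (h.trans h')
        · exact Or.inr (h.trans h')
      · exact Or.inr h
  · rintro ⟨h1, h2⟩
    refine ⟨fun i => ?_, fun i => ?_⟩
    · rcases h2 i with h | h
      · rcases h1 i with h' | h'
        · exact Or.inl (h.trans h'.symm)
        · exact Or.inl h'.symm
      · exact Or.inr h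
    · rcases h1 i with h | h
      · exact Or.inl h
      · rcases h2 i with h' | h'
        · exact Or.inl (h.trans h')
        · exact Or.inr (h.trans h')

/-- prepend an element -/
noncomputable def consL (x : ι → SignType) : Ch ι →ₗ[ℤ] Ch ι :=
  Finsupp.lmapDomain ℤ ℤ (fun l => x :: l)

theorem consL_single (x : ι → SignType) (l : List (ι → SignType)) (n : ℤ) :
    consL x (Finsupp.single l n) = Finsupp.single (x :: l) n := by
  rw [consL, Finsupp.lmapDomain_apply, Finsupp.mapDomain_single]

open Classical in
/-- delete the element `x` between `a` and the head of the list -/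
noncomputable def mB (a x : ι → SignType) : List (ι → SignType) → Ch ι
  | [] => 0
  | y :: t => if Geod a x y then Finsupp.single (y :: t) 1 else 0

/-- linear extension of `mB` -/
noncomputable def mL (a x : ι → SignType) : Ch ι →ₗ[ℤ] Ch ι :=
  Finsupp.linearCombination ℤ (mB a x)

theorem mL_single (a x : ι → SignType) (l : List (ι → SignType)) :
    mL a x (Finsupp.single l 1) = mB a x l := by
  rw [mL, Finsupp.linearCombination_single, one_smul]

/-- two linear maps agreeing on basis elements are equal -/
theorem ch_ext {M : Type} [AddCommGroup M] {f g : Ch ι →ₗ[ℤ] M}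
    (h : ∀ l, f (Finsupp.single l 1) = g (Finsupp.single l 1)) : f = g := by
  apply Finsupp.lhom_ext'
  intro l
  apply LinearMap.ext_ring
  exact h l

open Classical in
theorem mL_consL (a x y : ι → SignType) (z : Ch ι) :
    mL a x (consL y z) = if Geod a x y then consL y z else 0 := by
  have h : (mL a x) ∘ₗ (consL y) = if Geod a x y then consL y else 0 := by
    apply ch_ext
    intro l
    rw [LinearMap.comp_apply, consL_single, mL_single]
    by_cases hg : Geod a x y
    · rw [if_pos hg, mB, if_pos hg, consL_single]
    · rw [if_neg hg, mB, if_neg hg, LinearMap.zero_apply]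
  have h2 := LinearMap.congr_fun h z
  rw [LinearMap.comp_apply] at h2
  rw [h2]
  by_cases hg : Geod a x y
  · rw [if_pos hg, if_pos hg]
  · rw [if_neg hg, if_neg hg, LinearMap.zero_apply]

/-- the magnitude differential on basis lists, `a` being the starting point -/
noncomputable def dB : (ι → SignType) → List (ι → SignType) → Ch ι
  | _, [] => 0
  | a, x :: l => - mB a x l - consL x (dB x l)

/-- the magnitude differential -/
noncomputable def dL (a : ι → SignType) : Ch ι →ₗ[ℤ] Ch ι :=
  Finsupp.linearCombination ℤ (dB a)

theorem dL_single (a : ι → SignType) (l : List (ι → SignType)) :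
    dL a (Finsupp.single l 1) = dB a l := by
  rw [dL, Finsupp.linearCombination_single, one_smul]

theorem dL_consL (a x : ι → SignType) (z : Ch ι) :
    dL a (consL x z) = - mL a x z - consL x (dL x z) := by
  have h : (dL a) ∘ₗ (consL x) = - mL a x - (consL x) ∘ₗ (dL x) := by
    apply ch_ext
    intro l
    rw [LinearMap.comp_apply, consL_single, dL_single, LinearMap.sub_apply, LinearMap.neg_apply,
      mL_single, LinearMap.comp_apply, dL_single, dB]
  exact LinearMap.congr_fun h z

open Classical in
theorem mL_mB (a x y : ι → SignType) (t : List (ι → SignType)) :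
    mL a x (mB x y t) = if Geod a x y then mB a y t else 0 := by
  cases t with
  | nil => simp [mB]
  | cons w t =>
    rw [mB, mB]
    by_cases h1 : Geod x y w
    · rw [if_pos h1, mL_single, mB]
      by_cases h2 : Geod a x w
      · have h3 := geod_assoc.1 ⟨h1, h2⟩
        rw [if_pos h2, if_pos h3.1, if_pos h3.2]
      · rw [if_neg h2]
        by_cases h3 : Geod a x y
        · have h4 : ¬ Geod a y w := fun h4 => h2 (geod_assoc.2 ⟨h3, h4⟩).2
          rw [if_pos h3, if_neg h4]
        · rw [if_neg h3]
    · rw [if_neg h1, map_zero]
      by_cases h3 : Geod a x y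
      · have h4 : ¬ Geod a y w := fun h4 => h1 (geod_assoc.2 ⟨h3, h4⟩).1
        rw [if_pos h3, if_neg h4]
      · rw [if_neg h3]

theorem dL_dB (l : List (ι → SignType)) : ∀ a, dL a (dB a l) = 0 := by
  classical
  induction l with
  | nil => intro a; rw [dB, map_zero]
  | cons x l ih =>
    intro a
    rw [dB, map_sub, map_neg, dL_consL, ih x, map_zero, sub_zero, sub_neg_eq_add]
    cases l with
    | nil => rw [mB, dB, map_zero, map_zero, neg_zero, add_zero]
    | cons y t =>
      rw [mB, dB, map_sub, map_neg, mL_mB, mL_consL]
      by_cases h : Geod a x y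
      · rw [if_pos h, if_pos h, if_pos h, dL_single, dB]
        abel
      · rw [if_neg h, if_neg h, if_neg h, map_zero]
        abel

theorem dL_dL (a : ι → SignType) (z : Ch ι) : dL a (dL a z) = 0 := by
  have h : (dL a) ∘ₗ (dL a) = 0 := by
    apply ch_ext
    intro l
    rw [LinearMap.comp_apply, dL_single, dL_dB, LinearMap.zero_apply]
  exact LinearMap.congr_fun h z

/-! ### valid lists and multidegrees -/

/-- valid continuation of a walk from `a`: entries in `T`, consecutive entries distinct -/
def Vld (T : Set (ι → SignType)) : (ι → SignType) → List (ι → SignType) → Prop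
  | _, [] => True
  | a, x :: l => x ∈ T ∧ x ≠ a ∧ Vld T x l

open Classical in
/-- crossing vector -/
noncomputable def sv (a x : ι → SignType) : ι → ℕ := fun i => if x i ≠ a i then 1 else 0

/-- multidegree of the walk `a, l` -/
noncomputable def mdeg : (ι → SignType) → List (ι → SignType) → (ι → ℕ)
  | _, [] => 0
  | a, x :: l => sv a x + mdeg x l

theorem sv_add_of_geod {a x y : ι → SignType} (h : Geod a x y) : sv a x + sv x y = sv a y := by
  funext i
  simp only [Pi.add_apply, sv]
  rcases h i with h | h
  · rw [h]; simp
  · rw [h]; simp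

theorem geod_ne {a x y : ι → SignType} (h : Geod a x y) (hx : x ≠ a) : y ≠ a := by
  rintro rfl
  apply hx
  funext i
  rcases h i with h | h <;> exact h

/-- the set of valid walks with given multidegree -/
def XX (T : Set (ι → SignType)) (a : ι → SignType) (c : ι → ℕ) : Set (List (ι → SignType)) :=
  {l | Vld T a l ∧ mdeg a l = c}

/-- image of `consL` is supported on conses -/
theorem pr_consL {P Q : Set (List (ι → SignType))} {x : ι → SignType}
    (h : ∀ l ∈ P, x :: l ∈ Q) (z : Ch ι) (hz : pr P z = z) : pr Q (consL x z) = consL x z :=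
  push_pr (P := Q) (P' := P) (e := fun l => x :: l) h z hz

theorem pr_add_eq {I : Type} {P : Set I} {z w : I →₀ ℤ} (hz : pr P z = z) (hw : pr P w = w) :
    pr P (z + w) = z + w := by rw [map_add, hz, hw]

theorem pr_sub_eq {I : Type} {P : Set I} {z w : I →₀ ℤ} (hz : pr P z = z) (hw : pr P w = w) :
    pr P (z - w) = z - w := by rw [map_sub, hz, hw]

theorem pr_neg_eq {I : Type} {P : Set I} {z : I →₀ ℤ} (hz : pr P z = z) :
    pr P (-z) = -z := by rw [map_neg, hz]

theorem pr_mono {I : Type} {P Q : Set I} (h : ∀ x ∈ P, x ∈ Q) {z : I →₀ ℤ} (hz : pr P z = z) :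
    pr Q z = z := by
  rw [pr_eq_self_iff] at hz ⊢
  intro x hx
  exact hz x (fun h' => hx (h x h'))

theorem dB_supp (T : Set (ι → SignType)) (l : List (ι → SignType)) : ∀ a, Vld T a l →
    pr {m | Vld T a m ∧ mdeg a m = mdeg a l ∧ m.length < l.length} (dB a l) = dB a l := by
  classical
  induction l with
  | nil => intro a _; rw [dB, map_zero]
  | cons x l ih =>
    intro a hv
    obtain ⟨hxT, hxa, hxl⟩ := hv
    rw [dB]
    apply pr_sub_eq
    · apply pr_neg_eq
      cases l with
      | nil => rw [mB, map_zero]
      | cons y t =>
        rw [mB]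
        by_cases hg : Geod a x y
        · rw [if_pos hg]
          apply pr_single_mem
          obtain ⟨hyT, hyx, hyt⟩ := hxl
          refine ⟨⟨hyT, geod_ne hg hxa, hyt⟩, ?_, ?_⟩
          · simp only [mdeg]
            rw [← add_assoc, sv_add_of_geod hg]
          · simp
        · rw [if_neg hg, map_zero]
    · apply pr_consL _ _ (ih x hxl)
      rintro m ⟨hm1, hm2, hm3⟩
      refine ⟨⟨hxT, hxa, hm1⟩, ?_, ?_⟩
      · simp only [mdeg]
        rw [hm2]
      · simpa using hm3

/-- head condition: the first step crosses all zeros of `F` -/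
def Hd (F a : ι → SignType) : List (ι → SignType) → Prop
  | [] => False
  | x :: _ => ∀ i, F i = 0 → x i ≠ a i

theorem dB_hd (F : ι → SignType) (l : List (ι → SignType)) (a : ι → SignType) (h : Hd F a l) :
    pr {m | Hd F a m} (dB a l) = dB a l := by
  classical
  cases l with
  | nil => exact absurd h (by simp [Hd])
  | cons x l =>
    rw [dB]
    apply pr_sub_eq
    · apply pr_neg_eq
      cases l with
      | nil => rw [mB, map_zero]
      | cons y t =>
        rw [mB]
        by_cases hg : Geod a x y
        · rw [if_pos hg]
          apply pr_single_mem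
          intro i hi hne
          rcases hg i with h1 | h1
          · exact h i hi h1
          · exact h i hi (h1.trans hne)
        · rw [if_neg hg, map_zero]
    · apply pr_consL (P := Set.univ) _ _ _
      · intro m _ i hi
        exact h i hi
      · rw [pr_eq_self_iff]
        intro x hx
        exact absurd (Set.mem_univ x) hx

end Pool.Agent.Work.MP_95f31c_co
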