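import Pool.Agent.Work.MP_95f31c_co.Cells
import Pool.Agent.Work.MP_95f31c_co.Based

/-! Exactness of the rows. -/

namespace Pool.Agent.Work.MP_95f31c_co

variable {ι : Type} [Fintype ι] [DecidableEq ι]

theorem mem_zs {F : ι → SignType} {i : ι} : i ∈ zs F ↔ F i = 0 := by
  simp [zs]

theorem mem_sep {F G : ι → SignType} {i : ι} : i ∈ sep F G ↔ F i ≠ G i := by
  simp [sep]

theorem Face.trans {F G H : ι → SignType} (h1 : Face F G) (h2 : Face G H) : Face F H := by
  intro i
  rcases h1 i with h | h
  · exact Or.inl h
  · rcases h2 i with h' | h'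
    · exact Or.inl (h.trans h')
    · exact Or.inr (h.trans h')

theorem Face.refl (F : ι → SignType) : Face F F := fun _ => Or.inr rfl

theorem Face.zero {F G : ι → SignType} (h : Face F G) {i : ι} (hi : G i = 0) : F i = 0 := by
  rcases h i with h | h
  · exact h
  · exact h.trans hi

theorem sign_neg_of_ne {a b : SignType} (ha : a ≠ 0) (hb : b ≠ 0) (h : a ≠ b) : a = -b := by
  revert a b
  decide

theorem sign_neg_ne {a : SignType} (ha : a ≠ 0) : -a ≠ a := by
  revert a
  decide

theorem sign_neg_zero {a : SignType} : -a = 0 ↔ a = 0 := by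
  revert a
  decide

/-- the linear map given by the incidence numbers -/
noncomputable def dInc (S : CellSystem ι) :
    ((ι → SignType) →₀ ℤ) →ₗ[ℤ] ((ι → SignType) →₀ ℤ) :=
  Finsupp.linearCombination ℤ (fun F => ∑ G, Finsupp.single G (S.inc F G))

theorem dInc_single (S : CellSystem ι) (F : ι → SignType) :
    dInc S (Finsupp.single F 1) = ∑ G, Finsupp.single G (S.inc F G) := by
  rw [dInc, Finsupp.linearCombination_single, one_smul]

theorem dInc_single_apply (S : CellSystem ι) (F G : ι → SignType) :
    dInc S (Finsupp.single F 1) G = S.inc F G := by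
  classical
  rw [dInc_single, Finsupp.finsetSum_apply, Finset.sum_eq_single G]
  · rw [Finsupp.single_apply, if_pos rfl]
  · intro H _ hne
    rw [Finsupp.single_apply, if_neg hne]
  · intro h
    exact absurd (Finset.mem_univ G) h

theorem dInc_sq (S : CellSystem ι) (z : (ι → SignType) →₀ ℤ) : dInc S (dInc S z) = 0 := by
  have h : (dInc S) ∘ₗ (dInc S) = 0 := by
    apply Finsupp.lhom_ext'
    intro F
    apply LinearMap.ext_ring
    rw [LinearMap.comp_apply, LinearMap.comp_apply, Finsupp.lsingle_apply, dInc_single, map_sum]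
    simp only [LinearMap.zero_comp, LinearMap.zero_apply]
    ext H
    rw [Finsupp.finsetSum_apply, Finsupp.zero_apply, ← S.sq F H]
    apply Finset.sum_congr rfl
    intro G _
    have : Finsupp.single G (S.inc F G) = S.inc F G • Finsupp.single G (1 : ℤ) := by
      rw [Finsupp.smul_single, smul_eq_mul, mul_one]
    rw [this, map_smul, Finsupp.smul_apply, dInc_single_apply, smul_eq_mul]
  exact LinearMap.congr_fun h z

/-- the cells below `E` all of whose new zeros separate `E` from `g` -/
def rowSet (S : CellSystem ι) (E g : ι → SignType) : Set (ι → SignType) :=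
  {F | F ∈ S.cells ∧ Face F E ∧ ∀ i, F i = 0 → E i ≠ 0 → E i ≠ g i}

theorem sq0_row (S : CellSystem ι) (E g : ι → SignType) : Sq0 (dInc S) (rowSet S E g) := by
  apply sq0_of_convex (dInc_sq S)
  intro x hx y z hz hxy hyz
  rw [dInc_single_apply] at hxy hyz
  obtain ⟨_, hy, hf1, _⟩ := S.inc_mem _ _ hxy
  obtain ⟨_, _, hf2, _⟩ := S.inc_mem _ _ hyz
  exact ⟨hy, hf2.trans hz.2.1, fun i hi => hx.2.2 i (hf1.zero hi)⟩

theorem row_acyc (S : CellSystem ι) (n : ℕ) : ∀ E ∈ S.cells, ∀ g ∈ S.cells, zs E = zs g → E ≠ g →
    (sep E g).card = n → Acyc (dInc S) (rowSet S E g) := by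
  induction n using Nat.strong_induction_on with
  | _ n ih =>
  intro E hE g hg hz hne hn
  obtain ⟨h, hh, hhg, hhne, hK, hpar, hinc⟩ := S.facet E hE g hg hz hne
  have hz' : ∀ i, E i = 0 ↔ g i = 0 := by
    intro i
    rw [← mem_zs, ← mem_zs, hz]
  have hzh : ∀ i, g i = 0 → h i = 0 := fun i hi => hhg.zero hi
  -- the set K is nonempty
  have hKne : ∃ i, h i = 0 ∧ g i ≠ 0 := by
    by_contra hcon
    push Not at hcon
    apply hhne
    funext i
    rcases hhg i with h1 | h1
    · rw [h1, hcon i h1]
    · exact h1
  have hKsep : ∀ i, h i = 0 → g i ≠ 0 → E i ≠ g i := by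
    intro i hi hgi
    have : i ∈ zs h \ zs g := by
      rw [Finset.mem_sdiff, mem_zs, mem_zs]
      exact ⟨hi, hgi⟩
    exact mem_sep.1 (hK this)
  have hhi : ∀ i, h i ≠ 0 → h i = g i := by
    intro i hi
    rcases hhg i with h1 | h1
    · exact absurd h1 hi
    · exact h1
  set g' : ι → SignType := comp h (-g) with hg'
  have hg'mem : g' ∈ S.cells := S.comp_mem _ hh _ (S.neg_mem _ hg)
  have hg'1 : ∀ i, h i ≠ 0 → g' i = g i := by
    intro i hi
    rw [hg', comp, if_neg hi, hhi i hi]
  have hg'2 : ∀ i, h i = 0 → g' i = - g i := by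
    intro i hi
    rw [hg', comp, if_pos hi, Pi.neg_apply]
  have hg'z : ∀ i, g' i = 0 ↔ g i = 0 := by
    intro i
    by_cases hi : h i = 0
    · rw [hg'2 i hi, sign_neg_zero]
    · rw [hg'1 i hi]
  have hKE : ∀ i, h i = 0 → g i ≠ 0 → g' i = E i := by
    intro i hi hgi
    have hEi : E i ≠ 0 := fun h0 => hgi ((hz' i).1 h0)
    rw [hg'2 i hi, sign_neg_of_ne hEi hgi (hKsep i hi hgi)]
  have hpar' : ∀ F ∈ S.cells, Face F E → (∃ i, F i = 0 ∧ h i = 0 ∧ g i ≠ 0) →
      ∀ i, h i = 0 → F i = 0 := by
    rintro F hF hFE ⟨j, hj1, hj2, hj3⟩ i hi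
    have h1 : zs g ⊆ zs F := by
      intro k hk
      rw [mem_zs] at hk ⊢
      exact hFE.zero ((hz' k).2 hk)
    have h2 := hpar F hF h1 ⟨j, mem_zs.2 hj1, by
      rw [Finset.mem_sdiff, mem_zs, mem_zs]
      exact ⟨hj2, hj3⟩⟩
    exact mem_zs.1 (h2 (mem_zs.2 hi))
  by_cases hcase : g' = E
  · -- base case: the row is {h, E}
    have hhE : Face h E := by
      intro i
      by_cases hi : h i = 0
      · exact Or.inl hi
      · right
        rw [← hcase, hg'1 i hi, hhi i hi]
    have hset : ∀ F, F ∈ rowSet S E g ↔ F = h ∨ F = E := by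
      intro F
      constructor
      · rintro ⟨hF, hFE, hFz⟩
        by_cases hex : ∃ i, F i = 0 ∧ E i ≠ 0
        · left
          obtain ⟨i, hi, hEi⟩ := hex
          have hgi : g i ≠ 0 := fun h0 => hEi ((hz' i).2 h0)
          have hhi0 : h i = 0 := by
            by_contra hne0
            apply hFz i hi hEi
            rw [← hcase, hg'1 i hne0]
          have hall := hpar' F hF hFE ⟨i, hi, hhi0, hgi⟩
          funext j
          by_cases hj : h j = 0
          · rw [hj, hall j hj]
          · have hgj : g' j = g j := hg'1 j hj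
            by_cases hFj : F j = 0
            · exfalso
              have hEj : E j ≠ 0 := by
                rw [← hcase, hgj, ← hhi j hj]
                exact hj
              apply hFz j hFj hEj
              rw [← hcase, hgj]
            · rcases hFE j with h1 | h1
              · exact absurd h1 hFj
              · rw [h1, ← hcase, hgj, hhi j hj]
        · right
          push Not at hex
          funext i
          rcases hFE i with h1 | h1
          · rw [h1, hex i h1]
          · exact h1
      · rintro (rfl | rfl)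
        · refine ⟨hh, hhE, fun i hi hEi => ?_⟩
          have hgi : g i ≠ 0 := fun h0 => hEi ((hz' i).2 h0)
          exact hKsep i hi hgi
        · refine ⟨hE, Face.refl _, fun i hi hEi => absurd hi hEi⟩
    have hhE' : h ≠ E := by
      obtain ⟨i, hi, hgi⟩ := hKne
      intro heq
      apply hgi
      rw [← hz' i, ← heq, hi]
    have hunit := hinc h hh E hE hhE rfl hz
    have hinc0 : S.inc E h = 0 := by
      by_contra h0
      obtain ⟨_, _, hf, _⟩ := S.inc_mem _ _ h0
      apply hhE'
      funext i
      rcases hhE i with h1 | h1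
      · rw [h1, hf.zero h1]
      · exact h1
    have hincE : S.inc E E = 0 := by
      by_contra h0
      exact (S.inc_mem _ _ h0).2.2.2 rfl
    have hinch : S.inc h h = 0 := by
      by_contra h0
      exact (S.inc_mem _ _ h0).2.2.2 rfl
    intro z hzz hdz
    have hzrep : z = Finsupp.single h (z h) + Finsupp.single E (z E) := by
      classical
      ext F
      rw [Finsupp.add_apply, Finsupp.single_apply, Finsupp.single_apply]
      by_cases h1 : F = h
      · rw [h1, if_pos rfl, if_neg (fun h => hhE' h.symm), add_zero]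
      · by_cases h2 : F = E
        · rw [h2, if_neg hhE', if_pos rfl, zero_add]
        · rw [if_neg (fun h => h1 h.symm), if_neg (fun h => h2 h.symm), add_zero]
          apply pr_eq_self_iff.1 hzz
          rw [hset]
          rintro (h | h)
          · exact h1 h
          · exact h2 h
    have hsm : ∀ (F : ι → SignType) (c : ℤ), Finsupp.single F c = c • Finsupp.single F (1 : ℤ) := by
      intro F c
      rw [Finsupp.smul_single, smul_eq_mul, mul_one]
    have hEmem : E ∈ rowSet S E g := (hset E).2 (Or.inr rfl)
    have hhmem : h ∈ rowSet S E g := (hset h).2 (Or.inl rfl)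
    have hzh0 : z h = 0 := by
      have h1 : dInc S z E = 0 := by
        rw [← pr_apply_mem hEmem, hdz, Finsupp.zero_apply]
      rw [hzrep, map_add, Finsupp.add_apply, hsm, hsm E, map_smul, map_smul, Finsupp.smul_apply,
        Finsupp.smul_apply, dInc_single_apply, dInc_single_apply, hincE, smul_zero, add_zero,
        smul_eq_mul] at h1
      have h2 : z h * (S.inc h E * S.inc h E) = 0 := by
        rw [← mul_assoc, h1, zero_mul]
      rw [hunit, mul_one] at h2
      exact h2
    refine ⟨Finsupp.single h (z E * S.inc h E), pr_single_mem hhmem _, ?_⟩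
    rw [hsm h, map_smul]
    ext F
    by_cases hF : F ∈ rowSet S E g
    · rw [pr_apply_mem hF, Finsupp.smul_apply, dInc_single_apply, smul_eq_mul]
      rcases (hset F).1 hF with rfl | rfl
      · rw [hinch, mul_zero, hzh0]
      · rw [mul_assoc, hunit, mul_one]
    · rw [pr_apply_not_mem hF, pr_eq_self_iff.1 hzz F hF]
  · -- inductive case
    have hsplit : Split (dInc S) (pr (rowSet S E g)) (pr (rowSet S E g'))
        (pr {F | F ∈ rowSet S E g ∧ ∃ i, F i = 0 ∧ h i = 0 ∧ g i ≠ 0}) := by
      apply split_of_union _ _ _ (sq0_row S E g)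
      · intro F
        constructor
        · intro hF
          by_cases hex : ∃ i, F i = 0 ∧ h i = 0 ∧ g i ≠ 0
          · exact Or.inr ⟨hF, hex⟩
          · left
            refine ⟨hF.1, hF.2.1, fun i hi hEi => ?_⟩
            have hgi : g i ≠ 0 := fun h0 => hEi ((hz' i).2 h0)
            have hhi0 : h i ≠ 0 := fun h0 => hex ⟨i, hi, h0, hgi⟩
            rw [hg'1 i hhi0]
            exact hF.2.2 i hi hEi
        · rintro (hF | hF)
          · refine ⟨hF.1, hF.2.1, fun i hi hEi => ?_⟩
            have hgi : g i ≠ 0 := fun h0 => hEi ((hz' i).2 h0)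
            have hhi0 : h i ≠ 0 := fun h0 => hF.2.2 i hi hEi (hKE i h0 hgi).symm
            rw [← hg'1 i hhi0]
            exact hF.2.2 i hi hEi
          · exact hF.1
      · rintro F hF ⟨_, i, hi, hhi0, hgi⟩
        have hEi : E i ≠ 0 := fun h0 => hgi ((hz' i).1 h0)
        exact hF.2.2 i hi hEi (hKE i hhi0 hgi).symm
      · rintro F hF G ⟨_, i, hi, hhi0, hgi⟩
        rw [dInc_single_apply]
        by_contra hne0
        have hf := (S.inc_mem _ _ hne0).2.2.1
        have hEi : E i ≠ 0 := fun h0 => hgi ((hz' i).1 h0)
        exact hF.2.2 i (hf.zero hi) hEi (hKE i hhi0 hgi).symm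
    have hQ : Acyc (dInc S) (rowSet S E g') := by
      apply ih (sep E g').card _ E hE g' hg'mem _ (fun h => hcase h.symm) rfl
      · rw [← hn]
        apply Finset.card_lt_card
        rw [Finset.ssubset_iff_of_subset]
        · obtain ⟨i, hi, hgi⟩ := hKne
          refine ⟨i, mem_sep.2 (hKsep i hi hgi), ?_⟩
          rw [mem_sep, not_not]
          exact (hKE i hi hgi).symm
        · intro i hi
          rw [mem_sep] at hi ⊢
          by_cases hhi0 : h i = 0
          · by_cases hgi : g i = 0
            · exfalso
              apply hi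
              rw [(hz' i).2 hgi, (hg'z i).2 hgi]
            · exact hKsep i hhi0 hgi
          · rw [← hg'1 i hhi0]
            exact hi
      · ext i
        rw [mem_zs, mem_zs, hg'z, hz']
    have hR : Acyc (dInc S) {F | F ∈ rowSet S E g ∧ ∃ i, F i = 0 ∧ h i = 0 ∧ g i ≠ 0} := by
      by_cases hemp : ∃ F0, F0 ∈ rowSet S E g ∧ ∃ i, F0 i = 0 ∧ h i = 0 ∧ g i ≠ 0
      · obtain ⟨F0, hF0, hF0K⟩ := hemp
        have hF0z := hpar' F0 hF0.1 hF0.2.1 hF0K
        set W : ι → SignType := comp F0 (-h) with hW
        have hWmem : W ∈ S.cells := S.comp_mem _ hF0.1 _ (S.neg_mem _ hh)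
        have hW0 : ∀ i, W i = 0 ↔ h i = 0 := by
          intro i
          rw [hW, comp]
          by_cases hi : F0 i = 0
          · rw [if_pos hi, Pi.neg_apply, sign_neg_zero]
          · rw [if_neg hi]
            constructor
            · intro h1
              exact absurd h1 hi
            · intro h1
              exact hF0z i h1
        have hWE : ∀ i, W i ≠ 0 → W i = E i := by
          intro i hi
          have hhi0 : h i ≠ 0 := fun h0 => hi ((hW0 i).2 h0)
          have hgi : g i ≠ 0 := by rw [← hhi i hhi0]; exact hhi0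
          have hEi : E i ≠ 0 := fun h0 => hgi ((hz' i).1 h0)
          rw [hW, comp]
          by_cases hF0i : F0 i = 0
          · rw [if_pos hF0i, Pi.neg_apply, hhi i hhi0]
            exact (sign_neg_of_ne hEi hgi (hF0.2.2 i hF0i hEi)).symm
          · rw [if_neg hF0i]
            rcases hF0.2.1 i with h1 | h1
            · exact absurd h1 hF0i
            · exact h1
        have hFaceWE : Face W E := by
          intro i
          by_cases hi : W i = 0
          · exact Or.inl hi
          · exact Or.inr (hWE i hi)
        have hsetR : {F | F ∈ rowSet S E g ∧ ∃ i, F i = 0 ∧ h i = 0 ∧ g i ≠ 0} = rowSet S W h := by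
          ext F
          constructor
          · rintro ⟨hF, hex⟩
            have hFz := hpar' F hF.1 hF.2.1 hex
            refine ⟨hF.1, fun i => ?_, fun i hi hWi => ?_⟩
            · by_cases hFi : F i = 0
              · exact Or.inl hFi
              · right
                have hhi0 : h i ≠ 0 := fun h0 => hFi (hFz i h0)
                rw [hWE i (fun h0 => hhi0 ((hW0 i).1 h0))]
                rcases hF.2.1 i with h1 | h1
                · exact absurd h1 hFi
                · exact h1
            · have hhi0 : h i ≠ 0 := fun h0 => hWi ((hW0 i).2 h0)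
              rw [hWE i hWi, hhi i hhi0]
              apply hF.2.2 i hi
              rw [← hWE i hWi]
              exact hWi
          · rintro ⟨hF, hFW, hFz⟩
            refine ⟨⟨hF, hFW.trans hFaceWE, fun i hi hEi => ?_⟩, ?_⟩
            · by_cases hWi : W i = 0
              · exact hKsep i ((hW0 i).1 hWi) (fun h0 => hEi ((hz' i).2 h0))
              · have hhi0 : h i ≠ 0 := fun h0 => hWi ((hW0 i).2 h0)
                rw [← hhi i hhi0, ← hWE i hWi]
                exact hFz i hi hWi
            · obtain ⟨i, hi, hgi⟩ := hKne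
              exact ⟨i, hFW.zero ((hW0 i).2 hi), hi, hgi⟩
        rw [hsetR]
        have hsepsub : ∀ i, W i ≠ h i → E i ≠ g i ∧ h i ≠ 0 := by
          intro i hi
          have hhi0 : h i ≠ 0 := by
            intro h0
            apply hi
            rw [h0, (hW0 i).2 h0]
          refine ⟨?_, hhi0⟩
          rw [← hWE i (fun h0 => hhi0 ((hW0 i).1 h0)), ← hhi i hhi0]
          exact hi
        apply ih (sep W h).card _ W hWmem h hh _ _ rfl
        · rw [← hn]
          apply Finset.card_lt_card
          rw [Finset.ssubset_iff_of_subset]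
          · obtain ⟨i, hi, hgi⟩ := hKne
            refine ⟨i, mem_sep.2 (hKsep i hi hgi), ?_⟩
            rw [mem_sep]
            intro h1
            exact (hsepsub i h1).2 hi
          · intro i hi
            rw [mem_sep] at hi ⊢
            exact (hsepsub i hi).1
        · ext i
          rw [mem_zs, mem_zs, hW0]
        · intro heq
          apply hcase
          funext j
          by_cases hj : h j = 0
          · by_cases hgj : g j = 0
            · rw [(hz' j).2 hgj, (hg'z j).2 hgj]
            · exact hKE j hj hgj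
          · rw [hg'1 j hj, ← hhi j hj, ← hWE j (fun h0 => hj ((hW0 j).1 h0)), heq]
      · apply acyc_empty
        intro F hF
        exact hemp ⟨F, hF⟩
    exact hsplit.acyc hQ hR

end Pool.Agent.Work.MP_95f31c_co
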